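import Mathlib

open scoped ContDiff Topology
open Set Filter

noncomputable section

namespace Pool.Agent.Helper10.Asy

/-- Profile data for the metric `dt² + f² ds²` on the plane with coordinates `(t, s)`, where
`f (t, s) = exp (L t + a s * t)`, `L' = H`. -/
structure Prof where
  L : ℝ → ℝ
  H : ℝ → ℝ
  a : ℝ → ℝ
  lam : ℝ
  del : ℝ
  C : ℝ
  hL : ContDiff ℝ ∞ L
  hH : ContDiff ℝ ∞ H
  ha : ContDiff ℝ ∞ a
  dL : ∀ t, HasDerivAt L (H t) t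
  L_zero : ∀ t, 0 ≤ t → L t = 0
  L_bot : Tendsto L atBot atBot
  H_nonneg : ∀ t, 0 ≤ H t
  H_le : ∀ t, H t ≤ del
  dH_nonpos : ∀ t, deriv H t ≤ 0
  dH_ge : ∀ t, -C ≤ deriv H t
  H_zero : ∀ t, 0 ≤ t → H t = 0
  a_nonneg : ∀ s, 0 ≤ a s
  a_le : ∀ s, a s ≤ 1
  a_zero : ∀ s ∈ Icc (0:ℝ) 1, a s = 0
  a_one : ∀ s, s ∉ Icc (-1:ℝ) 2 → a s = 1
  a_symm : ∀ s, a (1 - s) = a s
  lam_pos : 0 < lam
  del_le : 8 * del ≤ lam
  mu_le : 80 * (5 / 4 * lam ^ 2 + lam * del + C) ≤ lam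

variable (P : Prof)

/-- the coefficient of the metric -/
def Prof.f (q : ℝ × ℝ) : ℝ := Real.exp (P.L q.1 + P.a q.2 * q.1)

/-- the logarithmic derivative `f_t / f` -/
def Prof.h (q : ℝ × ℝ) : ℝ := P.H q.1 + P.a q.2

/-- minus the Gaussian curvature, `f_tt / f` -/
def Prof.k (q : ℝ × ℝ) : ℝ := deriv P.H q.1 + (P.H q.1 + P.a q.2) ^ 2

/-- the geodesic vector field in the coordinates `(t, s, θ)`; the unit tangent vector is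
`(cos θ, sin θ / f)`. -/
def Prof.V (p : ℝ × ℝ × ℝ) : ℝ × ℝ × ℝ :=
  (Real.cos p.2.2, Real.sin p.2.2 * Real.exp (-(P.L p.1 + P.a p.2.1 * p.1)),
    -((P.H p.1 + P.a p.2.1) * Real.sin p.2.2))

/-- the foot point in the plane -/
def pos (p : ℝ × ℝ × ℝ) : ℝ × ℝ := (p.1, p.2.1)

/-- `γ` is a (unit speed) geodesic, lifted to the unit tangent bundle -/
def Prof.IsGeod (γ : ℝ → ℝ × ℝ × ℝ) : Prop := ∀ x, HasDerivAt γ (P.V (γ x)) x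

/-- squared norm of the metric -/
def Prof.nsq (q v : ℝ × ℝ) : ℝ := v.1 ^ 2 + (P.f q * v.2) ^ 2

/-- the geodesic flow -/
structure Flow where
  φ : ℝ → ℝ × ℝ × ℝ → ℝ × ℝ × ℝ
  zero : ∀ p, φ 0 p = p
  deriv : ∀ p, P.IsGeod (fun x => φ x p)
  smooth : ContDiff ℝ 2 (fun z : ℝ × (ℝ × ℝ × ℝ) => φ z.1 z.2)
  uniq : ∀ γ, P.IsGeod γ → ∀ x y, γ (x + y) = φ y (γ x)

end Pool.Agent.Helper10.Asy
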