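import Mathlib
import Pool.Agent.Helper10.Asy.Base

open scoped ContDiff Topology
open Set Filter

noncomputable section

namespace Pool.Agent.Helper10.Asy.JA

variable (P : Prof)

theorem prof_dnn (x : ℝ) : 0 ≤ deriv Real.smoothTransition x :=
  Real.smoothTransition.monotone.deriv_nonneg

theorem prof_bd : ∃ C0 : ℝ, 0 ≤ C0 ∧ ∀ x, deriv Real.smoothTransition x ≤ C0 := by
  have hcd : ContDiff ℝ 1 Real.smoothTransition := Real.smoothTransition.contDiff (n := 1)
  have hc : Continuous (deriv Real.smoothTransition) := hcd.continuous_deriv (le_refl _)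
  obtain ⟨C0, hC0⟩ := (isCompact_Icc (a := (0 : ℝ)) (b := 1)).exists_bound_of_continuousOn
    hc.continuousOn
  have h0 : 0 ≤ C0 := (norm_nonneg _).trans (hC0 0 ⟨le_refl _, zero_le_one⟩)
  refine ⟨C0, h0, fun x => ?_⟩
  by_cases hx : x ∈ Icc (0 : ℝ) 1
  · exact (le_abs_self _).trans (hC0 x hx)
  · have hd : deriv Real.smoothTransition x = 0 := by
      rw [mem_Icc, not_and_or, not_le, not_le] at hx
      rcases hx with hx | hx
      · have he : Real.smoothTransition =ᶠ[𝓝 x] fun _ => 0 := by
          filter_upwards [Iio_mem_nhds hx] with y hy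
          exact Real.smoothTransition.zero_of_nonpos (le_of_lt hy)
        rw [he.deriv_eq, deriv_const]
      · have he : Real.smoothTransition =ᶠ[𝓝 x] fun _ => 1 := by
          filter_upwards [Ioi_mem_nhds hx] with y hy
          exact Real.smoothTransition.one_of_one_le (le_of_lt hy)
        rw [he.deriv_eq, deriv_const]
    rw [hd]; exact h0

theorem exists_prof : Nonempty Prof := by
  obtain ⟨C0, hC0, hbd⟩ := prof_bd
  obtain ⟨lam, hlam⟩ : ∃ lam : ℝ, lam = 1 / (110 + 2 * C0) := ⟨_, rfl⟩
  have hden : 0 < 110 + 2 * C0 := by positivity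
  have hlam0 : 0 < lam := by rw [hlam]; positivity
  obtain ⟨del, hdel⟩ : ∃ del : ℝ, del = lam / 8 := ⟨_, rfl⟩
  have hdel0 : 0 < del := by rw [hdel]; positivity
  obtain ⟨H, hH⟩ : ∃ H : ℝ → ℝ, H = fun t => del * (1 - Real.smoothTransition (del * t + 1)) :=
    ⟨_, rfl⟩
  have hst : ContDiff ℝ ∞ Real.smoothTransition := Real.smoothTransition.contDiff (n := ⊤)
  have hHs : ContDiff ℝ ∞ H := by
    rw [hH]
    apply contDiff_const.mul
    apply contDiff_const.sub
    exact hst.comp ((contDiff_const.mul contDiff_id).add contDiff_const)
  have hHc : Continuous H := hHs.continuous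
  have hHv : ∀ t, H t = del * (1 - Real.smoothTransition (del * t + 1)) := fun t => by rw [hH]
  have hHd : ∀ t, deriv H t = -(del ^ 2 * deriv Real.smoothTransition (del * t + 1)) := by
    intro t
    have h1 : HasDerivAt (fun t : ℝ => del * t + 1) del t := by
      simpa using ((hasDerivAt_id t).const_mul del).add_const 1
    have h2 : HasDerivAt Real.smoothTransition (deriv Real.smoothTransition (del * t + 1))
        (del * t + 1) :=
      ((hst.differentiable (by simp)) (del * t + 1)).hasDerivAt
    have h3 := (h2.comp t h1).const_sub 1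
    have h4 := h3.const_mul del
    rw [hH]
    have h5 := h4.deriv
    have e : (fun t => del * (1 - Real.smoothTransition (del * t + 1))) =
      fun y => del * (1 - (Real.smoothTransition ∘ fun t => del * t + 1) y) := rfl
    rw [e, h5]
    ring
  obtain ⟨L, hL⟩ : ∃ L : ℝ → ℝ, L = fun t => ∫ x in (0 : ℝ)..t, H x := ⟨_, rfl⟩
  have hLd : ∀ t, HasDerivAt L (H t) t := by
    intro t
    rw [hL]
    exact (hHc.integral_hasStrictDerivAt 0 t).hasDerivAt
  have hHnn : ∀ t, 0 ≤ H t := by
    intro t
    rw [hHv]
    have := Real.smoothTransition.le_one (del * t + 1)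
    apply mul_nonneg hdel0.le
    linarith
  have hH0 : ∀ t, 0 ≤ t → H t = 0 := by
    intro t ht
    rw [hHv, Real.smoothTransition.one_of_one_le (by nlinarith)]
    simp
  have hH1 : ∀ t, t ≤ -(1 / del) → H t = del := by
    intro t ht
    have h1 : del * t + 1 ≤ 0 := by
      have := mul_le_mul_of_nonneg_left ht hdel0.le
      have h2 : del * -(1 / del) = -1 := by field_simp
      linarith
    rw [hHv, Real.smoothTransition.zero_of_nonpos h1]
    simp
  refine ⟨{ L := L, H := H, a := fun s => Real.smoothTransition (-s) + Real.smoothTransition (s - 1),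
            lam := lam, del := del, C := C0 * del ^ 2, hL := ?_, hH := hHs, ha := ?_, dL := hLd,
            L_zero := ?_, L_bot := ?_, H_nonneg := hHnn, H_le := ?_, dH_nonpos := ?_,
            dH_ge := ?_, H_zero := hH0, a_nonneg := ?_, a_le := ?_, a_zero := ?_, a_one := ?_,
            a_symm := ?_, lam_pos := hlam0, del_le := ?_, mu_le := ?_ }⟩
  · rw [contDiff_infty_iff_deriv]
    refine ⟨fun t => (hLd t).differentiableAt, ?_⟩
    have : deriv L = H := funext fun t => (hLd t).deriv
    rw [this]
    exact hHs
  · exact (hst.comp contDiff_neg).add (hst.comp (contDiff_id.sub contDiff_const))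
  · intro t ht
    rw [hL]
    show ∫ x in (0 : ℝ)..t, H x = 0
    apply intervalIntegral.integral_zero_ae
    refine Eventually.of_forall fun x hx => ?_
    rw [uIoc_of_le ht] at hx
    exact hH0 x hx.1.le
  · have hbound : ∀ t, t ≤ -(1 / del) → L t ≤ del * t + 1 := by
      intro t ht
      have h1 : L t = (∫ x in (0 : ℝ)..(-(1 / del)), H x) + ∫ x in (-(1 / del))..t, H x := by
        rw [hL]
        exact (intervalIntegral.integral_add_adjacent_intervals (hHc.intervalIntegrable _ _)
          (hHc.intervalIntegrable _ _)).symm
      have h2 : (∫ x in (0 : ℝ)..(-(1 / del)), H x) ≤ 0 := by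
        rw [intervalIntegral.integral_symm]
        have h3 : 0 ≤ ∫ x in (-(1 / del))..(0 : ℝ), H x := by
          apply intervalIntegral.integral_nonneg
          · have : 0 < 1 / del := by positivity
            linarith
          · intro x _
            exact hHnn x
        linarith
      have h4 : ∫ x in (-(1 / del))..t, H x = ∫ x in (-(1 / del))..t, del := by
        apply intervalIntegral.integral_congr
        intro x hx
        rw [uIcc_of_ge ht] at hx
        exact hH1 x hx.2
      have h5 : ∫ x in (-(1 / del))..t, del = del * t + 1 := by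
        rw [intervalIntegral.integral_const, smul_eq_mul]
        field_simp
        ring
      rw [h1, h4, h5]
      linarith
    have htend : Tendsto (fun t : ℝ => del * t + 1) atBot atBot :=
      tendsto_atBot_add_const_right _ _ ((tendsto_const_mul_atBot_of_pos hdel0).2 tendsto_id)
    refine tendsto_atBot_mono' _ ?_ htend
    filter_upwards [eventually_le_atBot (-(1 / del))] with t ht
    exact hbound t ht
  · intro t
    rw [hHv]
    have := Real.smoothTransition.nonneg (del * t + 1)
    nlinarith
  · intro t
    rw [hHd]
    have := prof_dnn (del * t + 1)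
    have : 0 ≤ del ^ 2 * deriv Real.smoothTransition (del * t + 1) := by positivity
    linarith
  · intro t
    rw [hHd]
    have h1 := hbd (del * t + 1)
    have h2 : 0 ≤ del ^ 2 := by positivity
    nlinarith
  · intro s
    have := Real.smoothTransition.nonneg (-s)
    have := Real.smoothTransition.nonneg (s - 1)
    positivity
  · intro s
    rcases le_total s 1 with hs | hs
    · have h1 := Real.smoothTransition.zero_of_nonpos (show s - 1 ≤ 0 by linarith)
      have h2 := Real.smoothTransition.le_one (-s)
      show Real.smoothTransition (-s) + Real.smoothTransition (s - 1) ≤ 1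
      linarith
    · have h1 := Real.smoothTransition.zero_of_nonpos (show -s ≤ 0 by linarith)
      have h2 := Real.smoothTransition.le_one (s - 1)
      show Real.smoothTransition (-s) + Real.smoothTransition (s - 1) ≤ 1
      linarith
  · intro s hs
    have h1 := Real.smoothTransition.zero_of_nonpos (show s - 1 ≤ 0 by linarith [hs.2])
    have h2 := Real.smoothTransition.zero_of_nonpos (show -s ≤ 0 by linarith [hs.1])
    show Real.smoothTransition (-s) + Real.smoothTransition (s - 1) = 0
    rw [h1, h2, add_zero]
  · intro s hs
    show Real.smoothTransition (-s) + Real.smoothTransition (s - 1) = 1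
    rw [mem_Icc, not_and_or, not_le, not_le] at hs
    rcases hs with hs | hs
    · rw [Real.smoothTransition.one_of_one_le (show 1 ≤ -s by linarith),
        Real.smoothTransition.zero_of_nonpos (show s - 1 ≤ 0 by linarith), add_zero]
    · rw [Real.smoothTransition.one_of_one_le (show 1 ≤ s - 1 by linarith),
        Real.smoothTransition.zero_of_nonpos (show -s ≤ 0 by linarith), zero_add]
  · intro s
    show Real.smoothTransition (-(1 - s)) + Real.smoothTransition (1 - s - 1) =
      Real.smoothTransition (-s) + Real.smoothTransition (s - 1)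
    rw [show -(1 - s) = s - 1 by ring, show 1 - s - 1 = -s by ring, add_comm]
  · rw [hdel]; linarith
  · have h1 : lam * (110 + 2 * C0) = 1 := by rw [hlam]; field_simp
    have h2 : 80 * (5 / 4 * lam ^ 2 + lam * del + C0 * del ^ 2) =
        lam * (lam * (110 + 5 / 4 * C0)) := by rw [hdel]; ring
    rw [h2]
    have h3 : lam * (110 + 5 / 4 * C0) ≤ 1 := by
      rw [← h1]
      apply mul_le_mul_of_nonneg_left _ hlam0.le
      linarith
    nlinarith


end Pool.Agent.Helper10.Asy.JA
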