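import Mathlib
import Pool.Agent.Helper10.Asy.Base
import Pool.Agent.H664.Flow
import Pool.Agent.Helper981.Flow

open scoped ContDiff Topology
open Set Filter

noncomputable section

namespace Pool.Agent.Helper10.Asy.JB

variable (P : Prof)

/-- truncated field -/
def trunc {E : Type} [NormedAddCommGroup E] [NormedSpace ℝ E] [FiniteDimensional ℝ E]
    (V : E → E) (n : ℕ) (p : E) : E :=
  (ContDiffBump.mk (c := (0 : E)) ((n : ℝ) + 1) ((n : ℝ) + 2) (by positivity) (by linarith)) p • V p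

section
variable {E : Type} [NormedAddCommGroup E] [NormedSpace ℝ E] [FiniteDimensional ℝ E]

lemma trunc_form (V : E → E) (n : ℕ) : ∃ χ : E → ℝ, (∀ p, 0 ≤ χ p ∧ χ p ≤ 1) ∧
    (∀ p, trunc V n p = χ p • V p) ∧ (∀ p, ‖p‖ ≤ n + 1 → χ p = 1) := by
  refine ⟨fun p => (ContDiffBump.mk (c := (0 : E)) ((n : ℝ) + 1) ((n : ℝ) + 2) (by positivity)
    (by linarith)) p, fun p => ⟨ContDiffBump.nonneg _, ContDiffBump.le_one _⟩, fun p => rfl, ?_⟩
  intro p hp
  apply ContDiffBump.one_of_mem_closedBall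
  rw [mem_closedBall_zero_iff]
  exact hp

lemma trunc_eq (V : E → E) (n : ℕ) (p : E) (hp : ‖p‖ ≤ n + 1) : trunc V n p = V p := by
  obtain ⟨χ, -, h2, h3⟩ := trunc_form V n
  rw [h2, h3 p hp, one_smul]

lemma trunc_contDiff {V : E → E} (hV : ContDiff ℝ ∞ V) (n : ℕ) : ContDiff ℝ ∞ (trunc V n) := by
  unfold trunc
  exact (ContDiffBump.contDiff _).smul hV

lemma trunc_supp (V : E → E) (n : ℕ) : HasCompactSupport (trunc V n) := by
  unfold trunc
  exact (ContDiffBump.hasCompactSupport _).smul_right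

lemma exists_trunc_flow {V : E → E} (hV : ContDiff ℝ ∞ V) (n : ℕ) :
    ∃ g : ℝ → E → E, ∃ K : NNReal, LipschitzWith K (trunc V n) ∧ (∀ p, g 0 p = p) ∧
      (∀ p τ, HasDerivAt (fun s => g s p) (trunc V n (g τ p)) τ) ∧
      ContDiff ℝ 2 (fun z : ℝ × E => g z.1 z.2) := by
  have hc := trunc_contDiff hV n
  have hs := trunc_supp V n
  obtain ⟨K, hK⟩ := hc.lipschitzWith_of_hasCompactSupport hs (by simp)
  obtain ⟨M, hM⟩ := hs.exists_bound_of_continuous hc.continuous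
  have hM' : ∀ x, ‖trunc V n x‖ ≤ (Real.toNNReal M : ℝ) := fun x =>
    (hM x).trans (Real.le_coe_toNNReal M)
  choose γ h0 h1 using Pool.Agent.H664.Flow.exists_solution hK hM'
  have hflow : Pool.Agent.H664.Flow.IsFlowOf (⟨trunc V n, hc.continuous⟩ : C(E, E))
      (fun τ p => γ p τ) := ⟨fun p => h0 p, fun p t => h1 p t⟩
  have hcd := Pool.Agent.H664.Flow.contDiff_flow (X := ⟨trunc V n, hc.continuous⟩) (m := 2)
    (by norm_num) (hc.of_le (by
      have : ((2 : ℕ) : WithTop ℕ∞) = ((2 : ℕ∞) : WithTop ℕ∞) := rfl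
      rw [this]
      exact WithTop.coe_le_coe.2 le_top)) (K := K) hK hflow
  exact ⟨fun τ p => γ p τ, K, hK, h0, h1, by exact_mod_cast hcd⟩

theorem global_flow {V : E → E} (hV : ContDiff ℝ ∞ V) (Bd : ℝ → ℝ → ℝ)
    (hmono : ∀ R R' T T', 0 ≤ R → R ≤ R' → 0 ≤ T → T ≤ T' → Bd R T ≤ Bd R' T')
    (hBd : ∀ (χ : E → ℝ), (∀ p, 0 ≤ χ p ∧ χ p ≤ 1) → ∀ γ : ℝ → E,
      (∀ τ, HasDerivAt γ (χ (γ τ) • V (γ τ)) τ) → ∀ τ, ‖γ τ‖ ≤ Bd ‖γ 0‖ |τ|) :
    ∃ φ : ℝ → E → E, (∀ p, φ 0 p = p) ∧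
      (∀ p τ, HasDerivAt (fun s => φ s p) (V (φ τ p)) τ) ∧
      ContDiff ℝ 2 (fun z : ℝ × E => φ z.1 z.2) := by
  choose g K hK h0 h1 hC using exists_trunc_flow hV
  have hbnd : ∀ n x τ, ‖g n τ x‖ ≤ Bd ‖x‖ |τ| := by
    intro n x τ
    obtain ⟨χ, hχ1, hχ2, -⟩ := trunc_form V n
    have := hBd χ hχ1 (fun s => g n s x) (fun s => by
      have h := h1 n x s
      rw [hχ2] at h
      exact h) τ
    simpa only [h0] using this
  have agree : ∀ (n m : ℕ) (x : E) (τ : ℝ), Bd ‖x‖ |τ| ≤ (n : ℝ) + 1 → Bd ‖x‖ |τ| ≤ (m : ℝ) + 1 →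
      g n τ x = g m τ x := by
    intro n m x τ hn hm
    rcases eq_or_ne τ 0 with rfl | hτ
    · rw [h0, h0]
    have hT : 0 < |τ| := abs_pos.2 hτ
    have hin : ∀ t ∈ Ioo (-|τ|) |τ|, |t| ≤ |τ| := fun t ht => abs_le.2 ⟨ht.1.le, ht.2.le⟩
    have key := ODE_solution_unique_of_mem_Icc (v := fun _ => trunc V n) (s := fun _ => univ)
      (K := K n) (a := -|τ|) (b := |τ|) (t₀ := 0) (f := fun s => g n s x) (g := fun s => g m s x)
      (fun t _ => (hK n).lipschitzOnWith) ⟨by linarith, hT⟩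
      (fun t _ => (h1 n x t).continuousAt.continuousWithinAt)
      (fun t _ => h1 n x t) (fun t _ => mem_univ _)
      (fun t _ => (h1 m x t).continuousAt.continuousWithinAt)
      (fun t ht => by
        have h2 := h1 m x t
        have h3 : Bd ‖x‖ |t| ≤ Bd ‖x‖ |τ| :=
          hmono _ _ _ _ (norm_nonneg _) le_rfl (abs_nonneg _) (hin t ht)
        have h4 := (hbnd m x t).trans h3
        have h5 : trunc V m (g m t x) = trunc V n (g m t x) := by
          rw [trunc_eq V m _ (h4.trans hm), trunc_eq V n _ (h4.trans hn)]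
        rw [h5] at h2
        exact h2) (fun t _ => mem_univ _) (by simp only [h0])
    have hmem : τ ∈ Icc (-|τ|) |τ| := ⟨neg_abs_le τ, le_abs_self τ⟩
    exact key hmem
  set Φ : ℝ → E → E := fun τ x => g ⌈Bd ‖x‖ |τ|⌉₊ τ x with hΦ
  have hΦeq : ∀ (n : ℕ) (x : E) (τ : ℝ), Bd ‖x‖ |τ| ≤ (n : ℝ) + 1 → Φ τ x = g n τ x := by
    intro n x τ h
    refine agree _ _ x τ ?_ h
    have := Nat.le_ceil (Bd ‖x‖ |τ|)
    linarith
  have hloc : ∀ R T, ∃ N : ℕ, ∀ x τ, ‖x‖ ≤ R → |τ| ≤ T → Bd ‖x‖ |τ| ≤ (N : ℝ) + 1 ∧ Φ τ x = g N τ x := by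
    intro R T
    refine ⟨⌈Bd R T⌉₊, fun x τ hx hτ => ?_⟩
    have h2 : Bd ‖x‖ |τ| ≤ (⌈Bd R T⌉₊ : ℝ) + 1 := by
      have := Nat.le_ceil (Bd R T)
      have := hmono _ _ _ _ (norm_nonneg x) hx (abs_nonneg τ) hτ
      linarith
    exact ⟨h2, hΦeq _ _ _ h2⟩
  refine ⟨Φ, ?_, ?_, ?_⟩
  · intro p
    rw [hΦ]
    exact h0 _ _
  · intro p τ
    obtain ⟨N, hN⟩ := hloc ‖p‖ (|τ| + 1)
    have hev : (fun s => Φ s p) =ᶠ[𝓝 τ] (fun s => g N s p) := by
      have : {s : ℝ | |s| < |τ| + 1} ∈ 𝓝 τ :=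
        (isOpen_lt continuous_abs continuous_const).mem_nhds (by simp)
      filter_upwards [this] with s hs
      exact (hN p s le_rfl (le_of_lt hs)).2
    have h2 := (hN p τ le_rfl (by linarith))
    have h3 : trunc V N (g N τ p) = V (Φ τ p) := by
      rw [h2.2]
      exact trunc_eq V N _ ((hbnd N p τ).trans h2.1)
    have h4 := h1 N p τ
    rw [h3] at h4
    exact h4.congr_of_eventuallyEq hev
  · rw [contDiff_iff_contDiffAt]
    rintro ⟨τ, p⟩
    obtain ⟨N, hN⟩ := hloc (‖p‖ + 1) (|τ| + 1)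
    have hev : (fun z : ℝ × E => Φ z.1 z.2) =ᶠ[𝓝 (τ, p)] (fun z : ℝ × E => g N z.1 z.2) := by
      have e1 : {z : ℝ × E | |z.1| < |τ| + 1} ∈ 𝓝 (τ, p) :=
        (isOpen_lt (continuous_abs.comp continuous_fst) continuous_const).mem_nhds (by simp)
      have e2 : {z : ℝ × E | ‖z.2‖ < ‖p‖ + 1} ∈ 𝓝 (τ, p) :=
        (isOpen_lt (continuous_norm.comp continuous_snd) continuous_const).mem_nhds (by simp)
      filter_upwards [e1, e2] with z hz1 hz2
      exact (hN z.2 z.1 (le_of_lt hz2) (le_of_lt hz1)).2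
    exact (hC N).contDiffAt.congr_of_eventuallyEq hev

end

variable {P}

lemma _root_.Pool.Agent.Helper10.Asy.Prof.del_le_one (P : Prof) : 0 ≤ P.del ∧ P.del ≤ 1 := by
  have h0 : 0 ≤ P.del := (P.H_nonneg 0).trans (P.H_le 0)
  have hC : 0 ≤ P.C := by
    have := P.dH_ge 0
    have := P.dH_nonpos 0
    linarith
  have h1 := P.mu_le
  have h2 := P.lam_pos
  have h3 := P.del_le
  have h4 : 0 ≤ P.lam * P.del := by positivity
  have h5 : P.lam * (100 * P.lam) ≤ P.lam * 1 := by nlinarith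
  have h6 : 100 * P.lam ≤ 1 := le_of_mul_le_mul_left h5 h2
  exact ⟨h0, by linarith⟩

lemma _root_.Pool.Agent.Helper10.Asy.Prof.L_abs (P : Prof) (t : ℝ) : |P.L t| ≤ |t| := by
  have h := convex_univ.norm_image_sub_le_of_norm_hasDerivWithin_le (s := (univ : Set ℝ))
    (f := P.L) (f' := P.H) (C := 1) (x := 0) (y := t)
    (fun x _ => (P.dL x).hasDerivWithinAt) (fun x _ => by
      rw [Real.norm_eq_abs, abs_of_nonneg (P.H_nonneg x)]
      exact (P.H_le x).trans P.del_le_one.2) (mem_univ _) (mem_univ _)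
  rw [P.L_zero 0 le_rfl] at h
  simpa using h

lemma _root_.Pool.Agent.Helper10.Asy.Prof.V_contDiff (P : Prof) : ContDiff ℝ ∞ P.V := by
  have hL := P.hL
  have hH := P.hH
  have ha := P.ha
  unfold Prof.V
  fun_prop

theorem exists_flow (P : Prof) : Nonempty (Flow P) := by
  obtain ⟨φ, h0, h1, h2⟩ := global_flow P.V_contDiff
    (fun R T => R + 2 * T + T * Real.exp (2 * (R + T))) (by
      intro R R' T T' hR hRR hT hTT
      have : Real.exp (2 * (R + T)) ≤ Real.exp (2 * (R' + T')) :=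
        Real.exp_le_exp.2 (by linarith)
      have h2 : T * Real.exp (2 * (R + T)) ≤ T' * Real.exp (2 * (R' + T')) :=
        mul_le_mul hTT this (Real.exp_pos _).le (by linarith)
      linarith) (by
      intro χ hχ γ hγ τ
      have hR0 : 0 ≤ ‖γ 0‖ := norm_nonneg _
      have hT0 : 0 ≤ |τ| := abs_nonneg _
      have hsm : ∀ (x c b : ℝ), 0 ≤ c → c ≤ 1 → |x| ≤ b → |c * x| ≤ b := by
        intro x c b hc0 hc1 hx
        rw [abs_mul, abs_of_nonneg hc0]
        nlinarith [abs_nonneg x]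
      -- first coordinate
      have d1 : ∀ σ, HasDerivAt (fun s => (γ s).1) (χ (γ σ) * Real.cos (γ σ).2.2) σ := fun σ =>
        (ContinuousLinearMap.fst ℝ ℝ (ℝ × ℝ)).hasFDerivAt.comp_hasDerivAt σ (hγ σ)
      have d2 : ∀ σ, HasDerivAt (fun s => (γ s).2) (χ (γ σ) • (P.V (γ σ)).2) σ := fun σ =>
        (ContinuousLinearMap.snd ℝ ℝ (ℝ × ℝ)).hasFDerivAt.comp_hasDerivAt σ (hγ σ)
      have d21 : ∀ σ, HasDerivAt (fun s => (γ s).2.1) (χ (γ σ) * (Real.sin (γ σ).2.2 *
          Real.exp (-(P.L (γ σ).1 + P.a (γ σ).2.1 * (γ σ).1)))) σ := fun σ =>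
        (ContinuousLinearMap.fst ℝ ℝ ℝ).hasFDerivAt.comp_hasDerivAt σ (d2 σ)
      have d22 : ∀ σ, HasDerivAt (fun s => (γ s).2.2) (χ (γ σ) * (-((P.H (γ σ).1 + P.a (γ σ).2.1) *
          Real.sin (γ σ).2.2))) σ := fun σ =>
        (ContinuousLinearMap.snd ℝ ℝ ℝ).hasFDerivAt.comp_hasDerivAt σ (d2 σ)
      have b1 : ∀ σ, |(γ σ).1 - (γ 0).1| ≤ |σ| := by
        intro σ
        have h := convex_univ.norm_image_sub_le_of_norm_hasDerivWithin_le (s := (univ : Set ℝ))
          (C := 1) (x := 0) (y := σ)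
          (fun x _ => (d1 x).hasDerivWithinAt) (fun x _ => by
            rw [Real.norm_eq_abs]
            exact hsm _ _ _ (hχ _).1 (hχ _).2 (Real.abs_cos_le_one _)) (mem_univ _) (mem_univ _)
        simpa using h
      have b3 : ∀ σ, |(γ σ).2.2 - (γ 0).2.2| ≤ 2 * |σ| := by
        intro σ
        have h := convex_univ.norm_image_sub_le_of_norm_hasDerivWithin_le (s := (univ : Set ℝ))
          (C := 2) (x := 0) (y := σ)
          (fun x _ => (d22 x).hasDerivWithinAt) (fun x _ => by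
            rw [Real.norm_eq_abs]
            refine hsm _ _ _ (hχ _).1 (hχ _).2 ?_
            rw [abs_neg, abs_mul]
            have e1 := P.H_nonneg (γ x).1
            have e2 := (P.H_le (γ x).1).trans P.del_le_one.2
            have e3 := P.a_nonneg (γ x).2.1
            have e4 := P.a_le (γ x).2.1
            rw [abs_of_nonneg (by linarith)]
            have e5 := Real.abs_sin_le_one (γ x).2.2
            nlinarith [abs_nonneg (Real.sin (γ x).2.2)]) (mem_univ _) (mem_univ _)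
        simpa using h
      have n1 : |(γ 0).1| ≤ ‖γ 0‖ := norm_fst_le (γ 0)
      have n2 : |(γ 0).2.1| ≤ ‖γ 0‖ := (norm_fst_le (γ 0).2).trans (norm_snd_le (γ 0))
      have n3 : |(γ 0).2.2| ≤ ‖γ 0‖ := (norm_snd_le (γ 0).2).trans (norm_snd_le (γ 0))
      have t1 : ∀ σ, |(γ σ).1| ≤ ‖γ 0‖ + |σ| := by
        intro σ
        have e1 := b1 σ
        have e2 := abs_add_le ((γ σ).1 - (γ 0).1) (γ 0).1
        rw [sub_add_cancel] at e2
        linarith
      have b2 : |(γ τ).2.1 - (γ 0).2.1| ≤ Real.exp (2 * (‖γ 0‖ + |τ|)) * |τ| := by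
        have h := (convex_Icc (-|τ|) |τ|).norm_image_sub_le_of_norm_hasDerivWithin_le
          (C := Real.exp (2 * (‖γ 0‖ + |τ|))) (x := 0) (y := τ)
          (fun x _ => (d21 x).hasDerivWithinAt) (fun x hx => by
            rw [Real.norm_eq_abs]
            refine hsm _ _ _ (hχ _).1 (hχ _).2 ?_
            rw [abs_mul, abs_of_pos (Real.exp_pos _)]
            have e5 := Real.abs_sin_le_one (γ x).2.2
            have hx' : |x| ≤ |τ| := abs_le.2 hx
            have e6 : -(P.L (γ x).1 + P.a (γ x).2.1 * (γ x).1) ≤ 2 * (‖γ 0‖ + |τ|) := by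
              have f1 := P.L_abs (γ x).1
              have f2 := t1 x
              have f3 : |P.a (γ x).2.1 * (γ x).1| ≤ |(γ x).1| :=
                hsm _ _ _ (P.a_nonneg _) (P.a_le _) le_rfl
              have f4 := neg_abs_le (P.L (γ x).1)
              have f5 := neg_abs_le (P.a (γ x).2.1 * (γ x).1)
              linarith
            have e7 := Real.exp_le_exp.2 e6
            have e8 := Real.exp_pos (-(P.L (γ x).1 + P.a (γ x).2.1 * (γ x).1))
            nlinarith [abs_nonneg (Real.sin (γ x).2.2)])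
          (by constructor <;> linarith) ⟨neg_abs_le τ, le_abs_self τ⟩
        simpa using h
      have hTe : 0 ≤ |τ| * Real.exp (2 * (‖γ 0‖ + |τ|)) := by positivity
      rw [Prod.norm_def, Prod.norm_def]
      refine max_le ?_ (max_le ?_ ?_)
      · rw [Real.norm_eq_abs]
        have := t1 τ
        linarith
      · rw [Real.norm_eq_abs]
        have e2 := abs_add_le ((γ τ).2.1 - (γ 0).2.1) (γ 0).2.1
        rw [sub_add_cancel] at e2
        have e3 : Real.exp (2 * (‖γ 0‖ + |τ|)) * |τ| = |τ| * Real.exp (2 * (‖γ 0‖ + |τ|)) :=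
          mul_comm _ _
        linarith
      · rw [Real.norm_eq_abs]
        have e2 := abs_add_le ((γ τ).2.2 - (γ 0).2.2) (γ 0).2.2
        rw [sub_add_cancel] at e2
        have := b3 τ
        linarith)
  refine ⟨⟨φ, h0, fun p x => h1 p x, h2, ?_⟩⟩
  intro γ hγ x y
  have hcd : ContDiff ℝ 1 P.V := P.V_contDiff.of_le (by exact_mod_cast le_top)
  have hsh : ∀ u, HasDerivAt (fun u => γ (x + u)) (P.V (γ (x + u))) u := by
    intro u
    exact (hγ (x + u)).comp_const_add x u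
  have := Pool.Agent.Helper981.sol_uniq hcd hsh (h1 (γ x)) (by simp [h0])
  exact congrFun this y


end Pool.Agent.Helper10.Asy.JB
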