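import Mathlib
import Pool.Agent.Helper10.Asy.Base

open scoped ContDiff Topology
open Set Filter

noncomputable section

namespace Pool.Agent.Helper10.Asy.JC

variable (P : Prof)

theorem V_diff' : Differentiable ℝ P.V := by
  have hL : Differentiable ℝ P.L := P.hL.differentiable (by simp)
  have hH : Differentiable ℝ P.H := P.hH.differentiable (by simp)
  have ha : Differentiable ℝ P.a := P.ha.differentiable (by simp)
  have h1 : Differentiable ℝ (fun p : ℝ × ℝ × ℝ => p.1) := differentiable_fst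
  have h2 : Differentiable ℝ (fun p : ℝ × ℝ × ℝ => p.2.1) := differentiable_fst.comp differentiable_snd
  have h3 : Differentiable ℝ (fun p : ℝ × ℝ × ℝ => p.2.2) := differentiable_snd.comp differentiable_snd
  have hL1 : Differentiable ℝ (fun p : ℝ × ℝ × ℝ => P.L p.1) := hL.comp h1
  have hH1 : Differentiable ℝ (fun p : ℝ × ℝ × ℝ => P.H p.1) := hH.comp h1
  have ha1 : Differentiable ℝ (fun p : ℝ × ℝ × ℝ => P.a p.2.1) := ha.comp h2
  unfold Prof.V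
  exact (h3.cos).prodMk (((h3.sin).mul ((hL1.add (ha1.mul h1)).neg.exp)).prodMk
    ((hH1.add ha1).mul h3.sin).neg)

theorem fderiv_V' (p Y : ℝ × ℝ × ℝ) : fderiv ℝ P.V p Y =
    (-Real.sin p.2.2 * Y.2.2,
     Real.cos p.2.2 * Y.2.2 * Real.exp (-(P.L p.1 + P.a p.2.1 * p.1)) +
      Real.sin p.2.2 * (Real.exp (-(P.L p.1 + P.a p.2.1 * p.1)) *
        (-(P.H p.1 * Y.1 + (deriv P.a p.2.1 * Y.2.1 * p.1 + P.a p.2.1 * Y.1)))),
     -((deriv P.H p.1 * Y.1 + deriv P.a p.2.1 * Y.2.1) * Real.sin p.2.2 +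
        (P.H p.1 + P.a p.2.1) * (Real.cos p.2.2 * Y.2.2))) := by
  have hH : Differentiable ℝ P.H := P.hH.differentiable (by simp)
  have ha : Differentiable ℝ P.a := P.ha.differentiable (by simp)
  have hc : HasDerivAt (fun ε : ℝ => p + ε • Y) Y 0 := by
    have := ((hasDerivAt_id (0:ℝ)).smul_const Y).const_add p
    simpa using this
  have e0 : (fun ε : ℝ => p + ε • Y) 0 = p := by simp
  have h1 : HasDerivAt (fun ε : ℝ => P.V (p + ε • Y)) (fderiv ℝ P.V p Y) 0 := by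
    have h := (V_diff' P ((fun ε : ℝ => p + ε • Y) 0)).hasFDerivAt.comp_hasDerivAt (0:ℝ) hc
    rw [e0] at h
    exact h
  have c1 : HasDerivAt (fun ε : ℝ => p.1 + ε * Y.1) Y.1 0 := by
    simpa using ((hasDerivAt_id (0:ℝ)).mul_const Y.1).const_add p.1
  have c2 : HasDerivAt (fun ε : ℝ => p.2.1 + ε * Y.2.1) Y.2.1 0 := by
    simpa using ((hasDerivAt_id (0:ℝ)).mul_const Y.2.1).const_add p.2.1
  have c3 : HasDerivAt (fun ε : ℝ => p.2.2 + ε * Y.2.2) Y.2.2 0 := by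
    simpa using ((hasDerivAt_id (0:ℝ)).mul_const Y.2.2).const_add p.2.2
  have hL' : HasDerivAt (fun ε : ℝ => P.L (p.1 + ε * Y.1)) (P.H p.1 * Y.1) 0 := by
    have h := HasDerivAt.comp (0:ℝ) (h₂ := P.L) (h := fun ε : ℝ => p.1 + ε * Y.1) (P.dL (p.1 + 0 * Y.1)) c1
    simp only [zero_mul, add_zero] at h
    exact h
  have hH' : HasDerivAt (fun ε : ℝ => P.H (p.1 + ε * Y.1)) (deriv P.H p.1 * Y.1) 0 := by
    have h := HasDerivAt.comp (0:ℝ) (h₂ := P.H) (h := fun ε : ℝ => p.1 + ε * Y.1) (hH (p.1 + 0 * Y.1)).hasDerivAt c1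
    simp only [zero_mul, add_zero] at h
    exact h
  have ha' : HasDerivAt (fun ε : ℝ => P.a (p.2.1 + ε * Y.2.1)) (deriv P.a p.2.1 * Y.2.1) 0 := by
    have h := HasDerivAt.comp (0:ℝ) (h₂ := P.a) (h := fun ε : ℝ => p.2.1 + ε * Y.2.1) (ha (p.2.1 + 0 * Y.2.1)).hasDerivAt c2
    simp only [zero_mul, add_zero] at h
    exact h
  have h2 := (c3.cos).prodMk (((c3.sin).mul ((hL'.add (ha'.mul c1)).neg.exp)).prodMk
    ((hH'.add ha').mul c3.sin).neg)
  have h3 : HasDerivAt (fun ε : ℝ => P.V (p + ε • Y)) _ 0 := h2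
  rw [h1.unique h3]
  simp

theorem variation_lin (Fl : Flow P) (p v : ℝ × ℝ × ℝ) (x : ℝ) :
    HasDerivAt (fun x => fderiv ℝ (Fl.φ x) p v)
      (fderiv ℝ P.V (Fl.φ x p) (fderiv ℝ (Fl.φ x) p v)) x := by
  set G : ℝ × (ℝ × ℝ × ℝ) → ℝ × ℝ × ℝ := fun z => Fl.φ z.1 z.2 with hGdef
  have hG : ContDiff ℝ 2 G := Fl.smooth
  have hGd : Differentiable ℝ G := hG.differentiable (by simp)
  have hG1 : ContDiff ℝ 1 (fderiv ℝ G) := hG.fderiv_right (by norm_num)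
  have hG1d : Differentiable ℝ (fderiv ℝ G) := hG1.differentiable (by simp)
  have hpart : ∀ y : ℝ, ∀ q w : ℝ × ℝ × ℝ,
      fderiv ℝ (Fl.φ y) q w = fderiv ℝ G (y, q) (0, w) := by
    intro y q w
    have h1 : HasFDerivAt (fun q : ℝ × ℝ × ℝ => (y, q))
        (ContinuousLinearMap.inr ℝ ℝ (ℝ × ℝ × ℝ)) q := hasFDerivAt_prodMk_right y q
    have h2 : HasFDerivAt (Fl.φ y) ((fderiv ℝ G (y, q)).comp
        (ContinuousLinearMap.inr ℝ ℝ (ℝ × ℝ × ℝ))) q := (hGd (y, q)).hasFDerivAt.comp q h1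
    rw [h2.fderiv]
    simp
  have htime : ∀ z : ℝ × (ℝ × ℝ × ℝ), fderiv ℝ G z (1, 0) = P.V (G z) := by
    rintro ⟨y, q⟩
    have h1 : HasDerivAt (fun y : ℝ => (y, q)) ((1 : ℝ), (0 : ℝ × ℝ × ℝ)) y :=
      (hasDerivAt_id y).prodMk (hasDerivAt_const y q)
    have h2 : HasDerivAt (G ∘ (fun y : ℝ => (y, q))) (fderiv ℝ G (y, q) (1, 0)) y :=
      HasFDerivAt.comp_hasDerivAt y (hGd (y, q)).hasFDerivAt h1
    exact h2.unique (Fl.deriv q y)
  have hsymm : IsSymmSndFDerivAt ℝ G (x, p) :=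
    (hG.contDiffAt).isSymmSndFDerivAt (by simp)
  have h1 : HasDerivAt (fun y : ℝ => (y, p)) ((1 : ℝ), (0 : ℝ × ℝ × ℝ)) x :=
    (hasDerivAt_id x).prodMk (hasDerivAt_const x p)
  have h2 : HasDerivAt (fun y : ℝ => fderiv ℝ G (y, p))
      (fderiv ℝ (fderiv ℝ G) (x, p) (1, 0)) x :=
    (hG1d (x, p)).hasFDerivAt.comp_hasDerivAt x h1
  have h3 : HasDerivAt (fun y : ℝ => fderiv ℝ G (y, p) (0, v))
      (fderiv ℝ (fderiv ℝ G) (x, p) (1, 0) (0, v)) x := by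
    have := h2.clm_apply (hasDerivAt_const x ((0 : ℝ), v))
    simpa using this
  have h4 : fderiv ℝ (fderiv ℝ G) (x, p) (1, 0) (0, v) =
      fderiv ℝ P.V (Fl.φ x p) (fderiv ℝ (Fl.φ x) p v) := by
    rw [hsymm.eq]
    have h5 : HasFDerivAt (fun z => fderiv ℝ G z ((1 : ℝ), (0 : ℝ × ℝ × ℝ)))
        ((fderiv ℝ (fderiv ℝ G) (x, p)).flip (1, 0)) (x, p) := by
      have := (hG1d (x, p)).hasFDerivAt.clm_apply
        (hasFDerivAt_const ((1 : ℝ), (0 : ℝ × ℝ × ℝ)) (x, p))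
      simpa using this
    have h6 : HasFDerivAt (fun z => P.V (G z))
        ((fderiv ℝ P.V (G (x, p))).comp (fderiv ℝ G (x, p))) (x, p) :=
      (V_diff' P (G (x, p))).hasFDerivAt.comp (x, p) (hGd (x, p)).hasFDerivAt
    have h7 : (fun z => fderiv ℝ G z ((1 : ℝ), (0 : ℝ × ℝ × ℝ))) = fun z => P.V (G z) :=
      funext htime
    rw [h7] at h5
    have h8 := h5.unique h6
    have h9 := congrArg (fun A : (ℝ × (ℝ × ℝ × ℝ)) →L[ℝ] (ℝ × ℝ × ℝ) => A (0, v)) h8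
    simp only [ContinuousLinearMap.flip_apply, ContinuousLinearMap.comp_apply] at h9
    rw [h9, hpart]
  rw [← h4]
  have h10 : (fun y => fderiv ℝ (Fl.φ y) p v) = fun y : ℝ => fderiv ℝ G (y, p) (0, v) := by
    funext y; exact hpart y p v
  rw [h10]
  exact h3

theorem variation_frame (γ Y : ℝ → ℝ × ℝ × ℝ) (hγ : P.IsGeod γ)
    (hY : ∀ x, HasDerivAt Y (fderiv ℝ P.V (γ x) (Y x)) x) (x : ℝ) :
    HasDerivAt (fun x => (Y x).1 * Real.cos (γ x).2.2 +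
      P.f (pos (γ x)) * (Y x).2.1 * Real.sin (γ x).2.2) 0 x ∧
    HasDerivAt (fun x => (Y x).1 * Real.sin (γ x).2.2 -
      P.f (pos (γ x)) * (Y x).2.1 * Real.cos (γ x).2.2)
      (-(Y x).2.2 - P.h (pos (γ x)) * P.f (pos (γ x)) * (Y x).2.1) x ∧
    HasDerivAt (fun x => -(Y x).2.2 - P.h (pos (γ x)) * P.f (pos (γ x)) * (Y x).2.1)
      (P.k (pos (γ x)) * ((Y x).1 * Real.sin (γ x).2.2 -
        P.f (pos (γ x)) * (Y x).2.1 * Real.cos (γ x).2.2)) x := by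
  have hH : Differentiable ℝ P.H := P.hH.differentiable (by simp)
  have ha : Differentiable ℝ P.a := P.ha.differentiable (by simp)
  have g := hγ x
  have g1 : HasDerivAt (fun x => (γ x).1) (Real.cos (γ x).2.2) x := g.fst
  have g2 : HasDerivAt (fun x => (γ x).2.1)
      (Real.sin (γ x).2.2 * Real.exp (-(P.L (γ x).1 + P.a (γ x).2.1 * (γ x).1))) x := g.snd.fst
  have g3 : HasDerivAt (fun x => (γ x).2.2)
      (-((P.H (γ x).1 + P.a (γ x).2.1) * Real.sin (γ x).2.2)) x := g.snd.snd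
  have y := hY x
  rw [fderiv_V'] at y
  have y1 : HasDerivAt (fun x => (Y x).1) (-Real.sin (γ x).2.2 * (Y x).2.2) x := y.fst
  have y2 : HasDerivAt (fun x => (Y x).2.1)
      (Real.cos (γ x).2.2 * (Y x).2.2 * Real.exp (-(P.L (γ x).1 + P.a (γ x).2.1 * (γ x).1)) +
      Real.sin (γ x).2.2 * (Real.exp (-(P.L (γ x).1 + P.a (γ x).2.1 * (γ x).1)) *
        (-(P.H (γ x).1 * (Y x).1 + (deriv P.a (γ x).2.1 * (Y x).2.1 * (γ x).1 +
          P.a (γ x).2.1 * (Y x).1))))) x := y.snd.fst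
  have y3 : HasDerivAt (fun x => (Y x).2.2)
      (-((deriv P.H (γ x).1 * (Y x).1 + deriv P.a (γ x).2.1 * (Y x).2.1) * Real.sin (γ x).2.2 +
        (P.H (γ x).1 + P.a (γ x).2.1) * (Real.cos (γ x).2.2 * (Y x).2.2))) x := y.snd.snd
  have hfE : Real.exp (P.L (γ x).1 + P.a (γ x).2.1 * (γ x).1) *
      Real.exp (-(P.L (γ x).1 + P.a (γ x).2.1 * (γ x).1)) = 1 := by
    rw [← Real.exp_add]; simp
  have hsc : Real.sin (γ x).2.2 ^ 2 + Real.cos (γ x).2.2 ^ 2 = 1 := Real.sin_sq_add_cos_sq _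
  have hL' : HasDerivAt (fun x => P.L (γ x).1) (P.H (γ x).1 * Real.cos (γ x).2.2) x :=
    (P.dL (γ x).1).comp x g1
  have hH' : HasDerivAt (fun x => P.H (γ x).1) (deriv P.H (γ x).1 * Real.cos (γ x).2.2) x :=
    (hH (γ x).1).hasDerivAt.comp x g1
  have ha' : HasDerivAt (fun x => P.a (γ x).2.1) (deriv P.a (γ x).2.1 *
      (Real.sin (γ x).2.2 * Real.exp (-(P.L (γ x).1 + P.a (γ x).2.1 * (γ x).1)))) x :=
    (ha (γ x).2.1).hasDerivAt.comp x g2
  have hf' : HasDerivAt (fun x => Real.exp (P.L (γ x).1 + P.a (γ x).2.1 * (γ x).1)) _ x :=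
    (hL'.add (ha'.mul g1)).exp
  simp only [Prof.f, Prof.h, Prof.k, pos]
  set e := Real.exp (P.L (γ x).1 + P.a (γ x).2.1 * (γ x).1) with he
  set E := Real.exp (-(P.L (γ x).1 + P.a (γ x).2.1 * (γ x).1)) with hE
  set S := Real.sin (γ x).2.2 with hS
  set Cc := Real.cos (γ x).2.2 with hCc
  refine ⟨?_, ?_, ?_⟩
  · have h := (y1.mul g3.cos).add ((hf'.mul y2).mul g3.sin)
    refine h.congr_deriv ?_
    simp only [Pi.mul_apply, Pi.add_apply]
    linear_combination (Cc * S * (Y x).2.2 - S ^ 2 * (P.H (γ x).1 + P.a (γ x).2.1) * (Y x).1) * hfE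
  · have h := (y1.mul g3.sin).sub ((hf'.mul y2).mul g3.cos)
    refine h.congr_deriv ?_
    simp only [Pi.mul_apply, Pi.add_apply]
    linear_combination (-Cc ^ 2 * (Y x).2.2 + S * Cc * (P.H (γ x).1 + P.a (γ x).2.1) * (Y x).1) * hfE
      + (-(Y x).2.2 - e * (P.H (γ x).1 + P.a (γ x).2.1) * (Y x).2.1) * hsc
  · have h := y3.neg.sub (((hH'.add ha').mul hf').mul y2)
    refine h.congr_deriv ?_
    simp only [Pi.mul_apply, Pi.add_apply]
    linear_combination (-(deriv P.a (γ x).2.1) * S * (Y x).2.1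
      - (P.H (γ x).1 + P.a (γ x).2.1) * Cc * (Y x).2.2
      + (P.H (γ x).1 + P.a (γ x).2.1) ^ 2 * S * (Y x).1) * hfE


end Pool.Agent.Helper10.Asy.JC
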