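import Mathlib
import Pool.Agent.Helper10.Asy.Base

open scoped ContDiff Topology
open Set Filter

noncomputable section

namespace Pool.Agent.Helper10.Asy.JD

variable (P : Prof)

/-- Sturm comparison with a Riccati subsolution `w`. -/
theorem sturm {J I w w' k : ℝ → ℝ} {a b : ℝ} (hab : a ≤ b)
    (hJ : ∀ x ∈ Icc a b, HasDerivAt J (I x) x) (hI : ∀ x ∈ Icc a b, HasDerivAt I (k x * J x) x)
    (hw : ∀ x ∈ Icc a b, HasDerivAt w (w' x) x)
    (hk : ∀ x ∈ Icc a b, w' x + w x ^ 2 ≤ k x) (h0 : 0 < J a) (h1 : w a * J a ≤ I a) :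
    ∀ x ∈ Icc a b, 0 < J x ∧ w x * J x ≤ I x := by
  have hwc : ContinuousOn w (Icc a b) := fun x hx => (hw x hx).continuousAt.continuousWithinAt
  set wt : ℝ → ℝ := IccExtend hab ((Icc a b).domRestrict w) with hwt
  have hwtc : Continuous wt := continuous_IccExtend_iff.mpr (continuousOn_iff_continuous_domRestrict.mp hwc)
  have hwte : ∀ x ∈ Icc a b, wt x = w x := fun x hx => by
    rw [hwt, IccExtend_of_mem hab _ hx]
    rfl
  set E : ℝ → ℝ := fun x => Real.exp (∫ y in a..x, wt y) with hE
  have hEpos : ∀ x, 0 < E x := fun x => Real.exp_pos _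
  have hEd : ∀ x ∈ Icc a b, HasDerivAt E (E x * w x) x := by
    intro x hx
    have h1 : HasDerivAt (fun x => ∫ y in a..x, wt y) (wt x) x :=
      intervalIntegral.integral_hasDerivAt_right (hwtc.intervalIntegrable _ _)
        (hwtc.stronglyMeasurableAtFilter _ _) hwtc.continuousAt
    have h2 := h1.exp
    rw [hwte x hx] at h2
    exact h2
  -- monotonicity facts
  have hu : ∀ x ∈ Icc a b, HasDerivAt (fun x => (I x - w x * J x) * E x)
      (E x * ((k x - w' x - w x ^ 2) * J x)) x := by
    intro x hx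
    have h := ((hI x hx).sub ((hw x hx).mul (hJ x hx))).mul (hEd x hx)
    refine h.congr_deriv ?_
    simp only [Pi.sub_apply, Pi.mul_apply]
    ring
  have hv : ∀ x ∈ Icc a b, HasDerivAt (fun x => J x * (E x)⁻¹)
      ((I x - w x * J x) * (E x)⁻¹) x := by
    intro x hx
    have h := (hJ x hx).mul ((hEd x hx).inv (hEpos x).ne')
    refine h.congr_deriv ?_
    have := (hEpos x).ne'
    simp only [Pi.inv_apply]
    field_simp
    ring
  have main : ∀ c ∈ Icc a b, (∀ x ∈ Icc a c, 0 ≤ J x) → ∀ x ∈ Icc a c, 0 ≤ I x - w x * J x := by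
    intro c hc hJc x hx
    have hsub : Icc a c ⊆ Icc a b := Icc_subset_Icc le_rfl hc.2
    have hmono : MonotoneOn (fun x => (I x - w x * J x) * E x) (Icc a c) := by
      refine monotoneOn_of_deriv_nonneg (convex_Icc a c) ?_ ?_ ?_
      · exact fun y hy => (hu y (hsub hy)).continuousAt.continuousWithinAt
      · intro y hy
        exact (hu y (hsub (interior_subset hy))).differentiableAt.differentiableWithinAt
      · intro y hy
        have hy' := interior_subset hy
        rw [(hu y (hsub hy')).deriv]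
        refine mul_nonneg (hEpos y).le (mul_nonneg ?_ (hJc y hy'))
        have := hk y (hsub hy')
        linarith
    have h2 := hmono (left_mem_Icc.mpr (hx.1.trans hx.2)) hx hx.1
    have h3 : 0 ≤ (I a - w a * J a) * E a := mul_nonneg (by linarith) (hEpos a).le
    have h4 : 0 ≤ (I x - w x * J x) * E x := h3.trans h2
    exact nonneg_of_mul_nonneg_left h4 (hEpos x)
  have hJpos : ∀ x ∈ Icc a b, 0 < J x := by
    by_contra hcon
    push Not at hcon
    obtain ⟨x₀, hx₀, hJx₀⟩ := hcon
    have hJc : ContinuousOn J (Icc a b) := fun x hx => (hJ x hx).continuousAt.continuousWithinAt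
    set S : Set ℝ := {x ∈ Icc a b | J x ≤ 0} with hS
    have hSc : IsClosed S := by
      have : S = Icc a b ∩ J ⁻¹' Iic 0 := by
        ext x
        simp [hS]
      rw [this]
      exact hJc.preimage_isClosed_of_isClosed isClosed_Icc isClosed_Iic
    have hSne : S.Nonempty := ⟨x₀, hx₀, hJx₀⟩
    have hSb : BddBelow S := ⟨a, fun x hx => hx.1.1⟩
    have hcS : sInf S ∈ S := hSc.csInf_mem hSne hSb
    set c := sInf S with hcdef
    have hJlt : ∀ x ∈ Icc a b, x < c → 0 < J x := by
      intro x hx hxc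
      by_contra hneg
      push Not at hneg
      exact absurd (csInf_le hSb ⟨hx, hneg⟩) (not_le.mpr hxc)
    have hac : a < c := by
      rcases hcS.1.1.eq_or_lt with h | h
      · exfalso
        have := hcS.2
        rw [← h] at this
        linarith
      · exact h
    have hJc0 : 0 ≤ J c := by
      have hcont : ContinuousWithinAt J (Icc a b) c := hJc c hcS.1
      have h5 : Tendsto J (𝓝[<] c) (𝓝 (J c)) := (hJ c hcS.1).continuousAt.continuousWithinAt
      refine ge_of_tendsto h5 ?_
      filter_upwards [Ioo_mem_nhdsLT hac] with y hy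
      exact (hJlt y ⟨hy.1.le, hy.2.le.trans hcS.1.2⟩ hy.2).le
    have hJnn : ∀ x ∈ Icc a c, 0 ≤ J x := by
      intro x hx
      rcases hx.2.eq_or_lt with h | h
      · rw [h]; exact hJc0
      · exact (hJlt x ⟨hx.1, hx.2.trans hcS.1.2⟩ h).le
    have hD := main c hcS.1 hJnn
    have hsub : Icc a c ⊆ Icc a b := Icc_subset_Icc le_rfl hcS.1.2
    have hmono : MonotoneOn (fun x => J x * (E x)⁻¹) (Icc a c) := by
      refine monotoneOn_of_deriv_nonneg (convex_Icc a c) ?_ ?_ ?_
      · exact fun y hy => (hv y (hsub hy)).continuousAt.continuousWithinAt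
      · intro y hy
        exact (hv y (hsub (interior_subset hy))).differentiableAt.differentiableWithinAt
      · intro y hy
        have hy' := interior_subset hy
        rw [(hv y (hsub hy')).deriv]
        exact mul_nonneg (hD y hy') (inv_nonneg.mpr (hEpos y).le)
    have h6 := hmono (left_mem_Icc.mpr hac.le) (right_mem_Icc.mpr hac.le) hac.le
    have h7 : 0 < J a * (E a)⁻¹ := mul_pos h0 (inv_pos.mpr (hEpos a))
    have h8 : 0 < J c * (E c)⁻¹ := h7.trans_le h6
    have h9 : J c * (E c)⁻¹ ≤ 0 := mul_nonpos_of_nonpos_of_nonneg hcS.2 (inv_nonneg.mpr (hEpos c).le)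
    linarith
  intro x hx
  refine ⟨hJpos x hx, ?_⟩
  have := main b (right_mem_Icc.mpr hab) (fun y hy => (hJpos y hy).le) x hx
  linarith

section comps
variable {P}

theorem comps {γ : ℝ → ℝ × ℝ × ℝ} (hγ : P.IsGeod γ) (x : ℝ) :
    HasDerivAt (fun x => (γ x).1) (Real.cos (γ x).2.2) x ∧
    HasDerivAt (fun x => (γ x).2.1)
      (Real.sin (γ x).2.2 * Real.exp (-(P.L (γ x).1 + P.a (γ x).2.1 * (γ x).1))) x ∧
    HasDerivAt (fun x => (γ x).2.2)
      (-((P.H (γ x).1 + P.a (γ x).2.1) * Real.sin (γ x).2.2)) x := by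
  have h := hγ x
  refine ⟨?_, ?_, ?_⟩
  · exact (hasFDerivAt_fst (𝕜 := ℝ) (p := γ x)).comp_hasDerivAt x h
  · have h2 : HasDerivAt (fun x => (γ x).2) (P.V (γ x)).2 x :=
      (hasFDerivAt_snd (𝕜 := ℝ) (p := γ x)).comp_hasDerivAt x h
    exact (hasFDerivAt_fst (𝕜 := ℝ) (p := (γ x).2)).comp_hasDerivAt x h2
  · have h2 : HasDerivAt (fun x => (γ x).2) (P.V (γ x)).2 x :=
      (hasFDerivAt_snd (𝕜 := ℝ) (p := γ x)).comp_hasDerivAt x h
    exact (hasFDerivAt_snd (𝕜 := ℝ) (p := (γ x).2)).comp_hasDerivAt x h2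

theorem cos_deriv {γ : ℝ → ℝ × ℝ × ℝ} (hγ : P.IsGeod γ) (x : ℝ) :
    HasDerivAt (fun x => Real.cos (γ x).2.2)
      ((P.H (γ x).1 + P.a (γ x).2.1) * Real.sin (γ x).2.2 ^ 2) x := by
  have h := (comps hγ x).2.2.cos
  refine h.congr_deriv ?_
  ring

theorem cos_mono {γ : ℝ → ℝ × ℝ × ℝ} (hγ : P.IsGeod γ) :
    Monotone (fun x => Real.cos (γ x).2.2) := by
  refine monotone_of_deriv_nonneg (fun x => (cos_deriv hγ x).differentiableAt) fun x => ?_
  rw [(cos_deriv hγ x).deriv]
  have h1 := P.H_nonneg (γ x).1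
  have h2 := P.a_nonneg (γ x).2.1
  positivity

theorem L_nonpos (P : Prof) (t : ℝ) : P.L t ≤ 0 := by
  have hm : Monotone P.L := by
    refine monotone_of_deriv_nonneg (fun x => (P.dL x).differentiableAt) fun x => ?_
    rw [(P.dL x).deriv]
    exact P.H_nonneg x
  have h1 := hm (le_max_left t 0)
  rw [P.L_zero _ (le_max_right t 0)] at h1
  exact h1

end comps

/-- a geodesic that is horizontal at time `0` at a point with `t < 0` has turned up by an angle
`π/6` before time `20`. -/
theorem turn_up (γ : ℝ → ℝ × ℝ × ℝ) (hγ : P.IsGeod γ) (hc : Real.cos (γ 0).2.2 = 0)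
    (hs : Real.sin (γ 0).2.2 = 1) (ht : (γ 0).1 ≤ 0) :
    ∃ x₁ ∈ Icc (0:ℝ) 20, Real.cos (γ x₁).2.2 = 1 / 2 := by
  by_contra hcon
  push Not at hcon
  set T : ℝ → ℝ := fun x => (γ x).1 with hT
  set S : ℝ → ℝ := fun x => (γ x).2.1 with hS
  set θ : ℝ → ℝ := fun x => (γ x).2.2 with hθ
  have dT : ∀ x, HasDerivAt T (Real.cos (θ x)) x := fun x => (comps hγ x).1
  have dS : ∀ x, HasDerivAt S (Real.sin (θ x) * Real.exp (-(P.L (T x) + P.a (S x) * T x))) x :=
    fun x => (comps hγ x).2.1
  have dθ : ∀ x, HasDerivAt θ (-((P.H (T x) + P.a (S x)) * Real.sin (θ x))) x :=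
    fun x => (comps hγ x).2.2
  have dC : ∀ x, HasDerivAt (fun x => Real.cos (θ x))
      ((P.H (T x) + P.a (S x)) * Real.sin (θ x) ^ 2) x := fun x => cos_deriv hγ x
  have hmonoC : Monotone (fun x => Real.cos (θ x)) := cos_mono hγ
  have hCc : Continuous (fun x => Real.cos (θ x)) :=
    continuous_iff_continuousAt.mpr fun x => (dC x).continuousAt
  have hθc : Continuous θ := continuous_iff_continuousAt.mpr fun x => (dθ x).continuousAt
  have hc0 : Real.cos (θ 0) = 0 := hc
  have hs1 : Real.sin (θ 0) = 1 := hs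
  have hclt : ∀ x ∈ Icc (0:ℝ) 20, Real.cos (θ x) < 1 / 2 := by
    intro x hx
    by_contra hge
    push Not at hge
    have h1 := intermediate_value_Icc hx.1 hCc.continuousOn
    have h2 : (1 / 2 : ℝ) ∈ Icc (Real.cos (θ 0)) (Real.cos (θ x)) := ⟨by rw [hc0]; norm_num, hge⟩
    obtain ⟨y, hy, hy2⟩ := h1 h2
    exact hcon y ⟨hy.1, hy.2.trans hx.2⟩ hy2
  have hcnn : ∀ x, 0 ≤ x → 0 ≤ Real.cos (θ x) := by
    intro x hx
    have := hmonoC hx
    simp only [] at this
    rw [hc0] at this
    exact this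
  have hsin2 : ∀ x ∈ Icc (0:ℝ) 20, 3 / 4 ≤ Real.sin (θ x) ^ 2 := by
    intro x hx
    have h1 := Real.sin_sq_add_cos_sq (θ x)
    have h2 := hclt x hx
    have h3 := hcnn x hx.1
    nlinarith
  have hsinpos : ∀ x ∈ Icc (0:ℝ) 20, 0 < Real.sin (θ x) := by
    intro x hx
    by_contra hle
    push Not at hle
    have h1 := intermediate_value_Icc' hx.1 (Real.continuous_sin.comp hθc).continuousOn
    have h2 : (0 : ℝ) ∈ Icc ((Real.sin ∘ θ) x) ((Real.sin ∘ θ) 0) := by
      refine ⟨hle, ?_⟩
      show 0 ≤ Real.sin (θ 0)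
      rw [hs1]; norm_num
    obtain ⟨y, hy, hy2⟩ := h1 h2
    have h3 := hsin2 y ⟨hy.1, hy.2.trans hx.2⟩
    have h4 : Real.sin (θ y) = 0 := hy2
    rw [h4] at h3
    norm_num at h3
  have hsinge : ∀ x ∈ Icc (0:ℝ) 20, (0.866 : ℝ) ≤ Real.sin (θ x) := by
    intro x hx
    have h1 := hsin2 x hx
    have h2 := hsinpos x hx
    nlinarith
  have hTle : ∀ x ∈ Icc (0:ℝ) 20, T x ≤ 10 := by
    intro x hx
    have h1 : AntitoneOn (fun x => T x - (1 / 2) * x) (Icc (0:ℝ) 20) := by
      refine antitoneOn_of_deriv_nonpos (convex_Icc _ _) ?_ ?_ ?_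
      · intro y _
        exact ((dT y).sub ((hasDerivAt_id y).const_mul (1 / 2 : ℝ))).continuousAt.continuousWithinAt
      · intro y _
        exact ((dT y).sub ((hasDerivAt_id y).const_mul (1 / 2 : ℝ))).differentiableAt.differentiableWithinAt
      · intro y hy
        have h2 := ((dT y).sub ((hasDerivAt_id y).const_mul (1 / 2 : ℝ))).deriv
        have h3 : deriv (fun x => T x - (1 / 2) * x) y = Real.cos (θ y) - 1 / 2 * 1 := h2
        rw [h3]
        have := hclt y (interior_subset hy)
        linarith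
    have h2 := h1 (left_mem_Icc.mpr (by norm_num)) hx hx.1
    simp only [] at h2
    have h3 : T 0 ≤ 0 := ht
    have := hx.2
    linarith
  -- the function R
  have hac : Continuous P.a := P.ha.continuous
  set R : ℝ → ℝ := fun s => ∫ y in (0:ℝ)..s, (1 - P.a y) with hR
  have h1ac : Continuous fun y => 1 - P.a y := continuous_const.sub hac
  have dR : ∀ s, HasDerivAt R (1 - P.a s) s := fun s =>
    intervalIntegral.integral_hasDerivAt_right (h1ac.intervalIntegrable _ _)
      (h1ac.stronglyMeasurableAtFilter _ _) h1ac.continuousAt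
  have hRle : ∀ s₁ s₂, s₁ ≤ s₂ → R s₂ - R s₁ ≤ 3 := by
    intro s₁ s₂ h12
    have e1 : R s₂ - R s₁ = ∫ y in s₁..s₂, (1 - P.a y) :=
      intervalIntegral.integral_interval_sub_left (h1ac.intervalIntegrable _ _)
        (h1ac.intervalIntegrable _ _)
    rw [e1, intervalIntegral.integral_of_le h12]
    have hind : ∀ y, 1 - P.a y ≤ (Icc (-1:ℝ) 2).indicator (fun _ => (1:ℝ)) y := by
      intro y
      by_cases hy : y ∈ Icc (-1:ℝ) 2
      · rw [indicator_of_mem hy]
        have := P.a_nonneg y
        linarith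
      · rw [indicator_of_notMem hy, P.a_one y hy]
        norm_num
    have hint1 : MeasureTheory.IntegrableOn (fun y => 1 - P.a y) (Ioc s₁ s₂) :=
      (h1ac.integrableOn_Icc (a := s₁) (b := s₂)).mono_set Ioc_subset_Icc_self
    have hint2 : MeasureTheory.Integrable ((Icc (-1:ℝ) 2).indicator (fun _ => (1:ℝ))) := by
      rw [MeasureTheory.integrable_indicator_iff measurableSet_Icc]
      exact MeasureTheory.integrableOn_const (by simp)
    calc ∫ y in Ioc s₁ s₂, (1 - P.a y)
        ≤ ∫ y in Ioc s₁ s₂, (Icc (-1:ℝ) 2).indicator (fun _ => (1:ℝ)) y :=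
          MeasureTheory.integral_mono hint1 hint2.integrableOn hind
      _ ≤ ∫ y, (Icc (-1:ℝ) 2).indicator (fun _ => (1:ℝ)) y := by
          refine MeasureTheory.setIntegral_le_integral hint2 (Eventually.of_forall fun y => ?_)
          exact indicator_nonneg (fun _ _ => zero_le_one) y
      _ = 3 := by
          rw [MeasureTheory.integral_indicator measurableSet_Icc]
          simp
          norm_num
  set Z : ℝ → ℝ := fun x => (40 / 3) * Real.cos (θ x) + 4 * R (S x) - x with hZ
  have dZ : ∀ x, HasDerivAt Z ((40 / 3) * ((P.H (T x) + P.a (S x)) * Real.sin (θ x) ^ 2)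
      + 4 * ((1 - P.a (S x)) * (Real.sin (θ x) * Real.exp (-(P.L (T x) + P.a (S x) * T x)))) - 1) x := by
    intro x
    exact (((dC x).const_mul (40 / 3 : ℝ)).add
      (((dR (S x)).comp x (dS x)).const_mul (4 : ℝ))).sub (hasDerivAt_id x)
  have hZm : MonotoneOn Z (Icc (0:ℝ) 20) := by
    refine monotoneOn_of_deriv_nonneg (convex_Icc _ _) ?_ ?_ ?_
    · exact fun y _ => (dZ y).continuousAt.continuousWithinAt
    · exact fun y _ => (dZ y).differentiableAt.differentiableWithinAt
    · intro x hx'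
      have hx := interior_subset hx'
      rw [(dZ x).deriv]
      have hsq := hsin2 x hx
      have hsg := hsinge x hx
      have hH := P.H_nonneg (T x)
      have ha0 := P.a_nonneg (S x)
      have ha1 := P.a_le (S x)
      have hL := L_nonpos P (T x)
      have hTx := hTle x hx
      set A := P.a (S x) with hA
      set ex := Real.exp (-(P.L (T x) + A * T x)) with hex
      have hexpos : 0 < ex := Real.exp_pos _
      by_cases hcase : 1 / 10 < A
      · have h1 : 1 ≤ (40 / 3) * ((P.H (T x) + A) * Real.sin (θ x) ^ 2) := by nlinarith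
        have h2 : 0 ≤ 4 * ((1 - A) * (Real.sin (θ x) * ex)) := by
          have : 0 ≤ 1 - A := by linarith
          have : 0 ≤ Real.sin (θ x) := by linarith
          positivity
        linarith
      · push Not at hcase
        have h1 : 0 ≤ (40 / 3) * ((P.H (T x) + A) * Real.sin (θ x) ^ 2) := by positivity
        have h2 : A * T x ≤ 1 := by
          rcases le_total (T x) 0 with h | h
          · have := mul_nonpos_of_nonneg_of_nonpos ha0 h
            linarith
          · nlinarith
        have h3 : Real.exp (-1) ≤ ex := by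
          rw [hex]
          apply Real.exp_le_exp.mpr
          linarith
        have h4 : (0.3678 : ℝ) < Real.exp (-1) := by
          have := Real.exp_neg_one_gt_d9
          linarith
        have h5 : (0.3678 : ℝ) ≤ ex := by linarith
        have h6 : (0.866 : ℝ) * 0.3678 ≤ Real.sin (θ x) * ex :=
          mul_le_mul hsg h5 (by norm_num) (by linarith)
        have h7 : (0.9 : ℝ) * (0.866 * 0.3678) ≤ (1 - A) * (Real.sin (θ x) * ex) :=
          mul_le_mul (by linarith) h6 (by norm_num) (by linarith)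
        norm_num at h7
        linarith
  have hZ2 := hZm (left_mem_Icc.mpr (by norm_num)) (right_mem_Icc.mpr (by norm_num))
    (by norm_num : (0:ℝ) ≤ 20)
  have hSm : S 0 ≤ S 20 := by
    have h1 : MonotoneOn S (Icc (0:ℝ) 20) := by
      refine monotoneOn_of_deriv_nonneg (convex_Icc _ _) ?_ ?_ ?_
      · exact fun y _ => (dS y).continuousAt.continuousWithinAt
      · exact fun y _ => (dS y).differentiableAt.differentiableWithinAt
      · intro x hx
        rw [(dS x).deriv]
        exact mul_nonneg (hsinpos x (interior_subset hx)).le (Real.exp_pos _).le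
    exact h1 (left_mem_Icc.mpr (by norm_num)) (right_mem_Icc.mpr (by norm_num)) (by norm_num)
  have hR3 := hRle _ _ hSm
  have hc20 := hclt 20 (right_mem_Icc.mpr (by norm_num))
  simp only [hZ] at hZ2
  rw [hc0] at hZ2
  linarith

/-- the Jacobi field with `J(0) = 1`, `J'(0) = 0` along a geodesic which is horizontal at time `0`
stays positive. -/
theorem jacobi_pos (γ : ℝ → ℝ × ℝ × ℝ) (hγ : P.IsGeod γ) (hc : Real.cos (γ 0).2.2 = 0)
    (hs : Real.sin (γ 0).2.2 = 1) (J I : ℝ → ℝ) (hJ : ∀ x, HasDerivAt J (I x) x)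
    (hI : ∀ x, HasDerivAt I (P.k (pos (γ x)) * J x) x) (hJ0 : J 0 = 1) (hI0 : I 0 = 0) :
    ∀ x, 0 ≤ x → 0 < J x := by
  have dT : ∀ x, HasDerivAt (fun x => (γ x).1) (Real.cos (γ x).2.2) x := fun x => (comps hγ x).1
  have dC : ∀ x, HasDerivAt (fun x => Real.cos (γ x).2.2)
      ((P.H (γ x).1 + P.a (γ x).2.1) * Real.sin (γ x).2.2 ^ 2) x := fun x => cos_deriv hγ x
  have hmonoC : Monotone (fun x => Real.cos (γ x).2.2) := cos_mono hγ
  have hcnn : ∀ x, 0 ≤ x → 0 ≤ Real.cos (γ x).2.2 := by
    intro x hx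
    have h := hmonoC hx
    simp only [] at h
    rw [hc] at h
    exact h
  rcases le_total 0 (γ 0).1 with ht | ht
  · intro b hb
    have hTnn : ∀ x ∈ Icc 0 b, 0 ≤ (γ x).1 := by
      intro x hx
      have h1 : MonotoneOn (fun x => (γ x).1) (Icc 0 b) := by
        refine monotoneOn_of_deriv_nonneg (convex_Icc _ _) ?_ ?_ ?_
        · exact fun y _ => (dT y).continuousAt.continuousWithinAt
        · exact fun y _ => (dT y).differentiableAt.differentiableWithinAt
        · intro y hy
          rw [(dT y).deriv]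
          exact hcnn y (interior_subset hy).1
      exact ht.trans (h1 (left_mem_Icc.mpr hb) hx hx.1)
    refine (sturm (w := fun _ => 0) (w' := fun _ => 0) (k := fun x => P.k (pos (γ x))) hb
      (fun x _ => hJ x) (fun x _ => hI x) (fun x _ => hasDerivAt_const _ _) ?_ (by rw [hJ0]; norm_num)
      (by rw [hI0]; simp) b (right_mem_Icc.mpr hb)).1
    intro x hx
    have h1 := P.H_zero _ (hTnn x hx)
    have h2 : deriv P.H (γ x).1 = 0 := by
      have hmin : IsLocalMin P.H (γ x).1 := by
        refine Eventually.of_forall fun u => ?_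
        rw [h1]
        exact P.H_nonneg u
      exact hmin.deriv_eq_zero
    show (0:ℝ) + 0 ^ 2 ≤ deriv P.H (γ x).1 + (P.H (γ x).1 + P.a (γ x).2.1) ^ 2
    rw [h1, h2]
    have := sq_nonneg (0 + P.a (γ x).2.1)
    linarith
  · obtain ⟨x₁, hx₁, hcx₁⟩ := turn_up P γ hγ hc hs ht
    set mu : ℝ := 5 / 4 * P.lam ^ 2 + P.lam * P.del + P.C with hmu
    have hlam := P.lam_pos
    have hdel : 0 ≤ P.del := (P.H_nonneg 0).trans (P.H_le 0)
    have hC0 : 0 ≤ P.C := by
      have h1 := P.dH_ge 0
      have h2 := P.dH_nonpos 0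
      linarith
    have hmu0 : 0 ≤ mu := by rw [hmu]; positivity
    have hmule : 80 * mu ≤ P.lam := P.mu_le
    have hdelle := P.del_le
    have phase1 := sturm (J := J) (I := I)
      (w := fun x => P.lam * Real.cos (γ x).2.2 - mu * x)
      (w' := fun x => P.lam * ((P.H (γ x).1 + P.a (γ x).2.1) * Real.sin (γ x).2.2 ^ 2) - mu)
      (k := fun x => P.k (pos (γ x))) hx₁.1
      (fun x _ => hJ x) (fun x _ => hI x)
      (fun x _ => by
        have h := ((dC x).const_mul P.lam).sub ((hasDerivAt_id x).const_mul mu)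
        refine h.congr_deriv ?_
        ring)
      (by
        intro x hx
        show P.lam * ((P.H (γ x).1 + P.a (γ x).2.1) * Real.sin (γ x).2.2 ^ 2) - mu
          + (P.lam * Real.cos (γ x).2.2 - mu * x) ^ 2
          ≤ deriv P.H (γ x).1 + (P.H (γ x).1 + P.a (γ x).2.1) ^ 2
        have hx20 : x ≤ 20 := hx.2.trans hx₁.2
        have hH := P.H_nonneg (γ x).1
        have hHle := P.H_le (γ x).1
        have ha0 := P.a_nonneg (γ x).2.1
        have hdH := P.dH_ge (γ x).1
        have hcos := hcnn x hx.1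
        have hcos1 := Real.cos_le_one (γ x).2.2
        have hsc := Real.sin_sq_add_cos_sq (γ x).2.2
        have hw1 : P.lam * Real.cos (γ x).2.2 - mu * x ≤ P.lam := by
          have h1 := mul_le_mul_of_nonneg_left hcos1 hlam.le
          have h2 := mul_nonneg hmu0 hx.1
          linarith
        have hw2 : -P.lam ≤ P.lam * Real.cos (γ x).2.2 - mu * x := by
          have h1 := mul_nonneg hlam.le hcos
          have h2 := mul_le_mul_of_nonneg_left hx20 hmu0
          linarith
        have hwsq : (P.lam * Real.cos (γ x).2.2 - mu * x) ^ 2 ≤ P.lam ^ 2 := by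
          apply sq_le_sq'
          · exact hw2
          · exact hw1
        have hsin1 : Real.sin (γ x).2.2 ^ 2 ≤ 1 := by nlinarith
        have h3 : P.lam * ((P.H (γ x).1 + P.a (γ x).2.1) * Real.sin (γ x).2.2 ^ 2)
            ≤ P.lam * (P.del + P.a (γ x).2.1) := by
          refine mul_le_mul_of_nonneg_left ?_ hlam.le
          calc (P.H (γ x).1 + P.a (γ x).2.1) * Real.sin (γ x).2.2 ^ 2
              ≤ (P.H (γ x).1 + P.a (γ x).2.1) * 1 :=
                mul_le_mul_of_nonneg_left hsin1 (by linarith)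
            _ ≤ P.del + P.a (γ x).2.1 := by linarith
        have h4 : P.a (γ x).2.1 ^ 2 ≤ (P.H (γ x).1 + P.a (γ x).2.1) ^ 2 := by
          apply pow_le_pow_left₀ ha0
          linarith
        have h5 := sq_nonneg (P.a (γ x).2.1 - P.lam / 2)
        have h6 : P.lam * P.a (γ x).2.1 - P.a (γ x).2.1 ^ 2 ≤ P.lam ^ 2 / 4 := by nlinarith
        have h7 : P.lam * (P.del + P.a (γ x).2.1) = P.lam * P.del + P.lam * P.a (γ x).2.1 := by ring
        rw [h7] at h3
        linarith)
      (by rw [hJ0]; norm_num)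
      (by
        show (P.lam * Real.cos (γ 0).2.2 - mu * 0) * J 0 ≤ I 0
        rw [hc, hI0]
        simp)
    have hp1 := phase1 x₁ (right_mem_Icc.mpr hx₁.1)
    intro b hb
    rcases le_total b x₁ with hbx | hbx
    · exact (phase1 b ⟨hb, hbx⟩).1
    · have hch : ∀ x ∈ Icc x₁ b, 1 / 2 ≤ Real.cos (γ x).2.2 := by
        intro x hx
        have h := hmonoC hx.1
        simp only [] at h
        rw [hcx₁] at h
        exact h
      have dH : ∀ x, HasDerivAt (fun x => P.H (γ x).1) (deriv P.H (γ x).1 * Real.cos (γ x).2.2) x := by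
        intro x
        have h1 : HasDerivAt P.H (deriv P.H (γ x).1) (γ x).1 :=
          ((P.hH.differentiable (by simp)) _).hasDerivAt
        exact h1.comp x (dT x)
      refine (sturm (J := J) (I := I) (w := fun x => P.H (γ x).1 / Real.cos (γ x).2.2)
        (w' := fun x => ((deriv P.H (γ x).1 * Real.cos (γ x).2.2) * Real.cos (γ x).2.2
          - P.H (γ x).1 * ((P.H (γ x).1 + P.a (γ x).2.1) * Real.sin (γ x).2.2 ^ 2))
            / Real.cos (γ x).2.2 ^ 2)
        (k := fun x => P.k (pos (γ x))) hbx (fun x _ => hJ x) (fun x _ => hI x)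
        (fun x hx => (dH x).div (dC x) (by have := hch x hx; linarith)) ?_ hp1.1 ?_
        b (right_mem_Icc.mpr hbx)).1
      · intro x hx
        show ((deriv P.H (γ x).1 * Real.cos (γ x).2.2) * Real.cos (γ x).2.2
          - P.H (γ x).1 * ((P.H (γ x).1 + P.a (γ x).2.1) * Real.sin (γ x).2.2 ^ 2))
            / Real.cos (γ x).2.2 ^ 2 + (P.H (γ x).1 / Real.cos (γ x).2.2) ^ 2
          ≤ deriv P.H (γ x).1 + (P.H (γ x).1 + P.a (γ x).2.1) ^ 2
        have hcp : 0 < Real.cos (γ x).2.2 := by have := hch x hx; linarith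
        have hH := P.H_nonneg (γ x).1
        have ha0 := P.a_nonneg (γ x).2.1
        have hsc := Real.sin_sq (γ x).2.2
        have e1 : ((deriv P.H (γ x).1 * Real.cos (γ x).2.2) * Real.cos (γ x).2.2
          - P.H (γ x).1 * ((P.H (γ x).1 + P.a (γ x).2.1) * Real.sin (γ x).2.2 ^ 2))
            / Real.cos (γ x).2.2 ^ 2 + (P.H (γ x).1 / Real.cos (γ x).2.2) ^ 2
            = deriv P.H (γ x).1 + P.H (γ x).1 ^ 2
              - P.H (γ x).1 * P.a (γ x).2.1 * (Real.sin (γ x).2.2 ^ 2 / Real.cos (γ x).2.2 ^ 2) := by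
          rw [hsc]
          field_simp
          ring
        rw [e1]
        have h1 : 0 ≤ P.H (γ x).1 * P.a (γ x).2.1
            * (Real.sin (γ x).2.2 ^ 2 / Real.cos (γ x).2.2 ^ 2) := by positivity
        have h2 : P.H (γ x).1 ^ 2 ≤ (P.H (γ x).1 + P.a (γ x).2.1) ^ 2 := by
          apply pow_le_pow_left₀ hH
          linarith
        linarith
      · refine le_trans ?_ hp1.2
        refine mul_le_mul_of_nonneg_right ?_ hp1.1.le
        show P.H (γ x₁).1 / Real.cos (γ x₁).2.2 ≤ P.lam * Real.cos (γ x₁).2.2 - mu * x₁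
        rw [hcx₁]
        have h1 := P.H_le (γ x₁).1
        have h2 := mul_le_mul_of_nonneg_left hx₁.2 hmu0
        have h3 : P.H (γ x₁).1 / (1 / 2) = 2 * P.H (γ x₁).1 := by ring
        rw [h3]
        linarith


end Pool.Agent.Helper10.Asy.JD
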