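import Mathlib
import Pool.Agent.Helper10.Asy.Base

open scoped ContDiff Topology
open Set Filter

noncomputable section

namespace Pool.Agent.Helper10.Asy.JE

variable (P : Prof)

variable {P} in
theorem Eaux_t {γ : ℝ → ℝ × ℝ × ℝ} (hγ : P.IsGeod γ) (x : ℝ) :
    HasDerivAt (fun x => (γ x).1) (Real.cos (γ x).2.2) x :=
  (ContinuousLinearMap.fst ℝ ℝ (ℝ × ℝ)).hasFDerivAt.comp_hasDerivAt x (hγ x)

variable {P} in
theorem Eaux_s {γ : ℝ → ℝ × ℝ × ℝ} (hγ : P.IsGeod γ) (x : ℝ) :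
    HasDerivAt (fun x => (γ x).2.1)
      (Real.sin (γ x).2.2 * Real.exp (-(P.L (γ x).1 + P.a (γ x).2.1 * (γ x).1))) x :=
  ((ContinuousLinearMap.fst ℝ ℝ ℝ).comp (ContinuousLinearMap.snd ℝ ℝ (ℝ × ℝ))).hasFDerivAt.comp_hasDerivAt x (hγ x)

variable {P} in
theorem Eaux_th {γ : ℝ → ℝ × ℝ × ℝ} (hγ : P.IsGeod γ) (x : ℝ) :
    HasDerivAt (fun x => (γ x).2.2) (-((P.H (γ x).1 + P.a (γ x).2.1) * Real.sin (γ x).2.2)) x :=
  ((ContinuousLinearMap.snd ℝ ℝ ℝ).comp (ContinuousLinearMap.snd ℝ ℝ (ℝ × ℝ))).hasFDerivAt.comp_hasDerivAt x (hγ x)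

variable {P} in
theorem Eaux_cont {γ : ℝ → ℝ × ℝ × ℝ} (hγ : P.IsGeod γ) : Continuous γ :=
  continuous_iff_continuousAt.2 fun x => (hγ x).continuousAt

variable {P} in
theorem Eaux_hcont {γ : ℝ → ℝ × ℝ × ℝ} (hγ : P.IsGeod γ) :
    Continuous (fun x => P.H (γ x).1 + P.a (γ x).2.1) := by
  have h1 := P.hH.continuous
  have h2 := P.ha.continuous
  have h3 := Eaux_cont hγ
  fun_prop

variable {P} in
theorem Eaux_sin {γ : ℝ → ℝ × ℝ × ℝ} (hγ : P.IsGeod γ) (x₀ x : ℝ) :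
    Real.sin (γ x).2.2 = Real.sin (γ x₀).2.2 *
      Real.exp (-∫ y in x₀..x, (P.H (γ y).1 + P.a (γ y).2.1) * Real.cos (γ y).2.2) := by
  have hc : Continuous (fun y => (P.H (γ y).1 + P.a (γ y).2.1) * Real.cos (γ y).2.2) := by
    have h1 := Eaux_hcont hγ
    have h3 := Eaux_cont hγ
    exact h1.mul (Real.continuous_cos.comp (continuous_snd.comp (continuous_snd.comp h3)))
  set I : ℝ → ℝ := fun x => ∫ y in x₀..x, (P.H (γ y).1 + P.a (γ y).2.1) * Real.cos (γ y).2.2 with hI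
  have hId : ∀ x, HasDerivAt I ((P.H (γ x).1 + P.a (γ x).2.1) * Real.cos (γ x).2.2) x := fun x =>
    (hc.integral_hasStrictDerivAt x₀ x).hasDerivAt
  set u : ℝ → ℝ := fun x => Real.sin (γ x).2.2 * Real.exp (I x) with hu
  have hud : ∀ x, HasDerivAt u 0 x := by
    intro x
    have h1 := ((Eaux_th hγ x).sin).fun_mul ((hId x).exp)
    refine h1.congr_deriv ?_
    ring
  have hconst : u x = u x₀ := is_const_of_deriv_eq_zero (fun x => (hud x).differentiableAt)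
    (fun x => (hud x).deriv) x x₀
  have hI0 : I x₀ = 0 := by simp [hI]
  simp only [hu] at hconst
  rw [hI0, Real.exp_zero, mul_one] at hconst
  rw [← hconst, mul_assoc, ← Real.exp_add]
  show Real.sin (γ x).2.2 = Real.sin (γ x).2.2 * Real.exp (I x + -I x)
  rw [add_neg_cancel, Real.exp_zero, mul_one]

theorem Eaux_cos {γ : ℝ → ℝ × ℝ × ℝ} (hγ : P.IsGeod γ) (x : ℝ) :
    HasDerivAt (fun x => Real.cos (γ x).2.2)
      ((P.H (γ x).1 + P.a (γ x).2.1) * Real.sin (γ x).2.2 ^ 2) x := by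
  refine ((Eaux_th hγ x).cos).congr_deriv ?_
  ring

theorem Eaux_h_nonneg (q : ℝ × ℝ) : 0 ≤ P.H q.1 + P.a q.2 := add_nonneg (P.H_nonneg _) (P.a_nonneg _)

theorem Eaux_h_le (q : ℝ × ℝ) : P.H q.1 + P.a q.2 ≤ 2 := by
  have hC : 0 ≤ P.C := by
    have h1 := P.dH_ge 0
    have h2 := P.dH_nonpos 0
    linarith
  have hd : 0 ≤ P.del := (P.H_nonneg 0).trans (P.H_le 0)
  have hl := P.lam_pos
  have h3 := P.mu_le
  have h4 := P.del_le
  have h5 : P.lam ≤ 1 / 100 := by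
    have h6 : 0 ≤ P.lam * P.del := mul_nonneg hl.le hd
    have h7 : 100 * P.lam ^ 2 ≤ P.lam := by nlinarith
    by_contra hcon
    rw [not_le] at hcon
    nlinarith
  have h8 := P.H_le q.1
  have h9 := P.a_le q.2
  linarith

theorem Eaux_reflect (γ : ℝ → ℝ × ℝ × ℝ) (hγ : P.IsGeod γ) :
    P.IsGeod (fun x => ((γ x).1, 1 - (γ x).2.1, -(γ x).2.2)) := by
  intro x
  have h1 := Eaux_t hγ x
  have h2 := (Eaux_s hγ x).const_sub 1
  have h3 := (Eaux_th hγ x).fun_neg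
  refine (h1.prodMk (h2.prodMk h3)).congr_deriv ?_
  unfold Prof.V
  simp only [Real.cos_neg, Real.sin_neg, P.a_symm]
  refine Prod.ext rfl (Prod.ext ?_ ?_)
  · simp only
    ring
  · simp only
    ring

theorem Eaux_comp_neg {g : ℝ → ℝ} {g' : ℝ} {x : ℝ} (h : HasDerivAt g g' (-x)) :
    HasDerivAt (fun x => g (-x)) (-g') x := by
  have h1 : HasDerivAt (fun x : ℝ => -x) (-1) x := by simpa using (hasDerivAt_id x).fun_neg
  have := HasDerivAt.comp x h h1
  refine this.congr_deriv ?_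
  ring

theorem Eaux_reverse (γ : ℝ → ℝ × ℝ × ℝ) (hγ : P.IsGeod γ) :
    P.IsGeod (fun x => ((γ (-x)).1, 1 - (γ (-x)).2.1, Real.pi - (γ (-x)).2.2)) := by
  intro x
  have h1 := Eaux_comp_neg (Eaux_t hγ (-x))
  have h2 := (Eaux_comp_neg (Eaux_s hγ (-x))).const_sub 1
  have h3 := (Eaux_comp_neg (Eaux_th hγ (-x))).const_sub Real.pi
  refine (h1.prodMk (h2.prodMk h3)).congr_deriv ?_
  unfold Prof.V
  simp only [Real.cos_pi_sub, Real.sin_pi_sub, P.a_symm]
  refine Prod.ext rfl (Prod.ext ?_ ?_)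
  · simp only
    ring
  · simp only
    ring

theorem Eaux_L_nonpos (t : ℝ) : P.L t ≤ 0 := by
  have hmono : Monotone P.L := monotone_of_deriv_nonneg (fun t => (P.dL t).differentiableAt)
    (fun t => by rw [(P.dL t).deriv]; exact P.H_nonneg t)
  rcases le_total 0 t with h | h
  · rw [P.L_zero t h]
  · calc P.L t ≤ P.L 0 := hmono h
      _ = 0 := P.L_zero 0 le_rfl

theorem Eaux_mvt {g g' : ℝ → ℝ} {x₁ c : ℝ} (hg : ∀ x, HasDerivAt g (g' x) x)
    (hc : ∀ x, x ≤ x₁ → c ≤ g' x) {x : ℝ} (hx : x ≤ x₁) : g x ≤ g x₁ + c * (x - x₁) := by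
  have hd : ∀ x, HasDerivAt (fun x => g x - c * x) (g' x - c) x := by
    intro x
    have h1 : HasDerivAt (fun x : ℝ => c * x) c x := by simpa using (hasDerivAt_id x).const_mul c
    exact (hg x).fun_sub h1
  have hm : MonotoneOn (fun x => g x - c * x) (Iic x₁) := by
    refine monotoneOn_of_hasDerivWithinAt_nonneg (convex_Iic x₁)
      (fun y _ ↦ (hd y).continuousAt.continuousWithinAt)
      (fun y _ ↦ (hd y).hasDerivWithinAt) ?_
    intro y hy
    have hy1 : y ∈ Iic x₁ := interior_subset hy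
    have := hc y hy1
    linarith
  have := hm (mem_Iic.2 hx) (mem_Iic.2 (le_refl x₁)) hx
  simp only at this
  linarith

theorem Eaux_EH (γ : ℝ → ℝ × ℝ × ℝ) (hγ : P.IsGeod γ) (h0 : 0 < Real.sin (γ 0).2.2)
    (hcos : ∀ x, 0 < Real.cos (γ x).2.2) : False := by
  have hsin : ∀ x, 0 < Real.sin (γ x).2.2 := by
    intro x
    rw [Eaux_sin hγ 0 x]
    positivity
  have hcm : Monotone (fun x => Real.cos (γ x).2.2) :=
    monotone_of_deriv_nonneg (fun x => (Eaux_cos P hγ x).differentiableAt)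
      (fun x => by
        rw [(Eaux_cos P hγ x).deriv]
        exact mul_nonneg (Eaux_h_nonneg P ((γ x).1, (γ x).2.1)) (sq_nonneg _))
  have htm : Monotone (fun x => (γ x).1) :=
    monotone_of_deriv_nonneg (fun x => (Eaux_t hγ x).differentiableAt)
      (fun x => by rw [(Eaux_t hγ x).deriv]; exact (hcos x).le)
  have hsm : Monotone (fun x => (γ x).2.1) :=
    monotone_of_deriv_nonneg (fun x => (Eaux_s hγ x).differentiableAt)
      (fun x => by
        rw [(Eaux_s hγ x).deriv]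
        exact mul_nonneg (hsin x).le (Real.exp_pos _).le)
  set m : ℝ := Real.sin (γ 0).2.2 with hm
  have hsge : ∀ x, x ≤ 0 → m ≤ Real.sin (γ x).2.2 := by
    intro x hx
    have h1 : Real.cos (γ x).2.2 ≤ Real.cos (γ 0).2.2 := hcm hx
    have h2 := Real.sin_sq_add_cos_sq (γ x).2.2
    have h3 := Real.sin_sq_add_cos_sq (γ 0).2.2
    have h4 := hcos x
    have h5 := hsin x
    rw [← hm] at h3
    by_contra hcon
    rw [not_le] at hcon
    nlinarith
  set c : ℝ := m * Real.exp (-|(γ 0).1|) with hc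
  have hc0 : 0 < c := mul_pos h0 (Real.exp_pos _)
  have hsd : ∀ x, x ≤ 0 → c ≤ Real.sin (γ x).2.2 * Real.exp (-(P.L (γ x).1 + P.a (γ x).2.1 * (γ x).1)) := by
    intro x hx
    rw [hc]
    apply mul_le_mul (hsge x hx) _ (Real.exp_pos _).le (hsin x).le
    apply Real.exp_le_exp.2
    have h1 := Eaux_L_nonpos P (γ x).1
    have h2 : (γ x).1 ≤ (γ 0).1 := htm hx
    have h3 := P.a_nonneg (γ x).2.1
    have h4 := P.a_le (γ x).2.1
    have h5 : P.a (γ x).2.1 * (γ x).1 ≤ |(γ 0).1| := by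
      calc P.a (γ x).2.1 * (γ x).1 ≤ P.a (γ x).2.1 * |(γ 0).1| := by
            apply mul_le_mul_of_nonneg_left _ h3
            exact h2.trans (le_abs_self _)
        _ ≤ 1 * |(γ 0).1| := mul_le_mul_of_nonneg_right h4 (abs_nonneg _)
        _ = |(γ 0).1| := one_mul _
    linarith
  -- choose x₁
  set x₁ : ℝ := -(|(γ 0).2.1| + 2) / c with hx₁
  have hx₁0 : x₁ ≤ 0 := by
    rw [hx₁]
    apply div_nonpos_of_nonpos_of_nonneg _ hc0.le
    have := abs_nonneg (γ 0).2.1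
    linarith
  have hs1 : (γ x₁).2.1 ≤ -2 := by
    have h1 := Eaux_mvt (fun x => Eaux_s hγ x) hsd hx₁0
    have h2 : c * (x₁ - 0) = -(|(γ 0).2.1| + 2) := by
      rw [hx₁, sub_zero]
      field_simp
    rw [h2] at h1
    have h3 := le_abs_self (γ 0).2.1
    linarith
  have hcd : ∀ x, x ≤ x₁ → m ^ 2 ≤ (P.H (γ x).1 + P.a (γ x).2.1) * Real.sin (γ x).2.2 ^ 2 := by
    intro x hx
    have h1 : (γ x).2.1 ≤ (γ x₁).2.1 := hsm hx
    have h2 : P.a (γ x).2.1 = 1 := P.a_one _ (fun h => by linarith [h.1])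
    have h3 := P.H_nonneg (γ x).1
    have h4 : m ^ 2 ≤ Real.sin (γ x).2.2 ^ 2 := pow_le_pow_left₀ h0.le (hsge x (hx.trans hx₁0)) 2
    rw [h2]
    nlinarith [sq_nonneg (Real.sin (γ x).2.2)]
  have hm2 : 0 < m ^ 2 := by positivity
  set x₂ : ℝ := x₁ - 2 / m ^ 2 with hx₂
  have h21 : x₂ ≤ x₁ := by
    rw [hx₂]
    have : 0 < 2 / m ^ 2 := by positivity
    linarith
  have h1 := Eaux_mvt (fun x => Eaux_cos P hγ x) hcd h21
  have h2 : m ^ 2 * (x₂ - x₁) = -2 := by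
    rw [hx₂]
    field_simp
    ring
  rw [h2] at h1
  have h3 := Real.cos_le_one (γ x₁).2.2
  have h4 := hcos x₂
  linarith

theorem Eaux_EH2 (γ : ℝ → ℝ × ℝ × ℝ) (hγ : P.IsGeod γ) (h0 : 0 < Real.sin (γ 0).2.2) :
    ∃ x, Real.cos (γ x).2.2 = 0 := by
  by_contra hcon
  push Not at hcon
  have hcont : Continuous (fun x => Real.cos (γ x).2.2) :=
    Real.continuous_cos.comp (continuous_snd.comp (continuous_snd.comp (Eaux_cont hγ)))
  by_cases hpos : ∀ x, 0 < Real.cos (γ x).2.2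
  · exact Eaux_EH P γ hγ h0 hpos
  · push Not at hpos
    obtain ⟨y, hy⟩ := hpos
    have hneg : ∀ x, Real.cos (γ x).2.2 < 0 := by
      intro x
      by_contra hx
      rw [not_lt] at hx
      obtain ⟨z, hz⟩ := mem_range_of_exists_le_of_exists_ge hcont ⟨y, hy⟩ ⟨x, hx⟩
      exact hcon z hz
    apply Eaux_EH P _ (Eaux_reverse P γ hγ)
    · show 0 < Real.sin (Real.pi - (γ (-0)).2.2)
      rw [Real.sin_pi_sub, neg_zero]
      exact h0
    · intro x
      have := hneg (-x)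
      have h5 := Real.cos_pi_sub (γ (-x)).2.2
      show 0 < Real.cos (Real.pi - (γ (-x)).2.2)
      rw [h5]
      linarith

/-- the sign of `sin θ` is constant along a geodesic -/
theorem sin_pos_of_pos (γ : ℝ → ℝ × ℝ × ℝ) (hγ : P.IsGeod γ) (x₀ : ℝ)
    (h0 : 0 < Real.sin (γ x₀).2.2) (x : ℝ) : 0 < Real.sin (γ x).2.2 := by
  rw [Eaux_sin hγ x₀ x]
  positivity

theorem sin_zero_of_zero (γ : ℝ → ℝ × ℝ × ℝ) (hγ : P.IsGeod γ) (x₀ : ℝ)
    (h0 : Real.sin (γ x₀).2.2 = 0) (x : ℝ) : (γ x).2.2 = (γ x₀).2.2 := by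
  have hz : ∀ x, Real.sin (γ x).2.2 = 0 := by
    intro x
    rw [Eaux_sin hγ x₀ x, h0, zero_mul]
  have hd : ∀ x, HasDerivAt (fun x => (γ x).2.2) 0 x := by
    intro x
    refine (Eaux_th hγ x).congr_deriv ?_
    rw [hz x]
    ring
  exact is_const_of_deriv_eq_zero (fun x => (hd x).differentiableAt) (fun x => (hd x).deriv) x x₀

theorem cos_monotone (γ : ℝ → ℝ × ℝ × ℝ) (hγ : P.IsGeod γ) :
    Monotone (fun x => Real.cos (γ x).2.2) :=
  monotone_of_deriv_nonneg (fun x => (Eaux_cos P hγ x).differentiableAt)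
      (fun x => by
        rw [(Eaux_cos P hγ x).deriv]
        exact mul_nonneg (Eaux_h_nonneg P ((γ x).1, (γ x).2.1)) (sq_nonneg _))

/-- a lower bound for `sin θ` after a horizontal point -/
theorem sin_ge_exp (γ : ℝ → ℝ × ℝ × ℝ) (hγ : P.IsGeod γ) (hs : Real.sin (γ 0).2.2 = 1) (x : ℝ)
    (hx : 0 ≤ x) : Real.exp (-2 * x) ≤ Real.sin (γ x).2.2 := by
  rw [Eaux_sin hγ 0 x, hs, one_mul]
  apply Real.exp_le_exp.2
  have hc : Continuous (fun y => (P.H (γ y).1 + P.a (γ y).2.1) * Real.cos (γ y).2.2) := by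
    have h1 := Eaux_hcont hγ
    have h3 := Eaux_cont hγ
    exact h1.mul (Real.continuous_cos.comp (continuous_snd.comp (continuous_snd.comp h3)))
  have h1 : ∫ y in (0:ℝ)..x, (P.H (γ y).1 + P.a (γ y).2.1) * Real.cos (γ y).2.2 ≤ ∫ _ in (0:ℝ)..x, (2:ℝ) := by
    apply intervalIntegral.integral_mono_on hx (hc.intervalIntegrable _ _) (by simp)
    intro y _
    have h2 := Eaux_h_nonneg P ((γ y).1, (γ y).2.1)
    have h3 := Eaux_h_le P ((γ y).1, (γ y).2.1)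
    have h4 := Real.cos_le_one (γ y).2.2
    simp only at h2 h3
    calc (P.H (γ y).1 + P.a (γ y).2.1) * Real.cos (γ y).2.2 ≤ (P.H (γ y).1 + P.a (γ y).2.1) * 1 :=
          mul_le_mul_of_nonneg_left h4 h2
      _ ≤ 2 := by linarith
  rw [intervalIntegral.integral_const, smul_eq_mul] at h1
  linarith

/-- every geodesic which is not vertical has a horizontal point -/
theorem exists_horizontal (γ : ℝ → ℝ × ℝ × ℝ) (hγ : P.IsGeod γ)
    (h0 : Real.sin (γ 0).2.2 ≠ 0) : ∃ x, Real.cos (γ x).2.2 = 0 := by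
  rcases lt_or_gt_of_ne h0 with h | h
  · obtain ⟨x, hx⟩ := Eaux_EH2 P _ (Eaux_reflect P γ hγ) (by
      simp only [Real.sin_neg]
      linarith)
    simp only [Real.cos_neg] at hx
    exact ⟨x, hx⟩
  · exact Eaux_EH2 P γ hγ h

/-- reflection `s ↦ 1 - s` -/
theorem reflect (γ : ℝ → ℝ × ℝ × ℝ) (hγ : P.IsGeod γ) :
    P.IsGeod (fun x => ((γ x).1, 1 - (γ x).2.1, -(γ x).2.2)) := Eaux_reflect P γ hγ

/-- time reversal composed with the reflection `s ↦ 1 - s` -/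
theorem reverse (γ : ℝ → ℝ × ℝ × ℝ) (hγ : P.IsGeod γ) :
    P.IsGeod (fun x => ((γ (-x)).1, 1 - (γ (-x)).2.1, Real.pi - (γ (-x)).2.2)) :=
  Eaux_reverse P γ hγ

/-- time reversal -/
theorem reverse' (γ : ℝ → ℝ × ℝ × ℝ) (hγ : P.IsGeod γ) :
    P.IsGeod (fun x => ((γ (-x)).1, (γ (-x)).2.1, (γ (-x)).2.2 + Real.pi)) := by
  intro x
  have h1 := Eaux_comp_neg (Eaux_t hγ (-x))
  have h2 := (Eaux_comp_neg (Eaux_s hγ (-x)))
  have h3 := (Eaux_comp_neg (Eaux_th hγ (-x))).add_const Real.pi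
  refine (h1.prodMk (h2.prodMk h3)).congr_deriv ?_
  unfold Prof.V
  simp only [Real.cos_add_pi, Real.sin_add_pi]
  refine Prod.ext rfl (Prod.ext ?_ ?_)
  · simp only
    ring
  · simp only
    ring



end Pool.Agent.Helper10.Asy.JE
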