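import Mathlib
import Pool.Agent.Helper10.Asy.Base
import Pool.Agent.Helper10.Asy.JE

open scoped ContDiff Topology
open Set Filter

noncomputable section

namespace Pool.Agent.Helper10.Asy.JG

variable (P : Prof)

theorem fermi_proper_right (s₀ R : ℝ) : ∃ B : ℝ, ∀ γ : ℝ → ℝ × ℝ × ℝ, P.IsGeod γ →
    (γ 0).2.1 = s₀ → Real.cos (γ 0).2.2 = 0 → Real.sin (γ 0).2.2 = 1 →
    ∀ x, 0 ≤ x → ‖pos (γ x)‖ ≤ R → |x| ≤ B ∧ |(γ 0).1| ≤ B := by
  -- lower bound for the base point
  obtain ⟨T, hT⟩ : ∃ T : ℝ, ∀ t ≤ T, P.L t < -Real.log (Real.exp 2 * (|R| + |s₀| + 1)) := by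
    have h := P.L_bot.eventually (eventually_lt_atBot (-Real.log (Real.exp 2 * (|R| + |s₀| + 1))))
    rw [eventually_atBot] at h
    exact h
  set B1 : ℝ := |R| + |T| + 2 with hB1
  set M : ℝ := Real.exp |R| with hM
  refine ⟨|R| + B1 + M * (|R| + |s₀|), ?_⟩
  intro γ hγ hs0 hc hs x hx hR
  have hR1 : |(γ x).1| ≤ R := (norm_fst_le (pos (γ x))).trans hR
  have hR2 : |(γ x).2.1| ≤ R := (norm_snd_le (pos (γ x))).trans hR
  have hRnn : 0 ≤ R := (abs_nonneg _).trans hR1
  have hMpos : 0 < M := Real.exp_pos _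
  have hsin0 : ∀ y, 0 < Real.sin (γ y).2.2 := fun y =>
    JE.sin_pos_of_pos P γ hγ 0 (by rw [hs]; norm_num) y
  have hcos0 : ∀ y, 0 ≤ y → 0 ≤ Real.cos (γ y).2.2 := fun y hy => by
    have := JE.cos_monotone P γ hγ hy
    simp only [hc] at this
    exact this
  have hdt : ∀ y, HasDerivAt (fun y => (γ y).1) (Real.cos (γ y).2.2) y := fun y => (hγ y).fst
  have hds : ∀ y, HasDerivAt (fun y => (γ y).2.1)
      (Real.sin (γ y).2.2 * Real.exp (-(P.L (γ y).1 + P.a (γ y).2.1 * (γ y).1))) y :=
    fun y => (hγ y).snd.fst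
  have htmono : MonotoneOn (fun y => (γ y).1) (Ici 0) := by
    apply monotoneOn_of_deriv_nonneg (convex_Ici 0)
    · exact fun y _ => (hdt y).continuousAt.continuousWithinAt
    · exact fun y _ => (hdt y).differentiableAt.differentiableWithinAt
    · intro y hy
      rw [interior_Ici] at hy
      rw [(hdt y).deriv]
      exact hcos0 y (le_of_lt hy)
  have hsmono : Monotone (fun y => (γ y).2.1) := by
    apply monotone_of_deriv_nonneg (fun y => (hds y).differentiableAt)
    intro y
    rw [(hds y).deriv]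
    exact mul_nonneg (hsin0 y).le (Real.exp_pos _).le
  have ht0x : (γ 0).1 ≤ (γ x).1 := htmono (mem_Ici.2 le_rfl) (mem_Ici.2 hx) hx
  have hLmono : Monotone P.L := monotone_of_deriv_nonneg (fun t => (P.dL t).differentiableAt)
      (fun t => by rw [(P.dL t).deriv]; exact P.H_nonneg t)
  have hLle : ∀ t, P.L t ≤ 0 := fun t => by
    rcases le_total 0 t with h | h
    · exact (P.L_zero t h).le
    · exact (hLmono h).trans (P.L_zero 0 le_rfl).le
  -- (a)
  have ha : x ≤ ((γ x).1 - (γ 0).1) + M * ((γ x).2.1 - s₀) := by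
    have hder : ∀ y, HasDerivAt (fun y => (γ y).1 + M * (γ y).2.1 - y)
        (Real.cos (γ y).2.2 + M * (Real.sin (γ y).2.2 *
          Real.exp (-(P.L (γ y).1 + P.a (γ y).2.1 * (γ y).1))) - 1) y := fun y =>
      ((hdt y).add ((hds y).const_mul M)).sub (hasDerivAt_id y)
    have hmono : MonotoneOn (fun y => (γ y).1 + M * (γ y).2.1 - y) (Icc 0 x) := by
      apply monotoneOn_of_deriv_nonneg (convex_Icc 0 x)
      · exact fun y _ => (hder y).continuousAt.continuousWithinAt
      · exact fun y _ => (hder y).differentiableAt.differentiableWithinAt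
      · intro y hy
        rw [interior_Icc] at hy
        rw [(hder y).deriv]
        have hty : (γ y).1 ≤ R := by
          have h1 : (γ y).1 ≤ (γ x).1 := htmono (mem_Ici.2 hy.1.le) (mem_Ici.2 hx) hy.2.le
          exact h1.trans ((le_abs_self _).trans hR1)
        have h2 : 1 ≤ M * Real.exp (-(P.L (γ y).1 + P.a (γ y).2.1 * (γ y).1)) := by
          rw [hM, ← Real.exp_add, Real.one_le_exp_iff]
          have h3 : P.a (γ y).2.1 * (γ y).1 ≤ |R| := by
            rw [abs_of_nonneg hRnn]
            rcases le_total 0 (γ y).1 with h | h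
            · calc P.a (γ y).2.1 * (γ y).1 ≤ 1 * (γ y).1 :=
                    mul_le_mul_of_nonneg_right (P.a_le _) h
                _ ≤ R := by linarith
            · exact (mul_nonpos_of_nonneg_of_nonpos (P.a_nonneg _) h).trans hRnn
          have h4 := hLle (γ y).1
          linarith
        have h5 := hcos0 y hy.1.le
        have h6 := hsin0 y
        have h7 : 1 ≤ Real.cos (γ y).2.2 + Real.sin (γ y).2.2 := by
          nlinarith [Real.sin_sq_add_cos_sq (γ y).2.2, mul_nonneg h5 h6.le]
        have h8 : Real.sin (γ y).2.2 ≤ M * (Real.sin (γ y).2.2 *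
            Real.exp (-(P.L (γ y).1 + P.a (γ y).2.1 * (γ y).1))) := by
          calc Real.sin (γ y).2.2 = Real.sin (γ y).2.2 * 1 := (mul_one _).symm
            _ ≤ Real.sin (γ y).2.2 *
                (M * Real.exp (-(P.L (γ y).1 + P.a (γ y).2.1 * (γ y).1))) :=
              mul_le_mul_of_nonneg_left h2 h6.le
            _ = _ := by ring
        linarith
    have h := hmono (left_mem_Icc.2 hx) (right_mem_Icc.2 hx) hx
    simp only [hs0, sub_zero] at h
    linarith
  -- (b)
  have hb : -B1 ≤ (γ 0).1 := by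
    by_contra hcon
    push Not at hcon
    have h1 : (γ 0).1 + 1 ≤ T := by
      have := neg_abs_le T
      have := abs_nonneg R
      linarith
    have h1' : (γ 0).1 + 1 ≤ 0 := by
      have := abs_nonneg T
      have := abs_nonneg R
      linarith
    -- `x ≥ 1`
    have htle : ∀ y, 0 ≤ y → (γ y).1 ≤ (γ 0).1 + y := by
      intro y hy
      have hmono : MonotoneOn (fun y => y - (γ y).1) (Ici 0) := by
        apply monotoneOn_of_deriv_nonneg (convex_Ici 0)
        · exact fun y _ => ((hasDerivAt_id y).sub (hdt y)).continuousAt.continuousWithinAt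
        · exact fun y _ => ((hasDerivAt_id y).sub (hdt y)).differentiableAt.differentiableWithinAt
        · intro y hy
          have := ((hasDerivAt_id y).sub (hdt y)).deriv
          change 0 ≤ deriv (id - fun y => (γ y).1) y
          rw [this]
          linarith [Real.cos_le_one (γ y).2.2]
      have h := hmono (mem_Ici.2 le_rfl) (mem_Ici.2 hy) hy
      simp only at h
      linarith
    have hx1 : 1 ≤ x := by
      by_contra hlt
      push Not at hlt
      have h2 := htle x hx
      have h3 := (abs_le.1 hR1).1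
      rw [abs_of_nonneg hRnn] at hB1
      have := abs_nonneg T
      linarith
    -- displacement in the first unit of time
    have hder : ∀ y, HasDerivAt
        (fun y => (γ y).2.1 - Real.exp (-2) * Real.exp (-P.L ((γ 0).1 + 1)) * y)
        (Real.sin (γ y).2.2 * Real.exp (-(P.L (γ y).1 + P.a (γ y).2.1 * (γ y).1)) -
          Real.exp (-2) * Real.exp (-P.L ((γ 0).1 + 1))) y := fun y => by
      have := (hds y).sub ((hasDerivAt_id y).const_mul
        (Real.exp (-2) * Real.exp (-P.L ((γ 0).1 + 1))))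
      rw [mul_one] at this
      exact this
    have hmono : MonotoneOn
        (fun y => (γ y).2.1 - Real.exp (-2) * Real.exp (-P.L ((γ 0).1 + 1)) * y) (Icc 0 1) := by
      apply monotoneOn_of_deriv_nonneg (convex_Icc 0 1)
      · exact fun y _ => (hder y).continuousAt.continuousWithinAt
      · exact fun y _ => (hder y).differentiableAt.differentiableWithinAt
      · intro y hy
        rw [interior_Icc] at hy
        rw [(hder y).deriv]
        have h2 := htle y hy.1.le
        have h3 : (γ y).1 ≤ (γ 0).1 + 1 := by linarith [hy.2]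
        have h4 : P.L (γ y).1 ≤ P.L ((γ 0).1 + 1) := hLmono h3
        have h5 : P.a (γ y).2.1 * (γ y).1 ≤ 0 :=
          mul_nonpos_of_nonneg_of_nonpos (P.a_nonneg _) (by linarith)
        have h6 : Real.exp (-2) ≤ Real.sin (γ y).2.2 := by
          refine le_trans (Real.exp_le_exp.2 ?_) (JE.sin_ge_exp P γ hγ hs y hy.1.le)
          linarith [hy.2]
        have h7 : Real.exp (-P.L ((γ 0).1 + 1)) ≤
            Real.exp (-(P.L (γ y).1 + P.a (γ y).2.1 * (γ y).1)) := by
          apply Real.exp_le_exp.2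
          linarith
        have := mul_le_mul h6 h7 (Real.exp_pos _).le (hsin0 y).le
        linarith
    have h := hmono (left_mem_Icc.2 zero_le_one) (right_mem_Icc.2 zero_le_one) zero_le_one
    simp only [mul_zero, mul_one, sub_zero] at h
    rw [hs0] at h
    have h2 : (γ 1).2.1 ≤ (γ x).2.1 := hsmono hx1
    have h3 : (γ x).2.1 - s₀ ≤ |R| + |s₀| := by
      have := (abs_le.1 hR2).2
      have := neg_abs_le s₀
      have := le_abs_self R
      linarith
    have h4 := hT _ h1
    have h5 : Real.exp (Real.log (Real.exp 2 * (|R| + |s₀| + 1))) < Real.exp (-P.L ((γ 0).1 + 1)) := by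
      apply Real.exp_lt_exp.2
      linarith
    rw [Real.exp_log (by positivity)] at h5
    have h6 : Real.exp (-2) * (Real.exp 2 * (|R| + |s₀| + 1)) <
        Real.exp (-2) * Real.exp (-P.L ((γ 0).1 + 1)) :=
      mul_lt_mul_of_pos_left h5 (Real.exp_pos _)
    rw [← mul_assoc, ← Real.exp_add] at h6
    norm_num at h6
    linarith
  have hup : (γ 0).1 ≤ |R| := by
    have := (abs_le.1 hR1).2
    have := le_abs_self R
    linarith
  have hs3 : (γ x).2.1 - s₀ ≤ |R| + |s₀| := by
    have := (abs_le.1 hR2).2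
    have := neg_abs_le s₀
    have := le_abs_self R
    linarith
  have hB1nn : 0 ≤ B1 := by positivity
  have hlast : 0 ≤ M * (|R| + |s₀|) := by positivity
  constructor
  · rw [abs_of_nonneg hx]
    have h1 : M * ((γ x).2.1 - s₀) ≤ M * (|R| + |s₀|) := mul_le_mul_of_nonneg_left hs3 hMpos.le
    have h2 : (γ x).1 ≤ |R| := ((le_abs_self _).trans hR1).trans (le_abs_self R)
    linarith
  · rw [abs_le]
    have := abs_nonneg R
    constructor <;> linarith

/-- properness of the Fermi coordinate map -/
theorem fermi_proper (Fl : Flow P) (s₀ R : ℝ) : ∃ B : ℝ, ∀ z : ℝ × ℝ,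
    ‖pos (Fl.φ z.1 (z.2, s₀, Real.pi / 2))‖ ≤ R → ‖z‖ ≤ B := by
  obtain ⟨B1, h1⟩ := fermi_proper_right P s₀ R
  obtain ⟨B2, h2⟩ := fermi_proper_right P (1 - s₀) (R + 1)
  refine ⟨max B1 B2, ?_⟩
  rintro ⟨x, τ⟩ hz
  simp only at hz
  have h0 := Fl.zero (τ, s₀, Real.pi / 2)
  rcases le_total 0 x with hx | hx
  · have h := h1 (fun x => Fl.φ x (τ, s₀, Real.pi / 2)) (Fl.deriv _)
      (by simp only [h0]) (by simp only [h0]; simp) (by simp only [h0]; simp) x hx hz
    simp only [h0] at h
    refine max_le ?_ ?_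
    · exact h.1.trans (le_max_left _ _)
    · exact h.2.trans (le_max_left _ _)
  · have h := h2 _ (JE.reverse P _ (Fl.deriv (τ, s₀, Real.pi / 2)))
      (by simp only [neg_zero, h0]) (by simp only [neg_zero, h0]; simp [Real.cos_pi_sub])
      (by simp only [neg_zero, h0]; simp [Real.sin_pi_sub]) (-x) (by linarith) ?_
    · simp only [neg_zero, h0, abs_neg] at h
      refine max_le ?_ ?_
      · exact h.1.trans (le_max_right _ _)
      · exact h.2.trans (le_max_right _ _)
    · simp only [neg_neg]
      have e1 : |(Fl.φ x (τ, s₀, Real.pi / 2)).1| ≤ R := (norm_fst_le (pos _)).trans hz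
      have e2 : |(Fl.φ x (τ, s₀, Real.pi / 2)).2.1| ≤ R := (norm_snd_le (pos _)).trans hz
      refine max_le ?_ ?_
      · change |(Fl.φ x (τ, s₀, Real.pi / 2)).1| ≤ R + 1
        linarith
      · change |1 - (Fl.φ x (τ, s₀, Real.pi / 2)).2.1| ≤ R + 1
        rw [abs_le] at e2 ⊢
        constructor <;> linarith [e2.1, e2.2]

end Pool.Agent.Helper10.Asy.JG
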