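import Mathlib
import Pool.Agent.Helper10.Asy.Base

open scoped ContDiff Topology
open Set Filter

noncomputable section

namespace Pool.Agent.Helper10.Asy.JH

variable (P : Prof)

/-- Hadamard's global inverse function theorem in the plane -/
theorem global_inverse (Φ : ℝ × ℝ → ℝ × ℝ) (hΦ : ContDiff ℝ 1 Φ)
    (hdet : ∀ z, (fderiv ℝ Φ z).det ≠ 0) (hprop : ∀ R, ∃ B, ∀ z, ‖Φ z‖ ≤ R → ‖z‖ ≤ B) :
    ∃ Ψ : ℝ × ℝ → ℝ × ℝ, ContDiff ℝ 1 Ψ ∧ (∀ z, Ψ (Φ z) = z) ∧ (∀ q, Φ (Ψ q) = q) := by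
  have hd : ∀ z, HasFDerivAt Φ
      (((fderiv ℝ Φ z).toContinuousLinearEquivOfDetNeZero (hdet z) : (ℝ × ℝ) ≃L[ℝ] (ℝ × ℝ)) :
        (ℝ × ℝ) →L[ℝ] (ℝ × ℝ)) z := by
    intro z
    rw [ContinuousLinearMap.coe_toContinuousLinearEquivOfDetNeZero]
    exact (hΦ.differentiable (by simp) z).hasFDerivAt
  have hloc : IsLocalHomeomorph Φ := by
    intro z
    refine ⟨(hΦ.contDiffAt (x := z)).toOpenPartialHomeomorph Φ (hd z) (by simp),
      ContDiffAt.mem_toOpenPartialHomeomorph_source _ _ _, ?_⟩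
    rw [ContDiffAt.toOpenPartialHomeomorph_coe]
  have hcont : Continuous Φ := hΦ.continuous
  have hproper : IsProperMap Φ := by
    rw [isProperMap_iff_tendsto_cocompact]
    refine ⟨hcont, ?_⟩
    rw [← Metric.cobounded_eq_cocompact, ← tendsto_norm_atTop_iff_cobounded, tendsto_atTop]
    intro R
    obtain ⟨B, hB⟩ := hprop R
    have h1 : ∀ᶠ z : ℝ × ℝ in Bornology.cobounded (ℝ × ℝ), B < ‖z‖ :=
      (tendsto_norm_cobounded_atTop (E := ℝ × ℝ)).eventually_gt_atTop B
    filter_upwards [h1] with z hz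
    by_contra hcon
    push Not at hcon
    exact absurd (hB z hcon.le) (not_le.2 hz)
  have hfin : ∀ x ∈ (univ : Set (ℝ × ℝ)), (Φ ⁻¹' {x}).Finite := by
    intro x _
    refine (hproper.isCompact_preimage isCompact_singleton).finite ?_
    refine IsDiscrete.of_openPartialHomeomorph Φ subset_rfl ?_
    intro e _
    obtain ⟨φ, hφ, h⟩ := hloc e
    exact ⟨φ, hφ, h.symm⟩
  have hcov : IsCoveringMap Φ := by
    rw [isCoveringMap_iff_isCoveringMapOn_univ]
    refine hproper.isClosedMap.isCoveringMapOn_of_isLocalHomeomorphOn hfin ?_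
    intro e _
    exact hloc e
  obtain ⟨F, ⟨hF0, hF⟩, -⟩ := hcov.existsUnique_continuousMap_lifts
    (ContinuousMap.id (ℝ × ℝ)) (Φ 0) 0 rfl
  have hright : ∀ q, Φ (F q) = q := fun q => congrFun hF q
  have hleft : ∀ z, F (Φ z) = z := by
    have h := hcov.eq_of_comp_eq (g₁ := fun z => F (Φ z)) (g₂ := fun z => z)
      (F.continuous.comp hcont) continuous_id (by
        funext z
        exact hright (Φ z)) 0 hF0
    exact fun z => congrFun h z
  let h : (ℝ × ℝ) ≃ₜ (ℝ × ℝ) :=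
    { toFun := Φ
      invFun := F
      left_inv := hleft
      right_inv := hright
      continuous_toFun := hcont
      continuous_invFun := F.continuous }
  refine ⟨F, ?_, hleft, hright⟩
  exact Homeomorph.contDiff_symm h hd hΦ


end Pool.Agent.Helper10.Asy.JH
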