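import Mathlib
import Pool.Agent.Helper10.Asy.Base

open scoped ContDiff Topology
open Set Filter

noncomputable section

namespace Pool.Agent.Helper10.Asy.JI

variable (P : Prof)

/-- Signed distance to the line `s = s₀` as a calibration of the geodesics which are horizontal
on this line. The hypotheses are the outputs of other lemmas. -/
theorem fermi_calib (Fl : Flow P) (s₀ : ℝ)
    (hvar : ∀ (p v : ℝ × ℝ × ℝ) (x : ℝ),
      HasDerivAt (fun x => fderiv ℝ (Fl.φ x) p v)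
        (fderiv ℝ P.V (Fl.φ x p) (fderiv ℝ (Fl.φ x) p v)) x)
    (hframe : ∀ (γ Y : ℝ → ℝ × ℝ × ℝ), P.IsGeod γ →
      (∀ x, HasDerivAt Y (fderiv ℝ P.V (γ x) (Y x)) x) → ∀ x : ℝ,
      HasDerivAt (fun x => (Y x).1 * Real.cos (γ x).2.2 +
        P.f (pos (γ x)) * (Y x).2.1 * Real.sin (γ x).2.2) 0 x ∧
      HasDerivAt (fun x => (Y x).1 * Real.sin (γ x).2.2 -
        P.f (pos (γ x)) * (Y x).2.1 * Real.cos (γ x).2.2)
        (-(Y x).2.2 - P.h (pos (γ x)) * P.f (pos (γ x)) * (Y x).2.1) x ∧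
      HasDerivAt (fun x => -(Y x).2.2 - P.h (pos (γ x)) * P.f (pos (γ x)) * (Y x).2.1)
        (P.k (pos (γ x)) * ((Y x).1 * Real.sin (γ x).2.2 -
          P.f (pos (γ x)) * (Y x).2.1 * Real.cos (γ x).2.2)) x)
    (hpos : ∀ γ : ℝ → ℝ × ℝ × ℝ, P.IsGeod γ → Real.cos (γ 0).2.2 = 0 →
      Real.sin (γ 0).2.2 = 1 → ∀ J I : ℝ → ℝ, (∀ x, HasDerivAt J (I x) x) →
      (∀ x, HasDerivAt I (P.k (pos (γ x)) * J x) x) → J 0 = 1 → I 0 = 0 → ∀ x, 0 < J x)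
    (hprop : ∀ R, ∃ B : ℝ, ∀ z : ℝ × ℝ,
      ‖pos (Fl.φ z.1 (z.2, s₀, Real.pi / 2))‖ ≤ R → ‖z‖ ≤ B)
    (hinv : ∀ Φ : ℝ × ℝ → ℝ × ℝ, ContDiff ℝ 1 Φ → (∀ z, (fderiv ℝ Φ z).det ≠ 0) →
      (∀ R, ∃ B, ∀ z, ‖Φ z‖ ≤ R → ‖z‖ ≤ B) →
      ∃ Ψ : ℝ × ℝ → ℝ × ℝ, ContDiff ℝ 1 Ψ ∧ (∀ z, Ψ (Φ z) = z) ∧ (∀ q, Φ (Ψ q) = q)) :
    ∃ S : ℝ × ℝ → ℝ, ContDiff ℝ 1 S ∧ (∀ q v, (fderiv ℝ S q v) ^ 2 ≤ P.nsq q v) ∧
      ∀ x τ : ℝ, S (pos (Fl.φ x (τ, s₀, Real.pi / 2))) = x := by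
  classical
  set Φ : ℝ × ℝ → ℝ × ℝ := fun z => pos (Fl.φ z.1 (z.2, s₀, Real.pi / 2)) with hΦdef
  set F : ℝ × (ℝ × ℝ × ℝ) → ℝ × ℝ × ℝ := fun z => Fl.φ z.1 z.2 with hFdef
  have hF2 : ContDiff ℝ 2 F := Fl.smooth
  have hFd : Differentiable ℝ F := hF2.differentiable (by norm_num)
  have hpos2 : ContDiff ℝ 2 pos := by
    unfold pos
    exact contDiff_fst.prodMk (contDiff_fst.comp contDiff_snd)
  have hin : ContDiff ℝ 2 (fun z : ℝ × ℝ => ((z.1, (z.2, s₀, Real.pi / 2)) : ℝ × (ℝ × ℝ × ℝ))) :=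
    contDiff_fst.prodMk (contDiff_snd.prodMk contDiff_const)
  have hΦ2 : ContDiff ℝ 2 Φ := hpos2.comp (hF2.comp hin)
  have hΦ1 : ContDiff ℝ 1 Φ := hΦ2.of_le (by norm_num)
  -- the derivative of `Φ`
  have hder : ∀ z v : ℝ × ℝ, fderiv ℝ Φ z v =
      v.1 • pos (P.V (Fl.φ z.1 (z.2, s₀, Real.pi / 2))) +
      v.2 • pos (fderiv ℝ (Fl.φ z.1) (z.2, s₀, Real.pi / 2) (1, 0, 0)) := by
    intro z v
    have hFz : HasFDerivAt F (fderiv ℝ F (z.1, (z.2, s₀, Real.pi / 2)))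
        (z.1, (z.2, s₀, Real.pi / 2)) := (hFd _).hasFDerivAt
    generalize fderiv ℝ F (z.1, (z.2, s₀, Real.pi / 2)) = D at hFz
    have e1 : P.V (Fl.φ z.1 (z.2, s₀, Real.pi / 2)) = D (1, 0) := by
      have h1 := Fl.deriv (z.2, s₀, Real.pi / 2) z.1
      have h2 : HasDerivAt (fun x : ℝ => ((x, (z.2, s₀, Real.pi / 2)) : ℝ × (ℝ × ℝ × ℝ)))
          (1, 0) z.1 := (hasDerivAt_id z.1).prodMk (hasDerivAt_const z.1 _)
      have h3 : HasDerivAt (fun x : ℝ => F (x, (z.2, s₀, Real.pi / 2))) (D (1, 0)) z.1 :=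
        HasFDerivAt.comp_hasDerivAt (l := F)
          (f := fun x : ℝ => ((x, (z.2, s₀, Real.pi / 2)) : ℝ × (ℝ × ℝ × ℝ))) z.1 hFz h2
      exact h1.unique h3
    have e2 : fderiv ℝ (Fl.φ z.1) (z.2, s₀, Real.pi / 2) (1, 0, 0) = D (0, (1, 0, 0)) := by
      have h2 : HasFDerivAt (fun q : ℝ × ℝ × ℝ => ((z.1, q) : ℝ × (ℝ × ℝ × ℝ)))
          (ContinuousLinearMap.inr ℝ ℝ (ℝ × ℝ × ℝ)) (z.2, s₀, Real.pi / 2) :=
        hasFDerivAt_prodMk_right z.1 _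
      have h3 : HasFDerivAt (fun q : ℝ × ℝ × ℝ => F (z.1, q))
          (D.comp (ContinuousLinearMap.inr ℝ ℝ (ℝ × ℝ × ℝ))) (z.2, s₀, Real.pi / 2) :=
        HasFDerivAt.comp (z.2, s₀, Real.pi / 2) hFz h2
      have h4 : fderiv ℝ (Fl.φ z.1) (z.2, s₀, Real.pi / 2) =
          D.comp (ContinuousLinearMap.inr ℝ ℝ (ℝ × ℝ × ℝ)) := h3.fderiv
      rw [h4]
      rfl
    have hpL : HasFDerivAt pos
        ((ContinuousLinearMap.fst ℝ ℝ (ℝ × ℝ)).prod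
          ((ContinuousLinearMap.fst ℝ ℝ ℝ).comp (ContinuousLinearMap.snd ℝ ℝ (ℝ × ℝ))))
        (F (z.1, (z.2, s₀, Real.pi / 2))) := by
      unfold pos
      exact ((ContinuousLinearMap.fst ℝ ℝ (ℝ × ℝ)).prod
        ((ContinuousLinearMap.fst ℝ ℝ ℝ).comp (ContinuousLinearMap.snd ℝ ℝ (ℝ × ℝ)))).hasFDerivAt
    have hinL : HasFDerivAt
        (fun z : ℝ × ℝ => ((z.1, (z.2, s₀, Real.pi / 2)) : ℝ × (ℝ × ℝ × ℝ)))
        ((ContinuousLinearMap.fst ℝ ℝ ℝ).prod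
          ((ContinuousLinearMap.snd ℝ ℝ ℝ).prod 0)) z :=
      hasFDerivAt_fst.prodMk (hasFDerivAt_snd.prodMk (hasFDerivAt_const _ _))
    have h5 := (hpL.comp z (hFz.comp z hinL)).fderiv
    have h6 : fderiv ℝ Φ z = _ := h5
    rw [h6]
    have e3 : ((ContinuousLinearMap.fst ℝ ℝ ℝ).prod
        ((ContinuousLinearMap.snd ℝ ℝ ℝ).prod (0 : ℝ × ℝ →L[ℝ] ℝ × ℝ))) v =
        v.1 • ((1, 0) : ℝ × (ℝ × ℝ × ℝ)) + v.2 • ((0, (1, 0, 0)) : ℝ × (ℝ × ℝ × ℝ)) := by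
      ext <;> simp
    rw [ContinuousLinearMap.comp_apply, ContinuousLinearMap.comp_apply, e3, map_add, map_smul,
      map_smul, ← e1, ← e2]
    unfold pos
    ext <;> simp
  -- the norm identity
  have hnorm : ∀ z : ℝ × ℝ, ∃ J : ℝ, 0 < J ∧ ∀ v : ℝ × ℝ,
      P.nsq (Φ z) (fderiv ℝ Φ z v) = v.1 ^ 2 + J ^ 2 * v.2 ^ 2 := by
    intro z
    obtain ⟨p, hp⟩ : ∃ p : ℝ × ℝ × ℝ, p = (z.2, s₀, Real.pi / 2) := ⟨_, rfl⟩
    obtain ⟨γ, hγ⟩ : ∃ γ : ℝ → ℝ × ℝ × ℝ, γ = fun x => Fl.φ x p := ⟨_, rfl⟩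
    obtain ⟨Y, hY⟩ : ∃ Y : ℝ → ℝ × ℝ × ℝ, Y = fun x => fderiv ℝ (Fl.φ x) p (1, 0, 0) :=
      ⟨_, rfl⟩
    have hgeo : P.IsGeod γ := by rw [hγ]; exact Fl.deriv p
    have hYd : ∀ x, HasDerivAt Y (fderiv ℝ P.V (γ x) (Y x)) x := by
      intro x
      rw [hY, hγ]
      exact hvar p (1, 0, 0) x
    have hfr := hframe γ Y hgeo hYd
    have hγ0 : γ 0 = p := by rw [hγ]; exact Fl.zero p
    have hY0 : Y 0 = (1, 0, 0) := by
      have h0 : Fl.φ 0 = id := by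
        funext q
        exact Fl.zero q
      rw [hY]
      show fderiv ℝ (Fl.φ 0) p (1, 0, 0) = (1, 0, 0)
      rw [h0, fderiv_id]
      rfl
    have hth : (γ 0).2.2 = Real.pi / 2 := by rw [hγ0, hp]
    have hc0 : Real.cos (γ 0).2.2 = 0 := by rw [hth, Real.cos_pi_div_two]
    have hs0 : Real.sin (γ 0).2.2 = 1 := by rw [hth, Real.sin_pi_div_two]
    have hJ := hpos γ hgeo hc0 hs0 _ _ (fun x => (hfr x).2.1) (fun x => (hfr x).2.2)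
      (by rw [hY0, hs0, hc0]; simp) (by rw [hY0]; simp) z.1
    have hm : (Y z.1).1 * Real.cos (γ z.1).2.2 +
        P.f (pos (γ z.1)) * (Y z.1).2.1 * Real.sin (γ z.1).2.2 = 0 := by
      have h1 : ∀ x, deriv (fun x => (Y x).1 * Real.cos (γ x).2.2 +
          P.f (pos (γ x)) * (Y x).2.1 * Real.sin (γ x).2.2) x = 0 := fun x => (hfr x).1.deriv
      have h2 : Differentiable ℝ (fun x => (Y x).1 * Real.cos (γ x).2.2 +
          P.f (pos (γ x)) * (Y x).2.1 * Real.sin (γ x).2.2) :=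
        fun x => (hfr x).1.differentiableAt
      have h3 := is_const_of_deriv_eq_zero h2 h1 z.1 0
      rw [h3, hY0, hc0]
      simp
    refine ⟨_, hJ, ?_⟩
    intro v
    have hg1 : Fl.φ z.1 (z.2, s₀, Real.pi / 2) = γ z.1 := by rw [hγ, hp]
    have hY1 : fderiv ℝ (Fl.φ z.1) (z.2, s₀, Real.pi / 2) (1, 0, 0) = Y z.1 := by rw [hY, hp]
    have hΦz : Φ z = pos (γ z.1) := by rw [hΦdef, ← hg1]
    rw [hder z v, hg1, hY1, hΦz]
    generalize γ z.1 = g at *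
    generalize Y z.1 = y at *
    have hfV : P.f (pos g) * (P.V g).2.1 = Real.sin g.2.2 := by
      unfold Prof.f Prof.V pos
      simp only
      rw [mul_comm, mul_assoc, ← Real.exp_add]
      simp
    have hV1 : (P.V g).1 = Real.cos g.2.2 := rfl
    have hsc := Real.sin_sq_add_cos_sq g.2.2
    have e : P.nsq (pos g) (v.1 • pos (P.V g) + v.2 • pos y) =
        (v.1 * (P.V g).1 + v.2 * y.1) ^ 2 +
        (v.1 * (P.f (pos g) * (P.V g).2.1) + v.2 * (P.f (pos g) * y.2.1)) ^ 2 := by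
      unfold Prof.nsq pos
      simp only [Prod.fst_add, Prod.snd_add, Prod.smul_fst, Prod.smul_snd, smul_eq_mul]
      ring
    rw [e, hfV, hV1]
    generalize P.f (pos g) = f at *
    generalize Real.cos g.2.2 = c at *
    generalize Real.sin g.2.2 = s at *
    linear_combination (v.1 ^ 2 - v.2 ^ 2 * (y.1 ^ 2 + (f * y.2.1) ^ 2)) * hsc +
      (2 * v.1 * v.2 + v.2 ^ 2 * (y.1 * c + f * y.2.1 * s)) * hm
  have hdet : ∀ z, (fderiv ℝ Φ z).det ≠ 0 := by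
    intro z h0
    obtain ⟨J, hJ, hn⟩ := hnorm z
    have h1 : LinearMap.det (fderiv ℝ Φ z : ℝ × ℝ →ₗ[ℝ] ℝ × ℝ) = 0 := h0
    have h2 := LinearMap.bot_lt_ker_of_det_eq_zero h1
    obtain ⟨v, hv, hv0⟩ := Submodule.exists_mem_ne_zero_of_ne_bot (ne_of_gt h2)
    have h3 : fderiv ℝ Φ z v = 0 := hv
    have h4 := hn v
    rw [h3] at h4
    have h5 : P.nsq (Φ z) 0 = 0 := by unfold Prof.nsq; simp
    rw [h5] at h4
    apply hv0
    have h6 : 0 < J ^ 2 := by positivity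
    have h7 : v.1 ^ 2 = 0 := by nlinarith [sq_nonneg v.1, sq_nonneg v.2, mul_nonneg h6.le (sq_nonneg v.2)]
    have h8 : J ^ 2 * v.2 ^ 2 = 0 := by linarith
    have h9 : v.2 ^ 2 = 0 := by
      rcases mul_eq_zero.1 h8 with h | h
      · exact absurd h h6.ne'
      · exact h
    ext
    · exact pow_eq_zero_iff (two_ne_zero) |>.1 h7
    · exact pow_eq_zero_iff (two_ne_zero) |>.1 h9
  obtain ⟨Ψ, hΨ, hΨΦ, hΦΨ⟩ := hinv Φ hΦ1 hdet hprop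
  refine ⟨fun q => (Ψ q).1, contDiff_fst.comp hΨ, ?_, fun x τ => ?_⟩
  · intro q v
    have hΨd : HasFDerivAt Ψ (fderiv ℝ Ψ q) q := (hΨ.differentiable (by norm_num) q).hasFDerivAt
    have hΦd : HasFDerivAt Φ (fderiv ℝ Φ (Ψ q)) (Ψ q) :=
      (hΦ1.differentiable (by norm_num) _).hasFDerivAt
    have h1 : fderiv ℝ Φ (Ψ q) (fderiv ℝ Ψ q v) = v := by
      have h2 : HasFDerivAt (Φ ∘ Ψ) ((fderiv ℝ Φ (Ψ q)).comp (fderiv ℝ Ψ q)) q :=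
        hΦd.comp q hΨd
      have h3 : Φ ∘ Ψ = id := by funext q; exact hΦΨ q
      rw [h3] at h2
      have h4 := h2.unique (hasFDerivAt_id q)
      have h5 := congrArg (fun A : ℝ × ℝ →L[ℝ] ℝ × ℝ => A v) h4
      exact h5
    have h6 : fderiv ℝ (fun q => (Ψ q).1) q v = (fderiv ℝ Ψ q v).1 := by
      have h7 : HasFDerivAt (fun q => (Ψ q).1)
          ((ContinuousLinearMap.fst ℝ ℝ ℝ).comp (fderiv ℝ Ψ q)) q :=
        hasFDerivAt_fst.comp q hΨd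
      rw [h7.fderiv]
      rfl
    rw [h6]
    obtain ⟨J, hJ, hn⟩ := hnorm (Ψ q)
    have h8 := hn (fderiv ℝ Ψ q v)
    rw [h1, hΦΨ q] at h8
    rw [h8]
    nlinarith [mul_nonneg (sq_nonneg J) (sq_nonneg (fderiv ℝ Ψ q v).2)]
  · show (Ψ (pos (Fl.φ x (τ, s₀, Real.pi / 2)))).1 = x
    have h := hΨΦ (x, τ)
    have h2 : Φ (x, τ) = pos (Fl.φ x (τ, s₀, Real.pi / 2)) := rfl
    rw [← h2, h]



end Pool.Agent.Helper10.Asy.JI
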