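import Mathlib
import Pool.Agent.Helper10.Asy.Base

open scoped ContDiff Topology
open Set Filter

noncomputable section

namespace Pool.Agent.Helper10.Asy.JJ

variable (P : Prof)

/-- calibration for a geodesic which is horizontal and points upwards at some time -/
theorem calib_aux (Fl : Flow P)
    (hfermi : ∀ s₀ : ℝ, ∃ S : ℝ × ℝ → ℝ, ContDiff ℝ 1 S ∧
      (∀ q v, (fderiv ℝ S q v) ^ 2 ≤ P.nsq q v) ∧
      ∀ x τ : ℝ, S (pos (Fl.φ x (τ, s₀, Real.pi / 2))) = x)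
    (γ : ℝ → ℝ × ℝ × ℝ) (hγ : P.IsGeod γ) (x₀ : ℝ) (hs : Real.sin (γ x₀).2.2 = 1) :
    ∃ S : ℝ × ℝ → ℝ, ContDiff ℝ 1 S ∧ (∀ q v, (fderiv ℝ S q v) ^ 2 ≤ P.nsq q v) ∧
      ∀ x : ℝ, S (pos (γ x)) = x := by
  obtain ⟨k, hk⟩ := Real.sin_eq_one_iff.1 hs
  obtain ⟨γ', hγ'⟩ : ∃ γ' : ℝ → ℝ × ℝ × ℝ,
      γ' = fun x => γ (x₀ + x) - (0, 0, (k : ℝ) * (2 * Real.pi)) := ⟨_, rfl⟩
  have h1 : ∀ x, (γ' x).1 = (γ (x₀ + x)).1 := by intro x; rw [hγ']; simp
  have h2 : ∀ x, (γ' x).2.1 = (γ (x₀ + x)).2.1 := by intro x; rw [hγ']; simp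
  have h3 : ∀ x, (γ' x).2.2 = (γ (x₀ + x)).2.2 - (k : ℝ) * (2 * Real.pi) := by
    intro x; rw [hγ']; simp
  have hV : ∀ x, P.V (γ' x) = P.V (γ (x₀ + x)) := by
    intro x
    unfold Prof.V
    rw [h1, h2, h3, Real.cos_sub_int_mul_two_pi, Real.sin_sub_int_mul_two_pi]
  have hg : P.IsGeod γ' := by
    intro x
    rw [hV]
    have h4 := (hγ (x₀ + x)).comp_const_add x₀ x
    rw [hγ']
    exact h4.sub_const _
  obtain ⟨S, hS1, hS2, hS3⟩ := hfermi (γ x₀).2.1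
  refine ⟨fun q => S q + x₀, hS1.add contDiff_const, ?_, ?_⟩
  · intro q v
    have : fderiv ℝ (fun q => S q + x₀) q = fderiv ℝ S q := fderiv_add_const x₀
    rw [this]
    exact hS2 q v
  · intro x
    have h5 := Fl.uniq γ' hg 0 (x - x₀)
    have h6 : γ' 0 = ((γ x₀).1, (γ x₀).2.1, Real.pi / 2) := by
      apply Prod.ext
      · rw [h1, add_zero]
      · apply Prod.ext
        · rw [h2, add_zero]
        · rw [h3, add_zero, ← hk]
          ring
    rw [h6, zero_add] at h5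
    have h7 := hS3 (x - x₀) (γ x₀).1
    rw [← h5] at h7
    have h8 : pos (γ' (x - x₀)) = pos (γ x) := by
      unfold pos
      rw [h1, h2, add_sub_cancel]
    rw [h8] at h7
    simp only
    rw [h7]
    ring

/-- every geodesic has a global calibration -/
theorem exists_calib (Fl : Flow P)
    (hfermi : ∀ s₀ : ℝ, ∃ S : ℝ × ℝ → ℝ, ContDiff ℝ 1 S ∧
      (∀ q v, (fderiv ℝ S q v) ^ 2 ≤ P.nsq q v) ∧
      ∀ x τ : ℝ, S (pos (Fl.φ x (τ, s₀, Real.pi / 2))) = x)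
    (hhor : ∀ γ : ℝ → ℝ × ℝ × ℝ, P.IsGeod γ → Real.sin (γ 0).2.2 ≠ 0 →
      ∃ x, Real.cos (γ x).2.2 = 0)
    (hvert : ∀ γ : ℝ → ℝ × ℝ × ℝ, P.IsGeod γ → ∀ x₀, Real.sin (γ x₀).2.2 = 0 →
      ∀ x, (γ x).2.2 = (γ x₀).2.2)
    (hrefl : ∀ γ : ℝ → ℝ × ℝ × ℝ, P.IsGeod γ →
      P.IsGeod (fun x => ((γ x).1, 1 - (γ x).2.1, -(γ x).2.2)))
    (γ : ℝ → ℝ × ℝ × ℝ) (hγ : P.IsGeod γ) :
    ∃ S : ℝ × ℝ → ℝ, ContDiff ℝ 1 S ∧ (∀ q v, (fderiv ℝ S q v) ^ 2 ≤ P.nsq q v) ∧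
      ∀ x : ℝ, S (pos (γ x)) = x := by
  by_cases h0 : Real.sin (γ 0).2.2 = 0
  · -- vertical geodesics
    have hth := hvert γ hγ 0 h0
    obtain ⟨ε, hε⟩ : ∃ ε, ε = Real.cos (γ 0).2.2 := ⟨_, rfl⟩
    have hε2 : ε * ε = 1 := by
      have := Real.sin_sq_add_cos_sq (γ 0).2.2
      rw [h0, ← hε] at this
      nlinarith
    have ht : ∀ x, HasDerivAt (fun x => (γ x).1) ε x := by
      intro x
      have h1 := (ContinuousLinearMap.fst ℝ ℝ (ℝ × ℝ)).hasFDerivAt.comp_hasDerivAt x (hγ x)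
      have h2 : (ContinuousLinearMap.fst ℝ ℝ (ℝ × ℝ)) (P.V (γ x)) = ε := by
        unfold Prof.V
        simp only [ContinuousLinearMap.coe_fst']
        rw [hth x, hε]
      rw [h2] at h1
      exact h1
    have hlin : ∀ x, (γ x).1 = (γ 0).1 + ε * x := by
      intro x
      have h1 : ∀ x, HasDerivAt (fun x => (γ x).1 - ε * x) 0 x := by
        intro x
        have h2 := (ht x).fun_sub ((hasDerivAt_id' x).const_mul ε)
        exact h2.congr_deriv (by ring)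
      have h3 := is_const_of_deriv_eq_zero (f := fun x => (γ x).1 - ε * x)
        (fun x => (h1 x).differentiableAt) (fun x => (h1 x).deriv) x 0
      simp only [mul_zero, sub_zero] at h3
      linarith
    have hSd : ∀ q : ℝ × ℝ, HasFDerivAt (fun q : ℝ × ℝ => ε * (q.1 - (γ 0).1))
        (ε • ContinuousLinearMap.fst ℝ ℝ ℝ) q := by
      intro q
      exact (hasFDerivAt_fst.sub_const _).const_mul ε
    refine ⟨fun q => ε * (q.1 - (γ 0).1), ?_, ?_, ?_⟩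
    · fun_prop
    · intro q v
      rw [(hSd q).fderiv]
      unfold Prof.nsq
      have h4 : (ε • ContinuousLinearMap.fst ℝ ℝ ℝ) v = ε * v.1 := by simp
      rw [h4]
      have h5 : (ε * v.1) ^ 2 = v.1 ^ 2 := by
        have : (ε * v.1) ^ 2 = (ε * ε) * v.1 ^ 2 := by ring
        rw [this, hε2, one_mul]
      rw [h5]
      nlinarith [sq_nonneg (P.f q * v.2)]
    · intro x
      unfold pos
      simp only
      rw [hlin x]
      have : ε * ((γ 0).1 + ε * x - (γ 0).1) = (ε * ε) * x := by ring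
      rw [this, hε2, one_mul]
  · obtain ⟨x₀, hx₀⟩ := hhor γ hγ h0
    have hs1 : Real.sin (γ x₀).2.2 = 1 ∨ Real.sin (γ x₀).2.2 = -1 := by
      have := Real.sin_sq_add_cos_sq (γ x₀).2.2
      rw [hx₀] at this
      have h1 : Real.sin (γ x₀).2.2 ^ 2 = 1 := by nlinarith
      have h2 : (Real.sin (γ x₀).2.2 - 1) * (Real.sin (γ x₀).2.2 + 1) = 0 := by nlinarith
      rcases mul_eq_zero.1 h2 with h3 | h3
      · left; linarith
      · right; linarith
    rcases hs1 with hs | hs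
    · exact calib_aux P Fl hfermi γ hγ x₀ hs
    · obtain ⟨S, hS1, hS2, hS3⟩ := calib_aux P Fl hfermi
        (fun x => ((γ x).1, 1 - (γ x).2.1, -(γ x).2.2)) (hrefl γ hγ) x₀
        (by simp only; rw [Real.sin_neg, hs]; norm_num)
      refine ⟨fun q => S (q.1, 1 - q.2), ?_, ?_, ?_⟩
      · exact hS1.comp (contDiff_fst.prodMk (contDiff_const.sub contDiff_snd))
      · intro q v
        have h1 : HasFDerivAt S (fderiv ℝ S (q.1, 1 - q.2)) (q.1, 1 - q.2) :=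
          (hS1.differentiable (by norm_num) _).hasFDerivAt
        have h2 : HasFDerivAt (fun q : ℝ × ℝ => (q.1, 1 - q.2))
            ((ContinuousLinearMap.fst ℝ ℝ ℝ).prod (-(ContinuousLinearMap.snd ℝ ℝ ℝ))) q :=
          hasFDerivAt_fst.prodMk (hasFDerivAt_snd.const_sub 1)
        have h3 : HasFDerivAt (fun q : ℝ × ℝ => S (q.1, 1 - q.2))
            ((fderiv ℝ S (q.1, 1 - q.2)).comp
              ((ContinuousLinearMap.fst ℝ ℝ ℝ).prod (-(ContinuousLinearMap.snd ℝ ℝ ℝ)))) q :=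
          HasFDerivAt.comp q h1 h2
        rw [h3.fderiv]
        have h4 := hS2 (q.1, 1 - q.2) (v.1, -v.2)
        have h5 : P.nsq (q.1, 1 - q.2) (v.1, -v.2) = P.nsq q v := by
          unfold Prof.nsq Prof.f
          simp only
          rw [P.a_symm]
          ring
        rw [h5] at h4
        exact h4
      · intro x
        have h6 := hS3 x
        unfold pos at *
        simp only at *
        exact h6


end Pool.Agent.Helper10.Asy.JJ
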