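import Mathlib
import Pool.Agent.Helper10.Asy.Base

open scoped ContDiff Topology
open Set Filter

noncomputable section

namespace Pool.Agent.Helper10.Asy.JK

variable (P : Prof)

theorem AK_W {J I Q Q' κ : ℝ → ℝ} (hJ : ∀ x, HasDerivAt J (I x) x)
    (hI : ∀ x, HasDerivAt I (κ x * J x) x) (hQ : ∀ x, HasDerivAt Q (Q' x) x)
    (hQ' : ∀ x, HasDerivAt Q' (κ x * Q x) x) (hpos : ∀ x, 0 < Q x)
    (hJ0 : J 0 = 0) (hI0 : I 0 = -1) {r : ℝ} (hr : r ≠ 0) : J r ≠ 0 := by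
  have hW : ∀ x, HasDerivAt (fun x => I x * Q x - J x * Q' x) 0 x := by
    intro x
    have h1 := ((hI x).mul (hQ x)).sub ((hJ x).mul (hQ' x))
    have e : κ x * J x * Q x + I x * Q' x - (I x * Q' x + J x * (κ x * Q x)) = 0 := by ring
    rw [e] at h1
    exact h1
  have hWc : ∀ x, I x * Q x - J x * Q' x = -Q 0 := by
    intro x
    have h1 := is_const_of_deriv_eq_zero (f := fun x => I x * Q x - J x * Q' x)
      (fun x => (hW x).differentiableAt) (fun x => (hW x).deriv) x 0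
    simp only [hJ0, hI0] at h1
    rw [h1]
    ring
  have hR : ∀ x, HasDerivAt (fun x => J x / Q x) (-Q 0 / Q x ^ 2) x := by
    intro x
    have h1 := (hJ x).div (hQ x) (hpos x).ne'
    rw [hWc x] at h1
    exact h1
  have hanti : StrictAnti (fun x => J x / Q x) := by
    apply strictAnti_of_deriv_neg
    intro x
    rw [(hR x).deriv]
    have h1 := hpos 0
    have h2 := hpos x
    have : 0 < Q 0 / Q x ^ 2 := by positivity
    rw [neg_div]
    linarith
  intro h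
  apply hr
  apply hanti.injective
  simp only []
  rw [h, hJ0, zero_div, zero_div]

/-- the exponential map based at a point has invertible derivative away from `0`. The hypotheses
are the outputs of other lemmas. -/
theorem exp_det (Fl : Flow P)
    (hvar : ∀ (p v : ℝ × ℝ × ℝ) (x : ℝ),
      HasDerivAt (fun x => fderiv ℝ (Fl.φ x) p v)
        (fderiv ℝ P.V (Fl.φ x p) (fderiv ℝ (Fl.φ x) p v)) x)
    (hframe : ∀ (γ Y : ℝ → ℝ × ℝ × ℝ), P.IsGeod γ →
      (∀ x, HasDerivAt Y (fderiv ℝ P.V (γ x) (Y x)) x) → ∀ x : ℝ,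
      HasDerivAt (fun x => (Y x).1 * Real.cos (γ x).2.2 +
        P.f (pos (γ x)) * (Y x).2.1 * Real.sin (γ x).2.2) 0 x ∧
      HasDerivAt (fun x => (Y x).1 * Real.sin (γ x).2.2 -
        P.f (pos (γ x)) * (Y x).2.1 * Real.cos (γ x).2.2)
        (-(Y x).2.2 - P.h (pos (γ x)) * P.f (pos (γ x)) * (Y x).2.1) x ∧
      HasDerivAt (fun x => -(Y x).2.2 - P.h (pos (γ x)) * P.f (pos (γ x)) * (Y x).2.1)
        (P.k (pos (γ x)) * ((Y x).1 * Real.sin (γ x).2.2 -
          P.f (pos (γ x)) * (Y x).2.1 * Real.cos (γ x).2.2)) x)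
    (hpos : ∀ γ : ℝ → ℝ × ℝ × ℝ, P.IsGeod γ → Real.cos (γ 0).2.2 = 0 →
      Real.sin (γ 0).2.2 = 1 → ∀ J I : ℝ → ℝ, (∀ x, HasDerivAt J (I x) x) →
      (∀ x, HasDerivAt I (P.k (pos (γ x)) * J x) x) → J 0 = 1 → I 0 = 0 → ∀ x, 0 < J x)
    (hhor : ∀ γ : ℝ → ℝ × ℝ × ℝ, P.IsGeod γ → Real.sin (γ 0).2.2 ≠ 0 →
      ∃ x, Real.cos (γ x).2.2 = 0)
    (hvert : ∀ γ : ℝ → ℝ × ℝ × ℝ, P.IsGeod γ → ∀ x₀, Real.sin (γ x₀).2.2 = 0 →
      ∀ x, (γ x).2.2 = (γ x₀).2.2)
    (hrefl : ∀ γ : ℝ → ℝ × ℝ × ℝ, P.IsGeod γ →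
      P.IsGeod (fun x => ((γ x).1, 1 - (γ x).2.1, -(γ x).2.2)))
    (p : ℝ × ℝ) (z : ℝ × ℝ) (hz : z.1 ≠ 0) :
    (fderiv ℝ (fun z : ℝ × ℝ => pos (Fl.φ z.1 (p.1, p.2, z.2))) z).det ≠ 0 := by
  -- derivative of the flow at time zero
  have hY0 : ∀ q v : ℝ × ℝ × ℝ, fderiv ℝ (Fl.φ 0) q v = v := by
    intro q v
    have h1 : Fl.φ 0 = id := funext Fl.zero
    rw [h1, fderiv_id]
    rfl
  -- positive solution, horizontal case
  have hQ1 : ∀ γ : ℝ → ℝ × ℝ × ℝ, P.IsGeod γ → ∀ x0, Real.cos (γ x0).2.2 = 0 →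
      Real.sin (γ x0).2.2 = 1 → ∃ Q Q' : ℝ → ℝ, (∀ x, HasDerivAt Q (Q' x) x) ∧
      (∀ x, HasDerivAt Q' (P.k (pos (γ x)) * Q x) x) ∧ ∀ x, 0 < Q x := by
    intro γ hγ x0 hc hs
    obtain ⟨g, hg⟩ : ∃ g : ℝ → ℝ × ℝ × ℝ, g = fun x => Fl.φ x (γ x0) := ⟨_, rfl⟩
    have hgg : P.IsGeod g := by
      rw [hg]
      exact Fl.deriv (γ x0)
    have hg0 : g 0 = γ x0 := by
      rw [hg]
      exact Fl.zero (γ x0)
    have hgγ : ∀ x, g (x - x0) = γ x := by
      intro x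
      rw [hg]
      show Fl.φ (x - x0) (γ x0) = γ x
      rw [← Fl.uniq γ hγ x0 (x - x0)]
      congr 1
      ring
    obtain ⟨Y, hY⟩ : ∃ Y : ℝ → ℝ × ℝ × ℝ, Y = fun x => fderiv ℝ (Fl.φ x) (γ x0) (1, 0, 0) := ⟨_, rfl⟩
    have hYd : ∀ x, HasDerivAt Y (fderiv ℝ P.V (g x) (Y x)) x := by
      intro x
      rw [hY, hg]
      exact hvar (γ x0) (1, 0, 0) x
    have hYz : Y 0 = (1, 0, 0) := by
      rw [hY]
      exact hY0 _ _
    have hf := hframe g Y hgg hYd
    obtain ⟨J, hJ⟩ : ∃ J : ℝ → ℝ, J = fun x => (Y x).1 * Real.sin (g x).2.2 -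
        P.f (pos (g x)) * (Y x).2.1 * Real.cos (g x).2.2 := ⟨_, rfl⟩
    obtain ⟨I, hI⟩ : ∃ I : ℝ → ℝ, I = fun x => -(Y x).2.2 -
        P.h (pos (g x)) * P.f (pos (g x)) * (Y x).2.1 := ⟨_, rfl⟩
    have hJd : ∀ x, HasDerivAt J (I x) x := by
      intro x
      rw [hJ, hI]
      exact (hf x).2.1
    have hId : ∀ x, HasDerivAt I (P.k (pos (g x)) * J x) x := by
      intro x
      rw [hJ, hI]
      exact (hf x).2.2
    have hJ0 : J 0 = 1 := by
      rw [hJ]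
      simp only []
      rw [hYz, hg0, hs, hc]
      ring
    have hI0 : I 0 = 0 := by
      rw [hI]
      simp only []
      rw [hYz]
      ring
    have hJpos := hpos g hgg (by rw [hg0]; exact hc) (by rw [hg0]; exact hs) J I hJd hId hJ0 hI0
    refine ⟨fun x => J (x - x0), fun x => I (x - x0), ?_, ?_, fun x => hJpos _⟩
    · intro x
      exact (hJd (x - x0)).comp_sub_const x x0
    · intro x
      have h1 := (hId (x - x0)).comp_sub_const x x0
      rw [hgγ] at h1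
      exact h1
  -- positive solution, general case
  have hQ : ∀ γ : ℝ → ℝ × ℝ × ℝ, P.IsGeod γ → ∃ Q Q' : ℝ → ℝ, (∀ x, HasDerivAt Q (Q' x) x) ∧
      (∀ x, HasDerivAt Q' (P.k (pos (γ x)) * Q x) x) ∧ ∀ x, 0 < Q x := by
    intro γ hγ
    by_cases hs0 : Real.sin (γ 0).2.2 = 0
    · -- vertical geodesic
      have hθ := hvert γ hγ 0 hs0
      obtain ⟨c, hc⟩ : ∃ c, c = Real.cos (γ 0).2.2 := ⟨_, rfl⟩
      have hc2 : c ^ 2 = 1 := by
        have := Real.sin_sq_add_cos_sq (γ 0).2.2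
        rw [hs0, ← hc] at this
        linarith
      have hV : ∀ x, P.V (γ x) = (c, 0, 0) := by
        intro x
        unfold Prof.V
        rw [hθ x, hs0, ← hc]
        simp
      have ht : ∀ x, HasDerivAt (fun x => (γ x).1) c x := by
        intro x
        have h1 := hγ x
        rw [hV] at h1
        exact h1.fst
      have hsd : ∀ x, HasDerivAt (fun x => (γ x).2.1) 0 x := by
        intro x
        have h1 := hγ x
        rw [hV] at h1
        exact h1.snd.fst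
      have hsc : ∀ x, (γ x).2.1 = (γ 0).2.1 := by
        intro x
        exact is_const_of_deriv_eq_zero (f := fun x => (γ x).2.1)
          (fun x => (hsd x).differentiableAt) (fun x => (hsd x).deriv) x 0
      obtain ⟨b, hb⟩ : ∃ b, b = P.a (γ 0).2.1 := ⟨_, rfl⟩
      obtain ⟨Q, hQe⟩ : ∃ Q : ℝ → ℝ, Q = fun x => Real.exp (P.L (γ x).1 + b * (γ x).1) := ⟨_, rfl⟩
      have hQd : ∀ x, HasDerivAt Q (c * (P.H (γ x).1 + b) * Q x) x := by
        intro x
        have h1 : HasDerivAt (fun x => P.L (γ x).1) (P.H (γ x).1 * c) x :=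
          (P.dL (γ x).1).comp x (ht x)
        have h2 := (h1.add ((ht x).const_mul b)).exp
        rw [hQe]
        have e : c * (P.H (γ x).1 + b) * Real.exp (P.L (γ x).1 + b * (γ x).1) =
            Real.exp (P.L (γ x).1 + b * (γ x).1) * (P.H (γ x).1 * c + b * c) := by ring
        simp only []
        rw [e]
        exact h2
      have hQd2 : ∀ x, HasDerivAt (fun x => c * (P.H (γ x).1 + b) * Q x)
          (P.k (pos (γ x)) * Q x) x := by
        intro x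
        have hHd : HasDerivAt P.H (deriv P.H (γ x).1) (γ x).1 :=
          ((P.hH.differentiable (by simp)) (γ x).1).hasDerivAt
        have h1 : HasDerivAt (fun x => P.H (γ x).1) (deriv P.H (γ x).1 * c) x := hHd.comp x (ht x)
        have h2 := ((h1.add_const b).const_mul c).mul (hQd x)
        have e : P.k (pos (γ x)) * Q x = c * (deriv P.H (γ x).1 * c) * Q x +
            c * (P.H (γ x).1 + b) * (c * (P.H (γ x).1 + b) * Q x) := by
          unfold Prof.k pos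
          simp only []
          rw [hsc x, ← hb]
          have : c * (deriv P.H (γ x).1 * c) * Q x + c * (P.H (γ x).1 + b) * (c * (P.H (γ x).1 + b) * Q x) =
            c ^ 2 * (deriv P.H (γ x).1 + (P.H (γ x).1 + b) ^ 2) * Q x := by ring
          rw [this, hc2, one_mul]
        rw [e]
        exact h2
      refine ⟨Q, fun x => c * (P.H (γ x).1 + b) * Q x, hQd, hQd2, ?_⟩
      intro x
      rw [hQe]
      exact Real.exp_pos _
    · obtain ⟨x0, hx0⟩ := hhor γ hγ hs0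
      have hsq : Real.sin (γ x0).2.2 ^ 2 = 1 := by
        have := Real.sin_sq_add_cos_sq (γ x0).2.2
        rw [hx0] at this
        linarith
      have hsq' : Real.sin (γ x0).2.2 = 1 ∨ Real.sin (γ x0).2.2 = -1 := by
        have h1 : (Real.sin (γ x0).2.2 - 1) * (Real.sin (γ x0).2.2 + 1) = 0 := by linarith
        rcases mul_eq_zero.1 h1 with h | h
        · left; linarith
        · right; linarith
      rcases hsq' with h | h
      · exact hQ1 γ hγ x0 hx0 h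
      · obtain ⟨Q, Q', h1, h2, h3⟩ := hQ1 _ (hrefl γ hγ) x0 (by
          simp only []
          rw [Real.cos_neg]
          exact hx0) (by
          simp only []
          rw [Real.sin_neg, h]
          norm_num)
        refine ⟨Q, Q', h1, ?_, h3⟩
        intro x
        have h4 := h2 x
        have e : P.k (pos ((γ x).1, 1 - (γ x).2.1, -(γ x).2.2)) = P.k (pos (γ x)) := by
          unfold Prof.k pos
          simp only []
          rw [P.a_symm]
        rw [e] at h4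
        exact h4
  -- the geodesic and the variation field
  obtain ⟨r, hr⟩ : ∃ r, r = z.1 := ⟨_, rfl⟩
  obtain ⟨p0, hp0⟩ : ∃ p0 : ℝ × ℝ × ℝ, p0 = (p.1, p.2, z.2) := ⟨_, rfl⟩
  obtain ⟨γ, hγe⟩ : ∃ γ : ℝ → ℝ × ℝ × ℝ, γ = fun x => Fl.φ x p0 := ⟨_, rfl⟩
  have hγ : P.IsGeod γ := by
    rw [hγe]
    exact Fl.deriv p0
  obtain ⟨Y, hY⟩ : ∃ Y : ℝ → ℝ × ℝ × ℝ, Y = fun x => fderiv ℝ (Fl.φ x) p0 (0, 0, 1) := ⟨_, rfl⟩
  have hYd : ∀ x, HasDerivAt Y (fderiv ℝ P.V (γ x) (Y x)) x := by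
    intro x
    rw [hY, hγe]
    exact hvar p0 (0, 0, 1) x
  have hYz : Y 0 = (0, 0, 1) := by
    rw [hY]
    exact hY0 _ _
  have hf := hframe γ Y hγ hYd
  obtain ⟨Q, Q', hQd, hQd', hQpos⟩ := hQ γ hγ
  have hJr : (Y r).1 * Real.sin (γ r).2.2 - P.f (pos (γ r)) * (Y r).2.1 * Real.cos (γ r).2.2 ≠ 0 := by
    refine AK_W (J := fun x => (Y x).1 * Real.sin (γ x).2.2 -
        P.f (pos (γ x)) * (Y x).2.1 * Real.cos (γ x).2.2)
      (I := fun x => -(Y x).2.2 - P.h (pos (γ x)) * P.f (pos (γ x)) * (Y x).2.1)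
      (κ := fun x => P.k (pos (γ x))) (fun x => (hf x).2.1) (fun x => (hf x).2.2) hQd hQd' hQpos
      ?_ ?_ (by rw [hr]; exact hz)
    · rw [hYz]
      ring
    · rw [hYz]
      ring
  -- the derivative of the exponential map
  have hFd : Differentiable ℝ (fun z : ℝ × (ℝ × ℝ × ℝ) => Fl.φ z.1 z.2) :=
    Fl.smooth.differentiable (by norm_num)
  obtain ⟨E, hE⟩ : ∃ E : ℝ × ℝ → ℝ × ℝ, E = fun z : ℝ × ℝ => pos (Fl.φ z.1 (p.1, p.2, z.2)) :=
    ⟨_, rfl⟩
  have hEd : DifferentiableAt ℝ E z := by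
    rw [hE]
    have h1 : DifferentiableAt ℝ (fun z : ℝ × ℝ => (z.1, (p.1, p.2, z.2))) z := by fun_prop
    have h2 : DifferentiableAt ℝ (fun z : ℝ × ℝ => Fl.φ z.1 (p.1, p.2, z.2)) z :=
      DifferentiableAt.comp (g := fun z : ℝ × (ℝ × ℝ × ℝ) => Fl.φ z.1 z.2)
        (f := fun z : ℝ × ℝ => (z.1, (p.1, p.2, z.2))) z (hFd _) h1
    unfold pos
    exact h2.fst.prodMk h2.snd.fst
  have hfp : P.f (pos (γ r)) = Real.exp (P.L (γ r).1 + P.a (γ r).2.1 * (γ r).1) := rfl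
  have h10 : fderiv ℝ E z (1, 0) = (Real.cos (γ r).2.2, Real.sin (γ r).2.2 * (P.f (pos (γ r)))⁻¹) := by
    have h1 : HasDerivAt (fun x : ℝ => (x, z.2)) ((1 : ℝ), (0 : ℝ)) r :=
      (hasDerivAt_id r).prodMk (hasDerivAt_const r z.2)
    have hzr : ((r, z.2) : ℝ × ℝ) = z := by rw [hr]
    have h2 : HasDerivAt (fun x : ℝ => E (x, z.2)) (fderiv ℝ E z (1, 0)) r := by
      have h3 : HasFDerivAt E (fderiv ℝ E z) (r, z.2) := by
        rw [hzr]
        exact hEd.hasFDerivAt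
      exact h3.comp_hasDerivAt r h1
    have h4 : HasDerivAt (fun x : ℝ => E (x, z.2)) ((P.V (γ r)).1, (P.V (γ r)).2.1) r := by
      have h5 : HasDerivAt γ (P.V (γ r)) r := hγ r
      have h6 : (fun x : ℝ => E (x, z.2)) = fun x => ((γ x).1, (γ x).2.1) := by
        rw [hE, hγe, hp0]
        rfl
      rw [h6]
      exact h5.fst.prodMk h5.snd.fst
    rw [h2.unique h4]
    unfold Prof.V
    simp only []
    rw [hfp, Real.exp_neg]
  have h01 : fderiv ℝ E z (0, 1) = ((Y r).1, (Y r).2.1) := by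
    have h1 : HasDerivAt (fun x : ℝ => (z.1, x)) ((0 : ℝ), (1 : ℝ)) z.2 :=
      (hasDerivAt_const z.2 z.1).prodMk (hasDerivAt_id z.2)
    have h2 : HasDerivAt (fun x : ℝ => E (z.1, x)) (fderiv ℝ E z (0, 1)) z.2 :=
      HasFDerivAt.comp_hasDerivAt (l := E) (f := fun x : ℝ => (z.1, x)) z.2 hEd.hasFDerivAt h1
    have h3 : DifferentiableAt ℝ (Fl.φ r) p0 := by
      have h4 : DifferentiableAt ℝ (fun q : ℝ × ℝ × ℝ => (r, q)) p0 := by fun_prop
      exact DifferentiableAt.comp (g := fun z : ℝ × (ℝ × ℝ × ℝ) => Fl.φ z.1 z.2)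
        (f := fun q : ℝ × ℝ × ℝ => (r, q)) p0 (hFd _) h4
    have h4 : HasDerivAt (fun x : ℝ => (p.1, p.2, x)) ((0 : ℝ), (0 : ℝ), (1 : ℝ)) z.2 :=
      (hasDerivAt_const z.2 p.1).prodMk ((hasDerivAt_const z.2 p.2).prodMk (hasDerivAt_id z.2))
    have h5 : HasDerivAt (fun x : ℝ => Fl.φ r (p.1, p.2, x)) (fderiv ℝ (Fl.φ r) p0 (0, 0, 1)) z.2 := by
      refine HasFDerivAt.comp_hasDerivAt (l := Fl.φ r) (f := fun x : ℝ => (p.1, p.2, x)) z.2 ?_ h4
      rw [← hp0]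
      exact h3.hasFDerivAt
    have h6 : HasDerivAt (fun x : ℝ => E (z.1, x)) ((Y r).1, (Y r).2.1) z.2 := by
      have h7 : (fun x : ℝ => E (z.1, x)) = fun x => ((Fl.φ r (p.1, p.2, x)).1, (Fl.φ r (p.1, p.2, x)).2.1) := by
        rw [hE, hr]
        rfl
      rw [h7, hY]
      exact h5.fst.prodMk h5.snd.fst
    exact h2.unique h6
  rw [← hE]
  have hdet : (fderiv ℝ E z).det = (fderiv ℝ E z (1, 0)).1 * (fderiv ℝ E z (0, 1)).2 -
      (fderiv ℝ E z (0, 1)).1 * (fderiv ℝ E z (1, 0)).2 := by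
    generalize fderiv ℝ E z = D
    rw [ContinuousLinearMap.det, ← LinearMap.det_toMatrix (Module.Basis.finTwoProd ℝ), Matrix.det_fin_two]
    simp [LinearMap.toMatrix_apply]
  rw [hdet, h10, h01]
  simp only []
  have hfpos : 0 < P.f (pos (γ r)) := by rw [hfp]; exact Real.exp_pos _
  intro hcon
  apply hJr
  field_simp at hcon
  linarith


end Pool.Agent.Helper10.Asy.JK
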