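import Mathlib
import Pool.Agent.Helper10.Asy.Base

open scoped ContDiff Topology
open Set Filter

noncomputable section

namespace Pool.Agent.Helper10.Asy.JL

variable (P : Prof)


lemma L_le_zero (t : ℝ) : P.L t ≤ 0 := by
  rcases le_or_gt 0 t with ht | ht
  · rw [P.L_zero t ht]
  · have hm : Monotone P.L := by
      apply monotone_of_deriv_nonneg (fun x => (P.dL x).differentiableAt)
      intro x
      rw [(P.dL x).deriv]
      exact P.H_nonneg x
    have := hm ht.le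
    rw [P.L_zero 0 le_rfl] at this
    exact this

lemma f_le (p1 s : ℝ) : P.f (p1, s) ≤ Real.exp |p1| := by
  unfold Prof.f
  apply Real.exp_le_exp.mpr
  have h1 := L_le_zero P p1
  have h2 : P.a s * p1 ≤ |p1| := by
    have h3 : P.a s * p1 ≤ P.a s * |p1| :=
      mul_le_mul_of_nonneg_left (le_abs_self p1) (P.a_nonneg s)
    have h4 : P.a s * |p1| ≤ 1 * |p1| :=
      mul_le_mul_of_nonneg_right (P.a_le s) (abs_nonneg p1)
    linarith
  simp only
  linarith

lemma S_bound (S : ℝ × ℝ → ℝ) (hS : ContDiff ℝ 1 S)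
    (hn : ∀ q v, (fderiv ℝ S q v) ^ 2 ≤ P.nsq q v) (p q : ℝ × ℝ) :
    |S q - S p| ≤ |q.1 - p.1| + Real.exp |p.1| * |q.2 - p.2| := by
  have hd : ∀ x, HasFDerivAt S (fderiv ℝ S x) x := fun x =>
    ((hS.differentiable (by norm_num)) x).hasFDerivAt
  -- s direction
  have h1 : |S (p.1, q.2) - S (p.1, p.2)| ≤ Real.exp |p.1| * |q.2 - p.2| := by
    have hder : ∀ s : ℝ, HasDerivAt (fun s => S (p.1, s)) (fderiv ℝ S (p.1, s) (0, 1)) s := by
      intro s
      have hc : HasDerivAt (fun s : ℝ => ((p.1, s) : ℝ × ℝ)) ((0:ℝ), (1:ℝ)) s :=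
        (hasDerivAt_const s p.1).prodMk (hasDerivAt_id s)
      exact (hd (p.1, s)).comp_hasDerivAt s hc
    have := Convex.norm_image_sub_le_of_norm_hasDerivWithin_le (f := fun s => S (p.1, s))
      (f' := fun s => fderiv ℝ S (p.1, s) (0, 1)) (C := Real.exp |p.1|) (s := Set.univ)
      (x := p.2) (y := q.2) (fun x _ => (hder x).hasDerivWithinAt)
      (by
        intro x _
        have h2 := hn (p.1, x) (0, 1)
        have h3 : P.nsq (p.1, x) (0, 1) = (P.f (p.1, x)) ^ 2 := by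
          unfold Prof.nsq; simp
        rw [h3] at h2
        have hf0 : 0 ≤ P.f (p.1, x) := (Real.exp_pos _).le
        have h4 := abs_le_of_sq_le_sq h2 hf0
        rw [Real.norm_eq_abs]
        have h5 := f_le P p.1 x
        exact h4.trans h5)
      convex_univ (Set.mem_univ _) (Set.mem_univ _)
    simpa [Real.norm_eq_abs] using this
  have h2 : |S (q.1, q.2) - S (p.1, q.2)| ≤ |q.1 - p.1| := by
    have hder : ∀ t : ℝ, HasDerivAt (fun t => S (t, q.2)) (fderiv ℝ S (t, q.2) (1, 0)) t := by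
      intro t
      have hc : HasDerivAt (fun t : ℝ => ((t, q.2) : ℝ × ℝ)) ((1:ℝ), (0:ℝ)) t :=
        (hasDerivAt_id t).prodMk (hasDerivAt_const t q.2)
      exact (hd (t, q.2)).comp_hasDerivAt t hc
    have := Convex.norm_image_sub_le_of_norm_hasDerivWithin_le (f := fun t => S (t, q.2))
      (f' := fun t => fderiv ℝ S (t, q.2) (1, 0)) (C := 1) (s := Set.univ)
      (x := p.1) (y := q.1) (fun x _ => (hder x).hasDerivWithinAt)
      (by
        intro x _
        have h2 := hn (x, q.2) (1, 0)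
        have h3 : P.nsq (x, q.2) (1, 0) = 1 ^ 2 := by
          unfold Prof.nsq; simp
        rw [h3] at h2
        have h4 := abs_le_of_sq_le_sq h2 (by norm_num)
        rw [Real.norm_eq_abs]
        exact h4)
      convex_univ (Set.mem_univ _) (Set.mem_univ _)
    simpa [Real.norm_eq_abs] using this
  have h3 : S q - S p = (S (q.1, q.2) - S (p.1, q.2)) + (S (p.1, q.2) - S (p.1, p.2)) := by
    simp
  rw [h3]
  exact (abs_add_le _ _).trans (add_le_add h2 h1)

lemma geod_shift (Fl : Flow P) (p : ℝ × ℝ) (r θ : ℝ) (k : ℤ) :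
    pos (Fl.φ r (p.1, p.2, θ + k * (2 * Real.pi))) = pos (Fl.φ r (p.1, p.2, θ)) := by
  set γ : ℝ → ℝ × ℝ × ℝ := fun x => Fl.φ x (p.1, p.2, θ) + (0, 0, k * (2 * Real.pi)) with hγ
  have hg : P.IsGeod γ := by
    intro x
    have h := (Fl.deriv (p.1, p.2, θ) x).add_const (0, 0, (k:ℝ) * (2 * Real.pi))
    have hV : P.V (γ x) = P.V (Fl.φ x (p.1, p.2, θ)) := by
      simp only [hγ, Prof.V, Prod.fst_add, Prod.snd_add, add_zero]
      rw [Real.sin_add_int_mul_two_pi, Real.cos_add_int_mul_two_pi]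
    rw [hV]
    exact h
  have h1 := Fl.uniq γ hg 0 r
  have h0 : γ 0 = (p.1, p.2, θ + k * (2 * Real.pi)) := by
    simp [hγ, Fl.zero]
  rw [h0, zero_add] at h1
  rw [← h1]
  simp [hγ, pos]

/-- any two points are joined by a geodesic -/
theorem exists_join (Fl : Flow P)
    (hcal : ∀ γ : ℝ → ℝ × ℝ × ℝ, P.IsGeod γ → ∃ S : ℝ × ℝ → ℝ, ContDiff ℝ 1 S ∧
      (∀ q v, (fderiv ℝ S q v) ^ 2 ≤ P.nsq q v) ∧ ∀ x : ℝ, S (pos (γ x)) = x)
    (hdet : ∀ (p z : ℝ × ℝ), z.1 ≠ 0 →
      (fderiv ℝ (fun z : ℝ × ℝ => pos (Fl.φ z.1 (p.1, p.2, z.2))) z).det ≠ 0)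
    (p q : ℝ × ℝ) (hpq : p ≠ q) :
    ∃ r θ : ℝ, 0 < r ∧ pos (Fl.φ r (p.1, p.2, θ)) = q := by
  set Ψ : ℝ × ℝ → ℝ × ℝ := fun z : ℝ × ℝ => pos (Fl.φ z.1 (p.1, p.2, z.2)) with hΨ
  have hsm : ContDiff ℝ 2 Ψ := by
    have h1 : ContDiff ℝ 2 (fun z : ℝ × ℝ => ((z.1, ((p.1, p.2, z.2) : ℝ × ℝ × ℝ)) : ℝ × (ℝ × ℝ × ℝ))) := by
      fun_prop
    have h2 := Fl.smooth.comp h1
    have h3 : ContDiff ℝ 2 (fun w : ℝ × ℝ × ℝ => ((w.1, w.2.1) : ℝ × ℝ)) := by fun_prop
    exact h3.comp h2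
  have h00 : ∀ θ, Ψ (0, θ) = p := by
    intro θ
    simp [hΨ, Fl.zero, pos]
  -- the bound
  have hb : ∀ r θ : ℝ, |r| ≤ |(Ψ (r, θ)).1 - p.1| + Real.exp |p.1| * |(Ψ (r, θ)).2 - p.2| := by
    intro r θ
    obtain ⟨S, hS, hn, hx⟩ := hcal (fun x => Fl.φ x (p.1, p.2, θ)) (Fl.deriv _)
    have h1 := S_bound P S hS hn p (Ψ (r, θ))
    have h2 : S (Ψ (r, θ)) = r := hx r
    have h3 : S p = 0 := by
      have := hx 0
      have h4 := h00 θ
      simp only [hΨ] at h4
      rw [h4] at this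
      exact this
    rw [h2, h3, sub_zero] at h1
    exact h1
  set A : Set (ℝ × ℝ) := {w | w ≠ p ∧ ∃ z : ℝ × ℝ, 0 < z.1 ∧ Ψ z = w} with hA
  have hAo : IsOpen A := by
    rw [isOpen_iff_mem_nhds]
    rintro w ⟨hw, z, hz, rfl⟩
    have hst : HasStrictFDerivAt Ψ (fderiv ℝ Ψ z) z :=
      (hsm.contDiffAt).hasStrictFDerivAt (by norm_num)
    have hd := hdet p z hz.ne'
    have hsurj : (fderiv ℝ Ψ z).range = ⊤ := by
      rw [LinearMap.range_eq_top]
      intro y
      refine ⟨(ContinuousLinearMap.toContinuousLinearEquivOfDetNeZero _ hd).symm y, ?_⟩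
      have := (ContinuousLinearMap.toContinuousLinearEquivOfDetNeZero _ hd).apply_symm_apply y
      exact this
    have hmap := hst.map_nhds_eq_of_surj hsurj
    rw [← hmap]
    have hset : {z' : ℝ × ℝ | 0 < z'.1 ∧ Ψ z' ≠ p} ∈ 𝓝 z := by
      apply IsOpen.mem_nhds
      · exact (isOpen_lt continuous_const continuous_fst).inter
          (isOpen_ne.preimage hsm.continuous)
      · exact ⟨hz, hw⟩
    rw [Filter.mem_map]
    filter_upwards [hset] with z' hz'
    exact ⟨hz'.2, z', hz'.1, rfl⟩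
  have hne : ({p}ᶜ ∩ A).Nonempty := by
    refine ⟨Ψ (1, 0), ?_, ?_, (1, 0), by norm_num, rfl⟩
    · intro h
      have := hb 1 0
      rw [Set.mem_singleton_iff.mp h] at this
      simp at this
      linarith
    · intro h
      have := hb 1 0
      rw [h] at this
      simp at this
      linarith
  have hcl : closure A ∩ {p}ᶜ ⊆ A := by
    rintro w ⟨hw, hwp⟩
    rw [mem_closure_iff_seq_limit] at hw
    obtain ⟨u, hu, hlim⟩ := hw
    have hch : ∀ n, ∃ z : ℝ × ℝ, 0 < z.1 ∧ 0 ≤ z.2 ∧ z.2 ≤ 2 * Real.pi ∧ Ψ z = u n := by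
      intro n
      obtain ⟨_, z, hz, hzu⟩ := hu n
      have hpi : (0:ℝ) < 2 * Real.pi := by positivity
      refine ⟨(z.1, z.2 + ((-⌊z.2 / (2 * Real.pi)⌋ : ℤ) : ℝ) * (2 * Real.pi)), hz, ?_, ?_, ?_⟩
      · have h1 := Int.floor_le (z.2 / (2 * Real.pi))
        rw [le_div_iff₀ hpi] at h1
        push_cast
        linarith
      · have h1 := (Int.lt_floor_add_one (z.2 / (2 * Real.pi))).le
        rw [div_le_iff₀ hpi] at h1
        push_cast
        linarith
      · rw [← hzu]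
        exact geod_shift P Fl p z.1 z.2 _
    choose z hz1 hz2 hz3 hz4 using hch
    -- bound of r
    have hbd : ∃ M : ℝ, ∀ n, (z n).1 ≤ M := by
      have hc : Tendsto (fun n => |(u n).1 - p.1| + Real.exp |p.1| * |(u n).2 - p.2|) atTop
          (𝓝 (|w.1 - p.1| + Real.exp |p.1| * |w.2 - p.2|)) := by
        have hcont : Continuous (fun v : ℝ × ℝ => |v.1 - p.1| + Real.exp |p.1| * |v.2 - p.2|) := by
          fun_prop
        exact (hcont.tendsto w).comp hlim
      obtain ⟨M, hM⟩ := hc.bddAbove_range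
      refine ⟨M, fun n => ?_⟩
      have h1 := hb (z n).1 (z n).2
      have h2 : Ψ ((z n).1, (z n).2) = u n := hz4 n
      rw [h2] at h1
      exact (le_abs_self _).trans (h1.trans (hM (Set.mem_range_self n)))
    obtain ⟨M, hM⟩ := hbd
    have hcomp : IsCompact (Set.Icc (0:ℝ) M ×ˢ Set.Icc (0:ℝ) (2 * Real.pi)) :=
      isCompact_Icc.prod isCompact_Icc
    obtain ⟨y, hy, ψ, hψ, hconv⟩ := hcomp.tendsto_subseq (x := z)
      (fun n => ⟨⟨(hz1 n).le, hM n⟩, ⟨hz2 n, hz3 n⟩⟩)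
    have hΨy : Ψ y = w := by
      have h1 : Tendsto (fun n => Ψ (z (ψ n))) atTop (𝓝 (Ψ y)) :=
        (hsm.continuous.tendsto y).comp hconv
      have h2 : Tendsto (fun n => Ψ (z (ψ n))) atTop (𝓝 w) := by
        have : (fun n => Ψ (z (ψ n))) = fun n => u (ψ n) := by
          funext n; exact hz4 _
        rw [this]
        exact hlim.comp hψ.tendsto_atTop
      exact tendsto_nhds_unique h1 h2
    refine ⟨hwp, y, ?_, hΨy⟩
    rcases lt_or_eq_of_le hy.1.1 with h | h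
    · exact h
    · exfalso
      apply hwp
      have h1 : y = (0, y.2) := by
        ext
        · exact h.symm
        · rfl
      rw [← hΨy, h1]
      exact h00 _
  have hconn : IsPreconnected ({p}ᶜ : Set (ℝ × ℝ)) := by
    have hr : 1 < Module.rank ℝ (ℝ × ℝ) := by
      have h2 : Module.rank ℝ (ℝ × ℝ) = 2 := by
        rw [rank_prod']
        simp
        norm_num
      rw [h2]
      exact Cardinal.one_lt_two
    exact (isConnected_compl_singleton_of_one_lt_rank hr p).isPreconnected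
  have hsub := hconn.subset_of_closure_inter_subset hAo hne hcl
  obtain ⟨_, z, hz, hzq⟩ := hsub (show q ∈ ({p}ᶜ : Set (ℝ × ℝ)) from fun h => hpq (by simpa using h.symm))
  exact ⟨z.1, z.2, hz, hzq⟩


end Pool.Agent.Helper10.Asy.JL
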