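import Mathlib
import Pool.Agent.Helper10.Asy.Base

open scoped ContDiff Topology
open Set Filter

noncomputable section

namespace Pool.Agent.Helper10.Asy.JM

variable (P : Prof)


open Bundle Bornology MeasureTheory Manifold
open scoped ENNReal NNReal Manifold

/-- the model vector space -/
abbrev E2 : Type := EuclideanSpace ℝ (Fin 2)

/-- the manifold -/
def Mfd (_ : Prof) : Type := E2

instance : TopologicalSpace (Mfd P) := inferInstanceAs (TopologicalSpace E2)
instance : ChartedSpace E2 (Mfd P) := inferInstanceAs (ChartedSpace E2 E2)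
instance : IsManifold 𝓘(ℝ, E2) ∞ (Mfd P) := inferInstanceAs (IsManifold 𝓘(ℝ, E2) ∞ E2)
instance : T3Space (Mfd P) := inferInstanceAs (T3Space E2)
instance : PreconnectedSpace (Mfd P) := inferInstanceAs (PreconnectedSpace E2)

/-- first coordinate -/
def p0 : E2 →L[ℝ] ℝ := EuclideanSpace.proj 0
/-- second coordinate -/
def p1 : E2 →L[ℝ] ℝ := EuclideanSpace.proj 1

lemma p0_apply (v : E2) : p0 v = v 0 := rfl
lemma p1_apply (v : E2) : p1 v = v 1 := rfl

/-- the coordinates -/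
def cd (x : E2) : ℝ × ℝ := (x 0, x 1)

lemma contDiff_f : ContDiff ℝ ∞ P.f := by
  unfold Prof.f
  have h1 := P.hL
  have h2 := P.ha
  fun_prop

lemma contDiff_cd : ContDiff ℝ ∞ cd := by
  unfold cd
  fun_prop

lemma f_pos (q : ℝ × ℝ) : 0 < P.f q := Real.exp_pos _

/-- the inner product -/
def ginn (x : E2) : E2 →L[ℝ] E2 →L[ℝ] ℝ :=
  p0.smulRight p0 + (P.f (cd x)) ^ 2 • p1.smulRight p1

lemma ginn_apply (x v w : E2) : ginn P x v w = v 0 * w 0 + (P.f (cd x)) ^ 2 * (v 1 * w 1) := by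
  unfold ginn
  simp [p0_apply, p1_apply]

lemma contDiff_ginn : ContDiff ℝ ∞ (ginn P) := by
  have h1 : ContDiff ℝ ∞ (fun x => P.f (cd x) ^ 2) := ((contDiff_f P).comp contDiff_cd).pow 2
  rw [contDiff_clm_apply_iff]
  intro v
  rw [contDiff_clm_apply_iff]
  intro w
  simp only [ginn_apply]
  exact contDiff_const.add (h1.mul contDiff_const)

lemma ginn_pos (x v : E2) (hv : v ≠ 0) : 0 < ginn P x v v := by
  rw [ginn_apply]
  have hf := f_pos P (cd x)
  by_contra hcon
  push Not at hcon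
  apply hv
  have h1 : v 0 = 0 := by
    by_contra h
    have := mul_self_pos.2 h
    nlinarith [mul_self_nonneg (v 1), mul_nonneg (sq_nonneg (P.f (cd x))) (mul_self_nonneg (v 1))]
  have h2 : v 1 = 0 := by
    by_contra h
    have := mul_self_pos.2 h
    have : 0 < P.f (cd x) ^ 2 * (v 1 * v 1) := by positivity
    nlinarith [mul_self_nonneg (v 0)]
  ext i
  fin_cases i
  · exact h1
  · exact h2

lemma ginn_bdd (x : E2) : IsVonNBounded ℝ {v : E2 | ginn P x v v < 1} := by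
  rw [NormedSpace.isVonNBounded_iff]
  have hf := f_pos P (cd x)
  refine (Metric.isBounded_iff_subset_closedBall 0).2 ⟨1 + 1 / P.f (cd x), ?_⟩
  intro v hv
  simp only [mem_ofPred_eq, ginn_apply] at hv
  rw [mem_closedBall_zero_iff]
  have h0 : |v 0| ≤ 1 := by
    rw [abs_le_one_iff_mul_self_le_one]
    nlinarith [mul_nonneg (sq_nonneg (P.f (cd x))) (mul_self_nonneg (v 1))]
  have h1 : |P.f (cd x) * v 1| ≤ 1 := by
    rw [abs_le_one_iff_mul_self_le_one]
    nlinarith [mul_self_nonneg (v 0)]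
  rw [abs_mul, abs_of_pos hf] at h1
  have h2 : |v 1| ≤ 1 / P.f (cd x) := by
    rw [le_div_iff₀ hf]; linarith
  rw [EuclideanSpace.norm_eq, Fin.sum_univ_two]
  apply Real.sqrt_le_iff.2
  constructor
  · positivity
  · rw [Real.norm_eq_abs, Real.norm_eq_abs]
    have h3 : 0 ≤ 1 / P.f (cd x) := by positivity
    nlinarith [abs_nonneg (v 0), abs_nonneg (v 1)]

set_option backward.isDefEq.respectTransparency false in
/-- the Riemannian metric -/
def gE : ContMDiffRiemannianMetric 𝓘(ℝ, E2) ∞ E2 (fun x : E2 => TangentSpace 𝓘(ℝ, E2) x) where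
  inner x := ginn P x
  symm x v w := by
    change ginn P x v w = ginn P x w v
    rw [ginn_apply, ginn_apply]; ring
  pos x v hv := ginn_pos P x v hv
  isVonNBounded x := ginn_bdd P x
  contMDiff := by
    intro x
    rw [contMDiffAt_section]
    convert! (contDiff_ginn P).contMDiff.contMDiffAt
    ext v w
    simp [hom_trivializationAt_apply, ContinuousLinearMap.inCoordinates, TangentSpace]

/-- the Riemannian metric on the manifold -/
def gM : ContMDiffRiemannianMetric 𝓘(ℝ, E2) ∞ E2 (fun x : Mfd P => TangentSpace 𝓘(ℝ, E2) x) :=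
  gE P

/-- the Riemannian bundle structure. -/
@[reducible] def rb : RiemannianBundle (fun x : Mfd P => TangentSpace 𝓘(ℝ, E2) x) :=
  ⟨(gM P).toRiemannianMetric⟩

attribute [local instance] rb

instance cb' : IsContinuousRiemannianBundle E2 (fun x : Mfd P => TangentSpace 𝓘(ℝ, E2) x) :=
  ⟨(gM P).inner, (gM P).contMDiff.continuous, fun _ _ _ => rfl⟩

/-- identification with the model space -/
def toE (x : Mfd P) : E2 := x
/-- identification with the model space -/
def ofE (x : E2) : Mfd P := x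
/-- identification of the tangent space with the model space -/
def tv (x : Mfd P) (v : TangentSpace 𝓘(ℝ, E2) x) : E2 := v

lemma norm_eq (x : Mfd P) (v : TangentSpace 𝓘(ℝ, E2) x) :
    ‖v‖ = Real.sqrt (P.nsq (cd (toE P x)) (cd (tv P x v))) := by
  rw [norm_eq_sqrt_real_inner]
  congr 1
  refine (ginn_apply P x v v).trans ?_
  have key : ∀ (q : ℝ × ℝ) (u : E2), u 0 * u 0 + (P.f q) ^ 2 * (u 1 * u 1) = P.nsq q (cd u) := by
    intro q u
    unfold Prof.nsq cd
    simp only []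
    ring
  exact key _ _

/-- the extended metric. -/
@[reducible] def emM : EMetricSpace (Mfd P) := EMetricSpace.ofRiemannianMetric 𝓘(ℝ, E2) (Mfd P)

lemma edist_ne_top (x y : Mfd P) : (emM P).edist x y ≠ ⊤ := by
  let _ : EMetricSpace (Mfd P) := emM P
  have h1 : IsClopen (Metric.eball x ⊤) := ⟨Metric.isClosed_eball_top, Metric.isOpen_eball⟩
  have h3 : PreconnectedSpace (Mfd P) := inferInstance
  have h2 : Metric.eball x ⊤ = univ := by
    apply h1.eq_univ
    exact ⟨x, by simp⟩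
  have h4 : y ∈ Metric.eball x ⊤ := by rw [h2]; trivial
  have h5 : edist y x < ⊤ := h4
  rw [edist_comm] at h5
  exact h5.ne

/-- the Riemannian distance makes the manifold a metric space. -/
@[reducible] def mM : MetricSpace (Mfd P) := @EMetricSpace.toMetricSpace (Mfd P) (emM P) (edist_ne_top P)

lemma edist_mM (x y : Mfd P) : (mM P).toPseudoMetricSpace.toPseudoEMetricSpace.edist x y =
    riemannianEDist 𝓘(ℝ, E2) x y := rfl

lemma cd_ext {x y : E2} (h : cd x = cd y) : x = y := by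
  unfold cd at h
  ext i
  fin_cases i
  · exact congrArg Prod.fst h
  · exact congrArg Prod.snd h

/-- the inverse of the coordinates, continuous linear -/
def cdi : ℝ × ℝ →L[ℝ] E2 :=
  (EuclideanSpace.equiv (Fin 2) ℝ).symm.toContinuousLinearMap.comp
    (ContinuousLinearMap.pi (fun i : Fin 2 => if i = 0 then ContinuousLinearMap.fst ℝ ℝ ℝ
      else ContinuousLinearMap.snd ℝ ℝ ℝ))

lemma cd_cdi (q : ℝ × ℝ) : cd (cdi q) = q := by
  unfold cd cdi
  simp

lemma cdi_cd (x : E2) : cdi (cd x) = x := cd_ext (cd_cdi _)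

/-- coordinates, continuous linear -/
def cdL : E2 →L[ℝ] ℝ × ℝ := p0.prod p1

lemma cdL_apply (x : E2) : cdL x = cd x := rfl

/-- the homeomorphism -/
def hm : Mfd P ≃ₜ ℝ × ℝ where
  toFun x := cd (toE P x)
  invFun q := ofE P (cdi q)
  left_inv x := cdi_cd (toE P x)
  right_inv q := cd_cdi q
  continuous_toFun := contDiff_cd.continuous
  continuous_invFun := cdi.continuous

lemma hm_apply (x : Mfd P) : hm P x = cd (toE P x) := rfl
lemma hm_symm (q : ℝ × ℝ) : (hm P).symm q = ofE P (cdi q) := rfl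

instance ccb : IsContMDiffRiemannianBundle 𝓘(ℝ, E2) ∞ E2 (fun x : Mfd P => TangentSpace 𝓘(ℝ, E2) x) :=
  ⟨(gM P).inner, (gM P).contMDiff, fun _ _ _ => rfl⟩

lemma norm_mfd (c : ℝ → Mfd P) (s : Set ℝ) (t : ℝ) :
    ‖mfderivWithin 𝓘(ℝ, ℝ) 𝓘(ℝ, E2) c s t (1 : ℝ)‖ₑ =
      ENNReal.ofReal (Real.sqrt (P.nsq (cd (toE P (c t)))
        (cd (derivWithin (fun t => toE P (c t)) s t)))) := by
  rw [← ofReal_norm, norm_eq]
  congr 3
  have h1 : mfderivWithin 𝓘(ℝ, ℝ) 𝓘(ℝ, E2) (fun t => toE P (c t)) s t =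
    fderivWithin ℝ (fun t => toE P (c t)) s t := mfderivWithin_eq_fderivWithin
  have h3 : derivWithin (fun t => toE P (c t)) s t =
    fderivWithin ℝ (fun t => toE P (c t)) s t (1 : ℝ) := rfl
  rw [h3, ← h1]
  rfl

lemma norm_mfd' (c : ℝ → Mfd P) (t : ℝ) :
    ‖mfderiv 𝓘(ℝ, ℝ) 𝓘(ℝ, E2) c t (1 : ℝ)‖ₑ =
      ENNReal.ofReal (Real.sqrt (P.nsq (cd (toE P (c t))) (cd (deriv (fun t => toE P (c t)) t)))) := by
  rw [← mfderivWithin_univ, norm_mfd, derivWithin_univ]

lemma lower (S : ℝ × ℝ → ℝ) (hS : ContDiff ℝ 1 S)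
    (hb : ∀ q v, (fderiv ℝ S q v) ^ 2 ≤ P.nsq q v) (x y : Mfd P) :
    edist (S (cd (toE P x))) (S (cd (toE P y))) ≤ riemannianEDist 𝓘(ℝ, E2) x y := by
  apply le_of_forall_gt
  intro r hr
  obtain ⟨c, h0, h1, hc, hlt⟩ := exists_lt_of_riemannianEDist_lt hr
  rw [pathELength_eq_lintegral_mfderivWithin_Icc] at hlt
  refine lt_of_le_of_lt ?_ hlt
  have hcd : ContDiffOn ℝ 1 (fun t => toE P (c t)) (Icc 0 1) := by
    rw [← contMDiffOn_iff_contDiffOn]
    exact hc
  have hcd2 : ContDiffOn ℝ 1 (fun t => S (cdL (toE P (c t)))) (Icc 0 1) :=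
    hS.comp_contDiffOn (cdL.contDiff.comp_contDiffOn hcd)
  have key := enorm_sub_le_lintegral_derivWithin_Icc_of_contDiffOn_Icc hcd2 zero_le_one
  rw [edist_comm, edist_eq_enorm_sub, ← h0, ← h1]
  refine le_trans key ?_
  apply setLIntegral_mono' measurableSet_Icc (fun t ht ↦ ?_)
  refine le_trans ?_ (le_of_eq (norm_mfd P c (Icc 0 1) t).symm)
  have hu := uniqueDiffOn_Icc (zero_lt_one : (0:ℝ) < 1) t ht
  have d1 : HasDerivWithinAt (fun t => toE P (c t)) (derivWithin (fun t => toE P (c t)) (Icc 0 1) t)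
    (Icc 0 1) t := ((hcd.differentiableOn (by simp)) t ht).hasDerivWithinAt
  have d2 : HasDerivWithinAt (fun t => cdL (toE P (c t)))
    (cdL (derivWithin (fun t => toE P (c t)) (Icc 0 1) t))
    (Icc 0 1) t := cdL.hasFDerivAt.comp_hasDerivWithinAt t d1
  have d3 := ((hS.differentiable (by simp)) (cdL (toE P (c t)))).hasFDerivAt.comp_hasDerivWithinAt t d2
  have d4 := d3.derivWithin hu
  have d5 : derivWithin (fun t => S (cdL (toE P (c t)))) (Icc 0 1) t =
    fderiv ℝ S (cdL (toE P (c t))) (cdL (derivWithin (fun t => toE P (c t)) (Icc 0 1) t)) := d4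
  rw [d5, ← ofReal_norm]
  apply ENNReal.ofReal_le_ofReal
  rw [Real.norm_eq_abs]
  apply Real.le_sqrt_of_sq_le
  rw [sq_abs]
  exact hb _ _

lemma upper (c c' : ℝ → ℝ × ℝ) (a b K : ℝ) (hab : a ≤ b) (hK : 0 ≤ K)
    (hc : ∀ x, HasDerivAt c (c' x) x) (hc' : Continuous c')
    (hb : ∀ x ∈ Icc a b, P.nsq (c x) (c' x) ≤ K ^ 2) :
    riemannianEDist 𝓘(ℝ, E2) ((hm P).symm (c a)) ((hm P).symm (c b)) ≤
      ENNReal.ofReal (K * (b - a)) := by
  have hcd0 : ContDiff ℝ 1 c := by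
    rw [contDiff_one_iff_deriv]
    refine ⟨fun x => (hc x).differentiableAt, ?_⟩
    have : deriv c = c' := by
      funext x; exact (hc x).deriv
    rw [this]
    exact hc'
  have hcd : ContDiff ℝ 1 (fun t => cdi (c t)) := cdi.contDiff.comp hcd0
  have hcm : ContMDiffOn 𝓘(ℝ, ℝ) 𝓘(ℝ, E2) 1 (fun t : ℝ => (hm P).symm (c t)) (Icc a b) := by
    have : ContMDiffOn 𝓘(ℝ, ℝ) 𝓘(ℝ, E2) 1 (fun t : ℝ => cdi (c t)) (Icc a b) := by
      rw [contMDiffOn_iff_contDiffOn]
      exact hcd.contDiffOn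
    exact this
  refine (riemannianEDist_le_pathELength hcm rfl rfl hab).trans ?_
  rw [pathELength_eq_lintegral_mfderiv_Icc]
  have hd : ∀ t, deriv (fun t => cdi (c t)) t = cdi (c' t) := by
    intro t
    exact (cdi.hasFDerivAt.comp_hasDerivAt t (hc t)).deriv
  calc ∫⁻ t in Icc a b, ‖mfderiv 𝓘(ℝ, ℝ) 𝓘(ℝ, E2) (fun t : ℝ => (hm P).symm (c t)) t (1 : ℝ)‖ₑ
      ≤ ∫⁻ t in Icc a b, ENNReal.ofReal K := by
        apply setLIntegral_mono' measurableSet_Icc (fun t ht ↦ ?_)
        rw [norm_mfd']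
        apply ENNReal.ofReal_le_ofReal
        have h1 : cd (toE P ((hm P).symm (c t))) = c t := cd_cdi _
        have h2 : cd (deriv (fun t => toE P ((hm P).symm (c t))) t) = c' t := by
          have : deriv (fun t => toE P ((hm P).symm (c t))) t = cdi (c' t) := hd t
          rw [this, cd_cdi]
        rw [h1, h2]
        exact Real.sqrt_le_iff.2 ⟨hK, hb t ht⟩
    _ = ENNReal.ofReal (K * (b - a)) := by
        rw [setLIntegral_const, Real.volume_Icc, ENNReal.ofReal_mul hK]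

open Bundle in
open scoped Manifold in
/-- the Riemannian manifold `(ℝ², dt² + f² ds²)`. -/
theorem exists_model : ∃ (M : Type) (_ : MetricSpace M)
    (_ : ChartedSpace (EuclideanSpace ℝ (Fin 2)) M)
    (_ : IsManifold (𝓘(ℝ, EuclideanSpace ℝ (Fin 2))) ∞ M)
    (_ : RiemannianBundle (fun x : M => TangentSpace (𝓘(ℝ, EuclideanSpace ℝ (Fin 2))) x))
    (_ : IsContMDiffRiemannianBundle (𝓘(ℝ, EuclideanSpace ℝ (Fin 2))) ∞
      (EuclideanSpace ℝ (Fin 2))
      (fun x : M => TangentSpace (𝓘(ℝ, EuclideanSpace ℝ (Fin 2))) x))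
    (_ : IsRiemannianManifold (𝓘(ℝ, EuclideanSpace ℝ (Fin 2))) M)
    (e : M ≃ₜ ℝ × ℝ),
    (∀ S : ℝ × ℝ → ℝ, ContDiff ℝ 1 S → (∀ q v, (fderiv ℝ S q v) ^ 2 ≤ P.nsq q v) →
      ∀ x y : M, |S (e x) - S (e y)| ≤ dist x y) ∧
    (∀ (c c' : ℝ → ℝ × ℝ) (a b K : ℝ), a ≤ b → 0 ≤ K → (∀ x, HasDerivAt c (c' x) x) →
      Continuous c' → (∀ x ∈ Icc a b, P.nsq (c x) (c' x) ≤ K ^ 2) →
      dist (e.symm (c a)) (e.symm (c b)) ≤ K * (b - a)) := by
  refine ⟨Mfd P, mM P, inferInstanceAs (ChartedSpace E2 (Mfd P)),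
    inferInstanceAs (IsManifold 𝓘(ℝ, E2) ∞ (Mfd P)), rb P, ccb P, ?_, hm P, ?_, ?_⟩
  · let _ : MetricSpace (Mfd P) := mM P
    exact ⟨fun _ _ => rfl⟩
  · intro S hS hb x y
    have h := lower P S hS hb x y
    rw [← edist_mM] at h
    rw [← Real.dist_eq]
    have h2 : edist (S (cd (toE P x))) (S (cd (toE P y))) ≤
      @edist _ (mM P).toPseudoMetricSpace.toPseudoEMetricSpace.toEDist x y := h
    rw [edist_dist, @edist_dist _ (mM P).toPseudoMetricSpace] at h2
    exact (ENNReal.ofReal_le_ofReal_iff (@dist_nonneg _ (mM P).toPseudoMetricSpace _ _)).1 h2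
  · intro c c' a b K hab hK hc hc' hb
    have h := upper P c c' a b K hab hK hc hc' hb
    rw [← edist_mM] at h
    have h2 : @edist _ (mM P).toPseudoMetricSpace.toPseudoEMetricSpace.toEDist
      ((hm P).symm (c a)) ((hm P).symm (c b)) ≤ ENNReal.ofReal (K * (b - a)) := h
    rw [@edist_dist _ (mM P).toPseudoMetricSpace] at h2
    exact (ENNReal.ofReal_le_ofReal_iff (mul_nonneg hK (by linarith))).1 h2


end Pool.Agent.Helper10.Asy.JM
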