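import Mathlib
import Pool.Agent.Helper10.Asy.Base

open scoped ContDiff Topology
open Set Filter

noncomputable section

namespace Pool.Agent.Helper10.Asy.JO

variable (P : Prof)

/-- `pos` as a continuous linear map -/
def posL : (ℝ × ℝ × ℝ) →L[ℝ] ℝ × ℝ :=
  (ContinuousLinearMap.fst ℝ ℝ (ℝ × ℝ)).prod
    ((ContinuousLinearMap.fst ℝ ℝ ℝ).comp (ContinuousLinearMap.snd ℝ ℝ (ℝ × ℝ)))

theorem posL_apply (p : ℝ × ℝ × ℝ) : posL p = pos p := rfl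

variable {P}

theorem shift_geod {σ : ℝ → ℝ × ℝ × ℝ} (h : P.IsGeod σ) (c : ℝ) :
    P.IsGeod (fun x => σ (x + c)) := by
  intro x
  have h1 := h (x + c)
  have h2 : HasDerivAt (fun x : ℝ => x + c) 1 x := (hasDerivAt_id x).add_const c
  have h3 := HasDerivAt.scomp (h := fun x : ℝ => x + c) x h1 h2
  rw [one_smul] at h3
  exact h3

theorem pos_deriv {σ : ℝ → ℝ × ℝ × ℝ} (h : P.IsGeod σ) (x : ℝ) :
    HasDerivAt (fun x => pos (σ x)) (pos (P.V (σ x))) x :=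
  posL.hasFDerivAt.comp_hasDerivAt x (h x)

theorem f_pos (q : ℝ × ℝ) : 0 < P.f q := Real.exp_pos _

theorem nsq_vel (p : ℝ × ℝ × ℝ) : P.nsq (pos p) (pos (P.V p)) = 1 := by
  unfold Prof.nsq Prof.f Prof.V pos
  simp only
  have h : Real.exp (P.L p.1 + P.a p.2.1 * p.1) *
      (Real.sin p.2.2 * Real.exp (-(P.L p.1 + P.a p.2.1 * p.1))) = Real.sin p.2.2 := by
    rw [mul_comm, mul_assoc, ← Real.exp_add]
    simp
  rw [h]
  exact Real.cos_sq_add_sin_sq _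

/-- two unit vectors on which a functional of norm at most one takes the value one are equal -/
theorem vel_eq {q v w : ℝ × ℝ} (A : ℝ × ℝ →L[ℝ] ℝ) (hA : ∀ v, (A v) ^ 2 ≤ P.nsq q v)
    (hv : P.nsq q v = 1) (hw : P.nsq q w = 1) (hAv : A v = 1) (hAw : A w = 1) : v = w := by
  have h1 := hA (v + w)
  rw [map_add, hAv, hAw] at h1
  unfold Prof.nsq at h1 hv hw
  have hf := f_pos (P := P) q
  simp only [Prod.fst_add, Prod.snd_add] at h1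
  have h2 : (v.1 - w.1) ^ 2 + (P.f q * v.2 - P.f q * w.2) ^ 2 ≤ 0 := by nlinarith
  have h3 : v.1 - w.1 = 0 := by
    have := sq_nonneg (P.f q * v.2 - P.f q * w.2)
    have h4 : (v.1 - w.1) ^ 2 ≤ 0 := by linarith
    exact pow_eq_zero_iff (two_ne_zero) |>.1 (le_antisymm h4 (sq_nonneg _))
  have h5 : P.f q * v.2 - P.f q * w.2 = 0 := by
    have := sq_nonneg (v.1 - w.1)
    have h4 : (P.f q * v.2 - P.f q * w.2) ^ 2 ≤ 0 := by linarith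
    exact pow_eq_zero_iff (two_ne_zero) |>.1 (le_antisymm h4 (sq_nonneg _))
  ext
  · linarith
  · have h6 : P.f q * v.2 = P.f q * w.2 := by linarith
    exact mul_left_cancel₀ hf.ne' h6

/-- geodesics with the same position and velocity have the same track -/
theorem track_eq (Fl : Flow P) {σ τ : ℝ → ℝ × ℝ × ℝ} (hσ : P.IsGeod σ) (hτ : P.IsGeod τ)
    {x₀ : ℝ} (hp : pos (σ x₀) = pos (τ x₀)) (hv : pos (P.V (σ x₀)) = pos (P.V (τ x₀))) (x : ℝ) :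
    pos (σ x) = pos (τ x) := by
  obtain ⟨p, hpdef⟩ : ∃ p, p = σ x₀ := ⟨_, rfl⟩
  obtain ⟨p', hp'def⟩ : ∃ p', p' = τ x₀ := ⟨_, rfl⟩
  rw [← hpdef, ← hp'def] at hp hv
  unfold pos Prof.V at hv
  unfold pos at hp
  rw [Prod.mk.injEq] at hp hv
  obtain ⟨a1, a2⟩ := hp
  obtain ⟨b1, b2⟩ := hv
  simp only at b1 b2
  rw [a1, a2] at b2
  have b3 : Real.sin p.2.2 = Real.sin p'.2.2 := mul_right_cancel₀ (Real.exp_pos _).ne' b2
  obtain ⟨k, hk⟩ := Real.Angle.angle_eq_iff_two_pi_dvd_sub.1 (Real.Angle.cos_sin_inj b1 b3)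
  have hgeo : P.IsGeod (fun x => τ x + (0, 0, (k : ℝ) * (2 * Real.pi))) := by
    intro y
    have h1 := (hτ y).add_const ((0 : ℝ), (0 : ℝ), (k : ℝ) * (2 * Real.pi))
    refine h1.congr_deriv ?_
    unfold Prof.V
    simp only [Prod.fst_add, Prod.snd_add, add_zero, Real.cos_add_int_mul_two_pi,
      Real.sin_add_int_mul_two_pi]
  have h2 := Fl.uniq σ hσ x₀ (x - x₀)
  have h3 := Fl.uniq _ hgeo x₀ (x - x₀)
  have h4 : σ x₀ = τ x₀ + (0, 0, (k : ℝ) * (2 * Real.pi)) := by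
    rw [← hpdef, ← hp'def]
    ext
    · simp [a1]
    · simp [a2]
    · simp only [Prod.snd_add]
      linarith
  rw [add_sub_cancel] at h2 h3
  rw [← h4, ← h2] at h3
  rw [← h3]
  unfold pos
  simp

/-- distances along geodesics -/
theorem dist_geod
    (hcal : ∀ γ : ℝ → ℝ × ℝ × ℝ, P.IsGeod γ → ∃ S : ℝ × ℝ → ℝ, ContDiff ℝ 1 S ∧
      (∀ q v, (fderiv ℝ S q v) ^ 2 ≤ P.nsq q v) ∧ ∀ x : ℝ, S (pos (γ x)) = x)
    {M : Type} [MetricSpace M] (e : M ≃ₜ ℝ × ℝ)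
    (hlow : ∀ S : ℝ × ℝ → ℝ, ContDiff ℝ 1 S → (∀ q v, (fderiv ℝ S q v) ^ 2 ≤ P.nsq q v) →
      ∀ x y : M, |S (e x) - S (e y)| ≤ dist x y)
    (hup : ∀ γ : ℝ → ℝ × ℝ × ℝ, P.IsGeod γ → ∀ x y : ℝ,
      dist (e.symm (pos (γ x))) (e.symm (pos (γ y))) ≤ |x - y|)
    {σ : ℝ → ℝ × ℝ × ℝ} (hσ : P.IsGeod σ) (x y : ℝ) :
    dist (e.symm (pos (σ x))) (e.symm (pos (σ y))) = |x - y| := by
  obtain ⟨S, hS1, hS2, hS3⟩ := hcal σ hσ
  have h1 := hlow S hS1 hS2 (e.symm (pos (σ x))) (e.symm (pos (σ y)))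
  rw [e.apply_symm_apply, e.apply_symm_apply, hS3, hS3] at h1
  exact le_antisymm (hup σ hσ x y) h1

theorem seg_geod (Fl : Flow P)
    (hcal : ∀ γ : ℝ → ℝ × ℝ × ℝ, P.IsGeod γ → ∃ S : ℝ × ℝ → ℝ, ContDiff ℝ 1 S ∧
      (∀ q v, (fderiv ℝ S q v) ^ 2 ≤ P.nsq q v) ∧ ∀ x : ℝ, S (pos (γ x)) = x)
    (hjoin : ∀ p q : ℝ × ℝ, p ≠ q → ∃ r θ : ℝ, 0 < r ∧ pos (Fl.φ r (p.1, p.2, θ)) = q)
    {M : Type} [MetricSpace M] (e : M ≃ₜ ℝ × ℝ)
    (hlow : ∀ S : ℝ × ℝ → ℝ, ContDiff ℝ 1 S → (∀ q v, (fderiv ℝ S q v) ^ 2 ≤ P.nsq q v) →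
      ∀ x y : M, |S (e x) - S (e y)| ≤ dist x y)
    (hup : ∀ γ : ℝ → ℝ × ℝ × ℝ, P.IsGeod γ → ∀ x y : ℝ,
      dist (e.symm (pos (γ x))) (e.symm (pos (γ y))) ≤ |x - y|)
    {γ : ℝ → M} {x1 x3 : ℝ} (h13 : x1 < x3)
    (hloc : ∀ s ∈ Icc x1 x3, ∀ u ∈ Icc x1 x3, dist (γ s) (γ u) = |s - u|) :
    ∃ τ : ℝ → ℝ × ℝ × ℝ, P.IsGeod τ ∧ ∀ x ∈ Icc x1 x3, e (γ x) = pos (τ x) := by
  have m1 : x1 ∈ Icc x1 x3 := left_mem_Icc.2 h13.le
  have m3 : x3 ∈ Icc x1 x3 := right_mem_Icc.2 h13.le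
  -- joining two points
  have hj : ∀ x2, x1 < x2 → x2 ≤ x3 → ∃ σ : ℝ → ℝ × ℝ × ℝ, P.IsGeod σ ∧ pos (σ 0) = e (γ x1) ∧
      pos (σ (x2 - x1)) = e (γ x2) := by
    intro x2 h12 h23
    have m2 : x2 ∈ Icc x1 x3 := ⟨h12.le, h23⟩
    have hd := hloc x1 m1 x2 m2
    have hne : e (γ x1) ≠ e (γ x2) := by
      intro h
      rw [e.injective h, dist_self] at hd
      have : x1 - x2 = 0 := abs_eq_zero.1 hd.symm
      linarith
    obtain ⟨r, θ, hr, hpos⟩ := hjoin _ _ hne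
    have hg : P.IsGeod (fun x => Fl.φ x ((e (γ x1)).1, (e (γ x1)).2, θ)) := Fl.deriv _
    have h0 : pos (Fl.φ 0 ((e (γ x1)).1, (e (γ x1)).2, θ)) = e (γ x1) := by
      rw [Fl.zero]; rfl
    have hdist := dist_geod hcal e hlow hup hg 0 r
    rw [h0, hpos, e.symm_apply_apply, e.symm_apply_apply, hd, zero_sub, abs_neg, abs_of_pos hr,
      abs_sub_comm, abs_of_pos (by linarith)] at hdist
    refine ⟨_, hg, h0, ?_⟩
    rw [hdist, hpos]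
  obtain ⟨σ, hσ, hσ0, hσr⟩ := hj x3 h13 le_rfl
  obtain ⟨S, hS1, hS2, hS3⟩ := hcal σ hσ
  have hSX : S (e (γ x1)) = 0 := by rw [← hσ0, hS3]
  have hSY : S (e (γ x3)) = x3 - x1 := by rw [← hσr, hS3]
  have hSd : Differentiable ℝ S := hS1.differentiable (by norm_num)
  have hcomp : ∀ (τ : ℝ → ℝ × ℝ × ℝ), P.IsGeod τ → ∀ x, HasDerivAt (fun x => S (pos (τ x)))
      (fderiv ℝ S (pos (τ x)) (pos (P.V (τ x)))) x := by
    intro τ hτ x
    exact (hSd (pos (τ x))).hasFDerivAt.comp_hasDerivAt x (pos_deriv hτ x)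
  have hσv : fderiv ℝ S (pos (σ 0)) (pos (P.V (σ 0))) = 1 := by
    have h1 := hcomp σ hσ 0
    have h2 : HasDerivAt (fun x => S (pos (σ x))) 1 0 := by
      have : (fun x => S (pos (σ x))) = fun x => x := funext hS3
      rw [this]
      exact hasDerivAt_id 0
    exact h1.unique h2
  refine ⟨fun x => σ (x + -x1), shift_geod hσ _, ?_⟩
  intro x2 hx2
  rcases hx2.1.eq_or_lt with h | h12
  · rw [← h]
    simp only [add_neg_cancel]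
    exact hσ0.symm
  obtain ⟨τ, hτ, hτ0, hτr⟩ := hj x2 h12 hx2.2
  have hZ1 := hlow S hS1 hS2 (γ x2) (γ x1)
  have hZ3 := hlow S hS1 hS2 (γ x3) (γ x2)
  rw [hloc x2 hx2 x1 m1, hSX, sub_zero, abs_of_pos (sub_pos.2 h12)] at hZ1
  rw [hloc x3 m3 x2 hx2, hSY, abs_of_nonneg (sub_nonneg.2 hx2.2)] at hZ3
  have hSZ : S (e (γ x2)) = x2 - x1 := by
    have a1 := (abs_le.1 hZ1).2
    have a2 := (abs_le.1 hZ3).2
    linarith
  -- `S` along `τ`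
  have hlip : ∀ x y, |S (pos (τ x)) - S (pos (τ y))| ≤ |x - y| := by
    intro x y
    have h1 := hlow S hS1 hS2 (e.symm (pos (τ x))) (e.symm (pos (τ y)))
    rw [e.apply_symm_apply, e.apply_symm_apply] at h1
    exact h1.trans (hup τ hτ x y)
  have hlin : ∀ x ∈ Icc 0 (x2 - x1), S (pos (τ x)) = x := by
    intro x hx
    have h1 := hlip x 0
    have h2 := hlip (x2 - x1) x
    rw [hτ0, hSX, sub_zero, sub_zero, abs_of_nonneg hx.1] at h1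
    rw [hτr, hSZ, abs_of_nonneg (sub_nonneg.2 hx.2)] at h2
    have a1 := (abs_le.1 h1).2
    have a2 := (abs_le.1 h2).2
    linarith
  have h21 : 0 < x2 - x1 := sub_pos.2 h12
  have hτv : fderiv ℝ S (pos (τ 0)) (pos (P.V (τ 0))) = 1 := by
    have h1 := (hcomp τ hτ 0).hasDerivWithinAt (s := Icc 0 (x2 - x1))
    have h2 : HasDerivWithinAt (fun x => S (pos (τ x))) 1 (Icc 0 (x2 - x1)) 0 :=
      (hasDerivWithinAt_id 0 (Icc 0 (x2 - x1))).congr hlin (hlin 0 (left_mem_Icc.2 h21.le))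
    exact UniqueDiffWithinAt.eq_deriv _ (uniqueDiffOn_Icc h21 0 (left_mem_Icc.2 h21.le)) h1 h2
  have hp : pos (σ 0) = pos (τ 0) := by rw [hσ0, hτ0]
  have hv : pos (P.V (σ 0)) = pos (P.V (τ 0)) := by
    apply vel_eq (P := P) (q := pos (τ 0)) (fderiv ℝ S (pos (τ 0))) (hS2 _) _ (nsq_vel _) _ hτv
    · rw [← hp]; exact nsq_vel _
    · rw [← hp]; exact hσv
  have htr := track_eq Fl hσ hτ hp hv (x2 - x1)
  simp only
  rw [← sub_eq_add_neg, htr, hτr]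

variable (P)

/-- a metric local geodesic is a global one -/
theorem local_geod (Fl : Flow P)
    (hcal : ∀ γ : ℝ → ℝ × ℝ × ℝ, P.IsGeod γ → ∃ S : ℝ × ℝ → ℝ, ContDiff ℝ 1 S ∧
      (∀ q v, (fderiv ℝ S q v) ^ 2 ≤ P.nsq q v) ∧ ∀ x : ℝ, S (pos (γ x)) = x)
    (hjoin : ∀ p q : ℝ × ℝ, p ≠ q → ∃ r θ : ℝ, 0 < r ∧ pos (Fl.φ r (p.1, p.2, θ)) = q)
    (M : Type) [MetricSpace M] (e : M ≃ₜ ℝ × ℝ)
    (hlow : ∀ S : ℝ × ℝ → ℝ, ContDiff ℝ 1 S → (∀ q v, (fderiv ℝ S q v) ^ 2 ≤ P.nsq q v) →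
      ∀ x y : M, |S (e x) - S (e y)| ≤ dist x y)
    (hup : ∀ γ : ℝ → ℝ × ℝ × ℝ, P.IsGeod γ → ∀ x y : ℝ,
      dist (e.symm (pos (γ x))) (e.symm (pos (γ y))) ≤ |x - y|)
    (γ : ℝ → M)
    (hγ : ∀ t : ℝ, ∃ ε > 0, ∀ s u : ℝ, |s - t| < ε → |u - t| < ε →
        dist (γ s) (γ u) = |s - u|) :
    ∀ s u : ℝ, dist (γ s) (γ u) = |s - u| := by
  -- local geodesics
  have hlocal : ∀ t : ℝ, ∃ τ : ℝ → ℝ × ℝ × ℝ, P.IsGeod τ ∧ ∃ δ > 0, ∀ x, |x - t| < δ →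
      e (γ x) = pos (τ x) := by
    intro t
    obtain ⟨ε, hε, h⟩ := hγ t
    obtain ⟨τ, hτ, hτ1⟩ := seg_geod Fl hcal hjoin e hlow hup (γ := γ) (x1 := t - ε / 2)
      (x3 := t + ε / 2) (by linarith) (by
        intro s hs u hu
        apply h
        · rw [abs_lt]; constructor <;> linarith [hs.1, hs.2]
        · rw [abs_lt]; constructor <;> linarith [hu.1, hu.2])
    refine ⟨τ, hτ, ε / 2, by linarith, fun x hx => hτ1 x ?_⟩
    rw [abs_lt] at hx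
    constructor <;> linarith [hx.1, hx.2]
  obtain ⟨τ₀, hτ₀, δ₀, hδ₀, hτ₀'⟩ := hlocal 0
  have hopen : IsOpen {t | ∀ᶠ x in 𝓝 t, e (γ x) = pos (τ₀ x)} := isOpen_setOfPred_eventually_nhds
  have hclosed : IsClosed {t | ∀ᶠ x in 𝓝 t, e (γ x) = pos (τ₀ x)} := by
    apply isClosed_of_closure_subset
    intro t ht
    obtain ⟨τ, hτ, δ, hδ, hτ'⟩ := hlocal t
    obtain ⟨t', ht', ht'd⟩ := Metric.mem_closure_iff.1 ht δ hδ
    rw [dist_comm, Real.dist_eq] at ht'd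
    have hev1 : ∀ᶠ x in 𝓝 t', e (γ x) = pos (τ₀ x) := ht'
    have hev2 : ∀ᶠ x in 𝓝 t', e (γ x) = pos (τ x) := by
      have hO : IsOpen {x : ℝ | |x - t| < δ} :=
        isOpen_lt (by fun_prop) continuous_const
      filter_upwards [hO.mem_nhds ht'd] with x hx
      exact hτ' x hx
    have hev : (fun x => pos (τ₀ x)) =ᶠ[𝓝 t'] fun x => pos (τ x) := by
      filter_upwards [hev1, hev2] with x h1 h2
      rw [← h1, h2]
    have hp : pos (τ₀ t') = pos (τ t') := hev.self_of_nhds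
    have hv : pos (P.V (τ₀ t')) = pos (P.V (τ t')) :=
      (pos_deriv hτ₀ t').unique ((pos_deriv hτ t').congr_of_eventuallyEq hev)
    have htr := track_eq Fl hτ₀ hτ hp hv
    show ∀ᶠ x in 𝓝 t, e (γ x) = pos (τ₀ x)
    have hO : IsOpen {x : ℝ | |x - t| < δ} :=
      isOpen_lt (by fun_prop) continuous_const
    filter_upwards [hO.mem_nhds (by simpa using hδ)] with x hx
    rw [hτ' x hx, htr]
  have huniv : {t | ∀ᶠ x in 𝓝 t, e (γ x) = pos (τ₀ x)} = univ := by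
    apply IsClopen.eq_univ ⟨hclosed, hopen⟩
    refine ⟨0, ?_⟩
    show ∀ᶠ x in 𝓝 0, e (γ x) = pos (τ₀ x)
    have hO : IsOpen {x : ℝ | |x - 0| < δ₀} :=
      isOpen_lt (by fun_prop) continuous_const
    filter_upwards [hO.mem_nhds (by simpa using hδ₀)] with x hx
    exact hτ₀' x hx
  have hall : ∀ x, e (γ x) = pos (τ₀ x) := by
    intro x
    have h1 : x ∈ {t | ∀ᶠ x in 𝓝 t, e (γ x) = pos (τ₀ x)} := by rw [huniv]; trivial
    have h2 : ∀ᶠ y in 𝓝 x, e (γ y) = pos (τ₀ y) := h1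
    exact h2.self_of_nhds
  intro s u
  have h1 := dist_geod hcal e hlow hup hτ₀ s u
  rw [← hall, ← hall, e.symm_apply_apply, e.symm_apply_apply] at h1
  exact h1


end Pool.Agent.Helper10.Asy.JO
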