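import Mathlib
import Pool.Agent.Helper10.Asy.Base
import Pool.Agent.Helper10.Asy.JA
import Pool.Agent.Helper10.Asy.JB
import Pool.Agent.Helper10.Asy.JC
import Pool.Agent.Helper10.Asy.JD
import Pool.Agent.Helper10.Asy.JE
import Pool.Agent.Helper10.Asy.JG
import Pool.Agent.Helper10.Asy.JH
import Pool.Agent.Helper10.Asy.JI
import Pool.Agent.Helper10.Asy.JJ
import Pool.Agent.Helper10.Asy.JK
import Pool.Agent.Helper10.Asy.JL
import Pool.Agent.Helper10.Asy.JM
import Pool.Agent.Helper10.Asy.JN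
import Pool.Agent.Helper10.Asy.JO

open scoped ContDiff Topology
open Set Filter

noncomputable section

namespace Pool.Agent.Helper10.Asy

variable (P : Prof)

/-! ### assembly -/

theorem hpos_all (γ : ℝ → ℝ × ℝ × ℝ) (hγ : P.IsGeod γ) (hc : Real.cos (γ 0).2.2 = 0)
    (hs : Real.sin (γ 0).2.2 = 1) (J I : ℝ → ℝ) (hJ : ∀ x, HasDerivAt J (I x) x)
    (hI : ∀ x, HasDerivAt I (P.k (pos (γ x)) * J x) x) (hJ0 : J 0 = 1) (hI0 : I 0 = 0) :
    ∀ x, 0 < J x := by
  intro x
  rcases le_total 0 x with hx | hx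
  · exact JD.jacobi_pos P γ hγ hc hs J I hJ hI hJ0 hI0 x hx
  · have h := JD.jacobi_pos P _ (JE.reverse P γ hγ) (by simp [Real.cos_pi_sub, hc])
      (by simp [Real.sin_pi_sub, hs]) (fun x => J (-x)) (fun x => - I (-x)) ?_ ?_
      (by simp [hJ0]) (by simp [hI0]) (-x) (by linarith)
    · simpa using h
    · intro y
      have := (hJ (-y)).scomp y (hasDerivAt_neg y)
      simp only [Function.comp_def, neg_smul, one_smul] at this
      exact this
    · intro y
      have := ((hI (-y)).scomp y (hasDerivAt_neg y)).neg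
      have hk : P.k (pos ((γ (-y)).1, 1 - (γ (-y)).2.1, Real.pi - (γ (-y)).2.2)) =
          P.k (pos (γ (-y))) := by
        simp [Prof.k, pos, P.a_symm]
      rw [hk]
      simp only [Function.comp_def, neg_smul, one_smul, neg_neg] at this
      exact this

theorem calib_all (Fl : Flow P) (γ : ℝ → ℝ × ℝ × ℝ) (hγ : P.IsGeod γ) :
    ∃ S : ℝ × ℝ → ℝ, ContDiff ℝ 1 S ∧
      (∀ q v, (fderiv ℝ S q v) ^ 2 ≤ P.nsq q v) ∧ ∀ x : ℝ, S (pos (γ x)) = x := by
  refine JJ.exists_calib P Fl (fun s₀ => ?_) (JE.exists_horizontal P) (JE.sin_zero_of_zero P) (JE.reflect P)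
    γ hγ
  exact JI.fermi_calib P Fl s₀ (JC.variation_lin P Fl) (JC.variation_frame P) (hpos_all P)
    (JG.fermi_proper P Fl s₀) JH.global_inverse

theorem join_all (Fl : Flow P) (p q : ℝ × ℝ) (hpq : p ≠ q) :
    ∃ r θ : ℝ, 0 < r ∧ pos (Fl.φ r (p.1, p.2, θ)) = q := by
  refine JL.exists_join P Fl (calib_all P Fl) (fun p z hz => ?_) p q hpq
  exact JK.exp_det P Fl (JC.variation_lin P Fl) (JC.variation_frame P) (hpos_all P)
    (JE.exists_horizontal P) (JE.sin_zero_of_zero P) (JE.reflect P) p z hz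

lemma nsq_V (p : ℝ × ℝ × ℝ) : P.nsq (pos p) ((P.V p).1, (P.V p).2.1) = 1 := by
  simp only [Prof.nsq, Prof.V, Prof.f, pos]
  have h : Real.exp (P.L p.1 + P.a p.2.1 * p.1) *
      (Real.sin p.2.2 * Real.exp (-(P.L p.1 + P.a p.2.1 * p.1))) = Real.sin p.2.2 := by
    rw [mul_comm (Real.sin p.2.2), ← mul_assoc, ← Real.exp_add]
    simp
  rw [h]
  exact Real.cos_sq_add_sin_sq _

lemma pos_hasDerivAt {γ : ℝ → ℝ × ℝ × ℝ} (hγ : P.IsGeod γ) (x : ℝ) :
    HasDerivAt (fun x => pos (γ x)) ((P.V (γ x)).1, (P.V (γ x)).2.1) x := by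
  have h := hγ x
  exact h.fst.prodMk h.snd.fst

lemma L_nonpos (t : ℝ) : P.L t ≤ 0 := by
  rcases le_total 0 t with h | h
  · exact (P.L_zero t h).le
  · have hm : Monotone P.L := monotone_of_deriv_nonneg (fun t => (P.dL t).differentiableAt)
      (fun t => by rw [(P.dL t).deriv]; exact P.H_nonneg t)
    exact (hm h).trans (P.L_zero 0 le_rfl).le

lemma continuous_V : Continuous P.V := by
  have h1 := P.hL.continuous
  have h2 := P.hH.continuous
  have h3 := P.ha.continuous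
  unfold Prof.V
  fun_prop

lemma vert_isGeod (s : ℝ) : P.IsGeod (fun x => (x, s, 0)) := by
  intro x
  have h : HasDerivAt (fun x : ℝ => ((x, s, 0) : ℝ × ℝ × ℝ)) (1, 0, 0) x :=
    (hasDerivAt_id x).prodMk ((hasDerivAt_const x s).prodMk (hasDerivAt_const x 0))
  simpa [Prof.V] using h


end Pool.Agent.Helper10.Asy
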