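import Mathlib
import Pool.Agent.Helper10.Asy.Base

open scoped ContDiff Topology
open Set Filter

noncomputable section

namespace Pool.Agent.Helper10.Asy.JN

variable (P : Prof)


theorem _root_.Pool.Agent.Helper10.Asy.Prof.lam_small : P.lam ≤ 1 ∧ P.del ≤ 1 ∧ 0 ≤ P.del := by
  have hC : 0 ≤ P.C := by
    have h1 := P.dH_ge 0
    have h2 := P.dH_nonpos 0
    linarith
  have hdel : 0 ≤ P.del := (P.H_nonneg 0).trans (P.H_le 0)
  have h3 := P.mu_le
  have h4 := P.lam_pos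
  have h5 := P.del_le
  have h6 : 0 ≤ P.lam * P.del := mul_nonneg h4.le hdel
  have h7 : 100 * P.lam ^ 2 ≤ P.lam := by nlinarith
  have h8 : P.lam ≤ 1 := by
    by_contra hcon
    push Not at hcon
    nlinarith
  exact ⟨h8, by linarith, hdel⟩

theorem _root_.Pool.Agent.Helper10.Asy.Prof.abs_L_le (t : ℝ) : |P.L t| ≤ |t| := by
  obtain ⟨_, h2, h3⟩ := P.lam_small
  have h := Convex.norm_image_sub_le_of_norm_deriv_le (f := P.L) (s := Set.univ) (C := 1)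
    (x := 0) (y := t) (fun x _ => (P.dL x).differentiableAt)
    (fun x _ => by
      rw [(P.dL x).deriv, Real.norm_eq_abs, abs_of_nonneg (P.H_nonneg x)]
      exact (P.H_le x).trans h2) convex_univ (Set.mem_univ _) (Set.mem_univ _)
  rw [P.L_zero 0 le_rfl, sub_zero, sub_zero, one_mul] at h
  simpa using h

theorem _root_.Pool.Agent.Helper10.Asy.Prof.le_f (q : ℝ × ℝ) : Real.exp (-(1 + q.1 ^ 2)) ≤ P.f q := by
  unfold Prof.f
  apply Real.exp_le_exp.2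
  have h1 := P.abs_L_le q.1
  have h2 := P.a_nonneg q.2
  have h3 := P.a_le q.2
  have h4 : |P.a q.2 * q.1| ≤ |q.1| := by
    rw [abs_mul, abs_of_nonneg h2]
    exact mul_le_of_le_one_left (abs_nonneg _) h3
  have h5 := neg_abs_le (P.L q.1)
  have h6 := neg_abs_le (P.a q.2 * q.1)
  have h7 : 2 * |q.1| ≤ 1 + q.1 ^ 2 := by
    have := sq_nonneg (|q.1| - 1)
    rw [← sq_abs q.1]
    nlinarith
  linarith

theorem hasDeriv_g (t : ℝ) : HasDerivAt (fun t : ℝ => 1 / 4 * Real.exp (-(1 + t ^ 2)))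
    (1 / 4 * (Real.exp (-(1 + t ^ 2)) * (-(2 * t)))) t := by
  have h1 : HasDerivAt (fun t : ℝ => -(1 + t ^ 2)) (-(2 * t)) t := by
    have h := ((hasDerivAt_pow 2 t).const_add 1).neg
    have he : -(((2 : ℕ) : ℝ) * t ^ (2 - 1)) = -(2 * t) := by norm_num
    rw [he] at h
    exact h
  exact (h1.exp).const_mul (1 / 4)

theorem g_bound (t : ℝ) : |1 / 4 * (Real.exp (-(1 + t ^ 2)) * (-(2 * t)))| ≤ 1 / 4 := by
  rw [abs_mul, abs_mul, abs_neg, abs_of_pos (Real.exp_pos _), abs_of_pos (by norm_num : (0:ℝ) < 1/4)]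
  have h1 : |2 * t| ≤ 1 + t ^ 2 := by
    rw [abs_mul, abs_of_pos (by norm_num : (0:ℝ) < 2)]
    have := sq_nonneg (|t| - 1)
    rw [← sq_abs t]
    nlinarith
  have h2 : 1 + t ^ 2 ≤ Real.exp (1 + t ^ 2) := by
    have := Real.add_one_le_exp (1 + t ^ 2)
    linarith
  have h3 : Real.exp (-(1 + t ^ 2)) * |2 * t| ≤ 1 := by
    calc Real.exp (-(1 + t ^ 2)) * |2 * t|
        ≤ Real.exp (-(1 + t ^ 2)) * Real.exp (1 + t ^ 2) :=
          mul_le_mul_of_nonneg_left (h1.trans h2) (Real.exp_pos _).le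
      _ = 1 := by rw [← Real.exp_add]; simp
  linarith

/-- the test function -/
def Sc (c : ℝ) (q : ℝ × ℝ) : ℝ := 1 / 4 * Real.exp (-(1 + q.1 ^ 2)) * Real.arctan (q.2 - c)

theorem Sc_hasFDerivAt (c : ℝ) (q : ℝ × ℝ) : HasFDerivAt (Sc c)
    ((1 / 4 * Real.exp (-(1 + q.1 ^ 2))) • ((1 / (1 + (q.2 - c) ^ 2)) •
        (ContinuousLinearMap.snd ℝ ℝ ℝ)) +
      Real.arctan (q.2 - c) • ((1 / 4 * (Real.exp (-(1 + q.1 ^ 2)) * (-(2 * q.1)))) •
        (ContinuousLinearMap.fst ℝ ℝ ℝ))) q := by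
  have hG : HasFDerivAt (fun q : ℝ × ℝ => 1 / 4 * Real.exp (-(1 + q.1 ^ 2)))
      ((1 / 4 * (Real.exp (-(1 + q.1 ^ 2)) * (-(2 * q.1)))) •
        (ContinuousLinearMap.fst ℝ ℝ ℝ)) q :=
    (hasDeriv_g q.1).comp_hasFDerivAt q hasFDerivAt_fst
  have hA0 : HasDerivAt (fun s : ℝ => Real.arctan (s - c)) (1 / (1 + (q.2 - c) ^ 2)) q.2 := by
    have := ((hasDerivAt_id q.2).sub_const c).arctan
    simpa using this
  have hA : HasFDerivAt (fun q : ℝ × ℝ => Real.arctan (q.2 - c))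
      ((1 / (1 + (q.2 - c) ^ 2)) • (ContinuousLinearMap.snd ℝ ℝ ℝ)) q :=
    hA0.comp_hasFDerivAt q hasFDerivAt_snd
  exact hG.mul hA

theorem Sc_contDiff (c : ℝ) : ContDiff ℝ 1 (Sc c) := by
  unfold Sc
  have h1 : ContDiff ℝ 1 fun q : ℝ × ℝ => 1 / 4 * Real.exp (-(1 + q.1 ^ 2)) := by fun_prop
  have h2 : ContDiff ℝ 1 fun q : ℝ × ℝ => Real.arctan (q.2 - c) := by
    exact Real.contDiff_arctan.comp (by fun_prop : ContDiff ℝ 1 fun q : ℝ × ℝ => q.2 - c)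
  exact h1.mul h2

theorem Sc_bound (c : ℝ) (q v : ℝ × ℝ) : (fderiv ℝ (Sc c) q v) ^ 2 ≤ P.nsq q v := by
  rw [(Sc_hasFDerivAt c q).fderiv]
  simp only [_root_.add_apply, _root_.smul_apply,
    ContinuousLinearMap.coe_fst', ContinuousLinearMap.coe_snd', smul_eq_mul]
  have hg := g_bound q.1
  have hf := P.le_f q
  have hfpos : 0 < P.f q := Real.exp_pos _
  have hgpos := Real.exp_pos (-(1 + q.1 ^ 2))
  set g := Real.exp (-(1 + q.1 ^ 2)) with hgdef
  have harc : |Real.arctan (q.2 - c)| ≤ 1.6 := by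
    have h1 := Real.arctan_lt_pi_div_two (q.2 - c)
    have h2 := Real.neg_pi_div_two_lt_arctan (q.2 - c)
    have h3 := Real.pi_lt_d2
    rw [abs_le]
    constructor <;> linarith
  have hden : 0 < 1 + (q.2 - c) ^ 2 := by positivity
  have hA : |Real.arctan (q.2 - c) * (1 / 4 * (g * (-(2 * q.1))) * v.1)| ≤ 0.4 * |v.1| := by
    rw [abs_mul, abs_mul]
    calc |Real.arctan (q.2 - c)| * (|1 / 4 * (g * (-(2 * q.1)))| * |v.1|)
        ≤ 1.6 * (1 / 4 * |v.1|) := by gcongr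
      _ = 0.4 * |v.1| := by ring
  have hB : |1 / 4 * g * (1 / (1 + (q.2 - c) ^ 2) * v.2)| ≤ 1 / 4 * |P.f q * v.2| := by
    rw [abs_mul, abs_mul (1 / (1 + (q.2 - c) ^ 2)), abs_mul (P.f q), abs_of_pos hfpos,
      abs_of_pos (by positivity : 0 < 1 / 4 * g), abs_of_pos (by positivity : 0 < 1 / (1 + (q.2 - c) ^ 2))]
    have h1 : 1 / (1 + (q.2 - c) ^ 2) ≤ 1 := by
      rw [div_le_one hden]
      nlinarith [sq_nonneg (q.2 - c)]
    calc 1 / 4 * g * (1 / (1 + (q.2 - c) ^ 2) * |v.2|)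
        ≤ 1 / 4 * P.f q * (1 * |v.2|) := by gcongr
      _ = 1 / 4 * (P.f q * |v.2|) := by ring
  unfold Prof.nsq
  set X := 1 / 4 * g * (1 / (1 + (q.2 - c) ^ 2) * v.2)
  set Y := Real.arctan (q.2 - c) * (1 / 4 * (g * (-(2 * q.1))) * v.1)
  have hX : X ^ 2 ≤ (1 / 4) ^ 2 * (P.f q * v.2) ^ 2 := by
    rw [← sq_abs X, ← sq_abs (P.f q * v.2), ← mul_pow]
    gcongr
  have hY : Y ^ 2 ≤ 0.4 ^ 2 * v.1 ^ 2 := by
    rw [← sq_abs Y, ← sq_abs v.1, ← mul_pow]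
    gcongr
  nlinarith [sq_nonneg (X - Y), sq_nonneg v.1, sq_nonneg (P.f q * v.2)]

/-- completeness -/
theorem complete_of_lower (M : Type) [MetricSpace M] (e : M ≃ₜ ℝ × ℝ)
    (hlow : ∀ S : ℝ × ℝ → ℝ, ContDiff ℝ 1 S → (∀ q v, (fderiv ℝ S q v) ^ 2 ≤ P.nsq q v) →
      ∀ x y : M, |S (e x) - S (e y)| ≤ dist x y) : CompleteSpace M := by
  apply Metric.complete_of_cauchySeq_tendsto
  intro x hx
  have ht : ∀ y z : M, |(e y).1 - (e z).1| ≤ dist y z := by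
    intro y z
    refine hlow (fun q => q.1) (by fun_prop) (fun q v => ?_) y z
    have : fderiv ℝ (fun q : ℝ × ℝ => q.1) q = ContinuousLinearMap.fst ℝ ℝ ℝ :=
      hasFDerivAt_fst.fderiv
    rw [this]
    simp only [ContinuousLinearMap.coe_fst', Prof.nsq]
    nlinarith [sq_nonneg (P.f q * v.2)]
  have hs : ∀ c : ℝ, ∀ y z : M, |Sc c (e y) - Sc c (e z)| ≤ dist y z := fun c y z =>
    hlow (Sc c) (Sc_contDiff c) (Sc_bound P c) y z
  have htc : CauchySeq (fun n => (e (x n)).1) := by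
    rw [Metric.cauchySeq_iff] at hx ⊢
    intro ε hε
    obtain ⟨N, hN⟩ := hx ε hε
    exact ⟨N, fun m hm n hn => by
      rw [Real.dist_eq]
      exact (ht _ _).trans_lt (hN m hm n hn)⟩
  obtain ⟨R, hR0, hR⟩ := cauchySeq_bdd htc
  obtain ⟨T, hT⟩ : ∃ T, ∀ n, |(e (x n)).1| ≤ T := by
    refine ⟨|(e (x 0)).1| + R, fun n => ?_⟩
    have h1 := hR n 0
    rw [Real.dist_eq] at h1
    have h2 := abs_sub_abs_le_abs_sub (e (x n)).1 (e (x 0)).1
    linarith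
  have hsc : CauchySeq (fun n => (e (x n)).2) := by
    rw [Metric.cauchySeq_iff] at hx ⊢
    intro ε hε
    have hδ : 0 < Real.arctan ε := Real.arctan_pos.2 hε
    have hη : 0 < Real.exp (-(1 + T ^ 2)) := Real.exp_pos _
    obtain ⟨N, hN⟩ := hx (1 / 4 * Real.exp (-(1 + T ^ 2)) * Real.arctan ε) (by positivity)
    refine ⟨N, fun m hm n hn => ?_⟩
    have h1 := (hs (e (x n)).2 (x m) (x n)).trans_lt (hN m hm n hn)
    unfold Sc at h1
    rw [sub_self, Real.arctan_zero, mul_zero, sub_zero, abs_mul,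
      abs_of_pos (by positivity : 0 < 1 / 4 * Real.exp (-(1 + (e (x m)).1 ^ 2)))] at h1
    have h2 : Real.exp (-(1 + T ^ 2)) ≤ Real.exp (-(1 + (e (x m)).1 ^ 2)) := by
      apply Real.exp_le_exp.2
      have h3 : (e (x m)).1 ^ 2 ≤ T ^ 2 := by
        rw [← sq_abs (e (x m)).1]
        exact pow_le_pow_left₀ (abs_nonneg _) (hT m) 2
      linarith
    have h4 : |Real.arctan ((e (x m)).2 - (e (x n)).2)| < Real.arctan ε := by
      by_contra hcon
      push Not at hcon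
      have h5 : 1 / 4 * Real.exp (-(1 + T ^ 2)) * Real.arctan ε ≤
          1 / 4 * Real.exp (-(1 + (e (x m)).1 ^ 2)) *
            |Real.arctan ((e (x m)).2 - (e (x n)).2)| := by gcongr
      linarith
    rw [Real.dist_eq, abs_lt]
    rw [abs_lt, ← Real.arctan_neg] at h4
    exact ⟨Real.arctan_strictMono.lt_iff_lt.1 h4.1, Real.arctan_strictMono.lt_iff_lt.1 h4.2⟩
  obtain ⟨t0, ht0⟩ := cauchySeq_tendsto_of_complete htc
  obtain ⟨s0, hs0⟩ := cauchySeq_tendsto_of_complete hsc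
  have hlim : Tendsto (fun n => e (x n)) atTop (𝓝 (t0, s0)) := ht0.prodMk_nhds hs0
  refine ⟨e.symm (t0, s0), ?_⟩
  have := (e.symm.continuous.tendsto (t0, s0)).comp hlim
  simpa [Function.comp_def] using this


end Pool.Agent.Helper10.Asy.JN
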